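import Mathlib

/-!
Basic definitions for the proof of the statement on strongly NIP ordered fields.
-/

set_option autoImplicit false

namespace Pool.Agent.SNIP

section Definable

variable (K : Type) [Field K] [LinearOrder K] [IsStrictOrderedRing K]

/-- The closure conditions on a system of families of subsets of the powers of `K`. -/
def Closed (F : (n : ℕ) → Set (Set (Fin n → K))) : Prop :=
  (∀ (n : ℕ) (p : MvPolynomial (Fin n) ℤ),
      {x : Fin n → K | MvPolynomial.eval₂ (Int.castRingHom K) x p = 0} ∈ F n) ∧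
  (∀ (n : ℕ) (p : MvPolynomial (Fin n) ℤ),
      {x : Fin n → K | 0 < MvPolynomial.eval₂ (Int.castRingHom K) x p} ∈ F n) ∧
  (∀ (n : ℕ) (s : Set (Fin n → K)), s ∈ F n → sᶜ ∈ F n) ∧
  (∀ (n : ℕ) (s t : Set (Fin n → K)), s ∈ F n → t ∈ F n → s ∩ t ∈ F n) ∧
  (∀ (n : ℕ) (s : Set (Fin (n + 1) → K)), s ∈ F (n + 1) →
      {x : Fin n → K | ∃ a : K, Fin.snoc (α := fun _ => K) x a ∈ s} ∈ F n)

/-- Parameter free definable subset of `K ^ n`. -/
def Dfn (n : ℕ) (s : Set (Fin n → K)) : Prop :=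
  ∀ F : (n : ℕ) → Set (Set (Fin n → K)), Closed K F → s ∈ F n

/-- Parameter free definable subset of `ι → K` for a finite index type `ι`. -/
def DfnI {ι : Type} (s : Set (ι → K)) : Prop :=
  ∃ (n : ℕ) (e : ι ≃ Fin n), Dfn K n {x : Fin n → K | (fun i => x (e i)) ∈ s}

/-- Strong dependence in one variable: the first hypothesis of the frozen statement. -/
def StrongNIP : Prop :=
  ¬ ∃ (k : ℕ → ℕ) (S : (i : ℕ) → Set (Fin (k i + 1) → K)),
      (∀ i : ℕ, Dfn K (k i + 1) (S i)) ∧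
      ∀ n m : ℕ, ∃ a : (i : Fin n) → Fin m → (Fin (k i.val) → K),
        ∀ η : Fin n → Fin m, ∃ c : K, ∀ (i : Fin n) (j : Fin m),
          (Fin.cons (α := fun _ => K) c (a i j) ∈ S i.val ↔ j = η i)

end Definable

/-- The family `F` of subsets of `X` indexed by `Y` shatters no `d` points. -/
def NoShatter {Y X : Type*} (F : Y → Set X) (d : ℕ) : Prop :=
  ∀ x : Fin d → X, ¬ ∀ I : Set (Fin d), ∃ y : Y, ∀ i, (x i ∈ F y ↔ i ∈ I)

/-- The sup norm in coordinates. -/
noncomputable def bnorm {K L : Type} [Field K] [LinearOrder K] [IsStrictOrderedRing K]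
    [Field L] [Algebra K L] {D : ℕ} (b : Module.Basis (Fin (D + 1)) K L) (x : L) : K :=
  Finset.univ.sup' ⟨0, Finset.mem_univ _⟩ (fun i => |b.repr x i|)

/-- Existence of exotic elements for the exponent `q`. -/
def EXq {K L : Type} [Field K] [LinearOrder K] [IsStrictOrderedRing K]
    [Field L] (N : L → K) (q : ℕ) : Prop :=
  ∃ δ₀ : K, 0 < δ₀ ∧ ∃ B : K, 0 < B ∧ ∀ η : K, 0 < η → η ≤ δ₀ →
    ∃ g₀ : L, ∀ g : L, N (g - g₀) ≤ η →
      N g ≤ B ∧ N g⁻¹ ≤ B ∧ N (g ^ q - 1) ≤ B * η ∧ ∀ y : L, N (y - 1) < δ₀ → y ^ q ≠ g ^ q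

/-- Finiteness of the number of classes of elements near one modulo `q`-th powers of elements
near one. -/
def FINq {K L : Type} [Field K] [LinearOrder K] [IsStrictOrderedRing K]
    [Field L] (N : L → K) (q : ℕ) : Prop :=
  ∀ δ : K, 0 < δ → ∀ δ₂ : K, 0 < δ₂ → ∃ δ₁ : K, 0 < δ₁ ∧ δ₁ ≤ δ₂ ∧ ∃ W : Finset L,
    (∀ w ∈ W, N (w - 1) < δ₁) ∧
    ∀ u : L, N (u - 1) < δ₁ → ∃ w ∈ W, ∃ y : L, N (y - 1) < δ ∧ u = w * y ^ q

/-- The affine images of the set of `q`-th powers of elements near one. -/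
def PFam {K L : Type} [Field K] [LinearOrder K] [IsStrictOrderedRing K]
    [Field L] (N : L → K) (q : ℕ) (δ : K) (p : L × L) : Set L :=
  {x : L | ∃ y : L, N (y - 1) < δ ∧ p.1 + p.2 * x = y ^ q}

/-- The group of `q`-th powers has finite index. -/
def FinIndex (L : Type) [Field L] (q : ℕ) : Prop :=
  ∃ T : Finset L, ∀ x : L, x ≠ 0 → ∃ t ∈ T, ∃ z : L, x = t * z ^ q

/-- The axioms for a norm used in the main argument. -/
structure IsN {K L : Type} [Field K] [LinearOrder K] [IsStrictOrderedRing K]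
    [Field L] [Algebra K L] (N : L → K) (C : K) : Prop where
  one_le : 1 ≤ C
  nonneg : ∀ x, 0 ≤ N x
  eq_zero : ∀ x, N x = 0 → x = 0
  add_le : ∀ x y, N (x + y) ≤ N x + N y
  smul_eq : ∀ (k : K) (x : L), N (k • x) = |k| * N x
  mul_le : ∀ x y, N (x * y) ≤ C * N x * N y
  norm_one : N 1 ≤ C

/-- Axioms for an absolute value with values in an ordered field. -/
structure IsAv {R Ω : Type} [Field R] [LinearOrder R] [IsStrictOrderedRing R] [Field Ω]
    (av : Ω → R) : Prop where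
  nonneg : ∀ x, 0 ≤ av x
  eq_zero : ∀ x, av x = 0 → x = 0
  mul : ∀ x y, av (x * y) = av x * av y
  add_le : ∀ x y, av (x + y) ≤ av x + av y

/-- Data of at least two embeddings of `L` in `Ω` which describe the topology of the norm `N`. -/
structure Places {K L R Ω : Type} [Field K] [LinearOrder K] [IsStrictOrderedRing K]
    [Field L] [Field R] [LinearOrder R] [IsStrictOrderedRing R] [Field Ω]
    (f : K →+* R) (av : Ω → R) (N : L → K) (n : ℕ) (σ : Fin (n + 2) → L →+* Ω) (C₁ : K) :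
    Prop where
  pos : 0 < C₁
  le : ∀ (x : L) (j : Fin (n + 2)), av (σ j x) ≤ f (C₁ * N x)
  ge : ∀ (x : L) (t : K), (∀ j, av (σ j x) ≤ f t) → N x ≤ C₁ * t
  approx : ∀ (z : Fin (n + 2) → Ω) (η : K), 0 < η → ∃ x : L, ∀ j, av (σ j x - z j) ≤ f η

end Pool.Agent.SNIP
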