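import Mathlib
import Pool.Agent.SNIP.Def

set_option autoImplicit false

namespace Pool.Agent.SNIP

/-- The relation `u ∈ v • (q-th powers of elements near one)`. -/
def Rel {K L : Type} [Field K] [LinearOrder K] [Field L] (N : L → K) (q : ℕ) (δ : K)
    (u v : L) : Prop :=
  ∃ y : L, N (y - 1) < δ ∧ u = v * y ^ q

end Pool.Agent.SNIP
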