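import Mathlib
import Pool.Agent.SNIP.Def
import Pool.Agent.SNIP.Rel

set_option autoImplicit false

namespace Pool.Agent.SNIP

namespace IsN

variable {K L : Type} [Field K] [LinearOrder K] [IsStrictOrderedRing K] [Field L] [Algebra K L]
  {N : L → K} {C : K}

theorem zero (h : IsN N C) : N 0 = 0 := by
  have := h.smul_eq 0 0
  simpa using this

theorem neg (h : IsN N C) (x : L) : N (-x) = N x := by
  have := h.smul_eq (-1) x
  simpa using this

theorem sub_le (h : IsN N C) (x y : L) : N (x - y) ≤ N x + N y := by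
  have := h.add_le x (-y)
  rw [h.neg, ← sub_eq_add_neg] at this
  exact this

theorem sub_comm (h : IsN N C) (x y : L) : N (x - y) = N (y - x) := by
  rw [← h.neg, neg_sub]

theorem C_pos (h : IsN N C) : 0 < C := lt_of_lt_of_le one_pos h.one_le

theorem mul_small (h : IsN N C) (Λ ε : K) (hε : 0 < ε) :
    ∃ η : K, 0 < η ∧ ∀ a x : L, N a ≤ Λ → N x ≤ η → N (a * x) ≤ ε := by
  have hC := h.C_pos
  have hL : 0 < |Λ| + 1 := by positivity
  refine ⟨ε / (C * (|Λ| + 1)), by positivity, ?_⟩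
  intro a x ha hx
  have h1 : N a ≤ |Λ| + 1 := by
    have := le_abs_self Λ
    linarith
  calc N (a * x) ≤ C * N a * N x := h.mul_le a x
    _ ≤ C * (|Λ| + 1) * (ε / (C * (|Λ| + 1))) := by
        have := h.nonneg a
        have := h.nonneg x
        gcongr
    _ = ε := by field_simp

theorem one_lower (h : IsN N C) : 1 ≤ C * N 1 := by
  have h1 := h.mul_le 1 1
  have h2 : 0 < N 1 := by
    refine lt_of_le_of_ne (h.nonneg 1) ?_
    intro h3
    exact one_ne_zero (h.eq_zero 1 h3.symm)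
  rw [one_mul] at h1
  by_contra h4
  push Not at h4
  have : C * N 1 * N 1 < 1 * N 1 := by
    exact mul_lt_mul_of_pos_right h4 h2
  linarith

theorem inv_small (h : IsN N C) (ε : K) (hε : 0 < ε) :
    ∃ η : K, 0 < η ∧ ∀ u : L, N (u - 1) ≤ η → u ≠ 0 ∧ N (u⁻¹ - 1) ≤ ε := by
  have hC := h.C_pos
  refine ⟨min (1 / (2 * C)) (ε / (2 * C * C)), lt_min (by positivity) (by positivity), ?_⟩
  intro u hu
  have hu1 : N (u - 1) ≤ 1 / (2 * C) := le_trans hu (min_le_left _ _)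
  have hu2 : N (u - 1) ≤ ε / (2 * C * C) := le_trans hu (min_le_right _ _)
  have hne : u ≠ 0 := by
    rintro rfl
    have h1 : N (0 - 1 : L) = N 1 := by rw [zero_sub, h.neg]
    rw [h1] at hu1
    have h2 := h.one_lower
    have h3 : C * N 1 ≤ C * (1 / (2 * C)) := by gcongr
    have h4 : C * (1 / (2 * C)) = 1 / 2 := by field_simp
    rw [h4] at h3
    have : (1 : K) / 2 < 1 := by norm_num
    linarith
  refine ⟨hne, ?_⟩
  have e1 : u⁻¹ - 1 = -((u - 1) * u⁻¹) := by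
    field_simp
    ring
  have h1 : N (u⁻¹ - 1) ≤ C * N (u - 1) * N u⁻¹ := by
    rw [e1, h.neg]
    exact h.mul_le _ _
  have h2 : N u⁻¹ ≤ N (u⁻¹ - 1) + C := by
    have := h.add_le (u⁻¹ - 1) 1
    rw [sub_add_cancel] at this
    have := h.norm_one
    linarith
  have h3 : C * N (u - 1) ≤ 1 / 2 := by
    have : C * N (u - 1) ≤ C * (1 / (2 * C)) := by gcongr
    have h4 : C * (1 / (2 * C)) = 1 / 2 := by field_simp
    linarith
  have h5 : C * C * N (u - 1) ≤ ε / 2 := by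
    have : C * C * N (u - 1) ≤ C * C * (ε / (2 * C * C)) := by gcongr
    have h4 : C * C * (ε / (2 * C * C)) = ε / 2 := by field_simp
    linarith
  have h6 : C * N (u - 1) * N u⁻¹ ≤ C * N (u - 1) * (N (u⁻¹ - 1) + C) := by
    have := h.nonneg (u - 1)
    gcongr
  have h7 : C * N (u - 1) * N (u⁻¹ - 1) ≤ 1 / 2 * N (u⁻¹ - 1) := by
    have := h.nonneg (u⁻¹ - 1)
    gcongr
  nlinarith [h.nonneg (u⁻¹ - 1)]

theorem mul_near (h : IsN N C) (ε : K) (hε : 0 < ε) :
    ∃ η : K, 0 < η ∧ ∀ u v : L, N (u - 1) ≤ η → N (v - 1) ≤ η → N (u * v - 1) ≤ ε := by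
  have hC := h.C_pos
  obtain ⟨η₁, hη₁, h1⟩ := h.mul_small 1 (ε / 3) (by positivity)
  refine ⟨min (min 1 η₁) (ε / 3), lt_min (lt_min one_pos hη₁) (by positivity), ?_⟩
  intro u v hu hv
  have e1 : u * v - 1 = (u - 1) * (v - 1) + (u - 1) + (v - 1) := by ring
  have a1 : N ((u - 1) * (v - 1)) ≤ ε / 3 :=
    h1 _ _ (le_trans hu (le_trans (min_le_left _ _) (min_le_left _ _)))
      (le_trans hv (le_trans (min_le_left _ _) (min_le_right _ _)))
  have a2 : N (u - 1) ≤ ε / 3 := le_trans hu (min_le_right _ _)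
  have a3 : N (v - 1) ≤ ε / 3 := le_trans hv (min_le_right _ _)
  rw [e1]
  have b1 := h.add_le ((u - 1) * (v - 1) + (u - 1)) (v - 1)
  have b2 := h.add_le ((u - 1) * (v - 1)) (u - 1)
  linarith

theorem div_near (h : IsN N C) (ε : K) (hε : 0 < ε) :
    ∃ η : K, 0 < η ∧ ∀ u v : L, N (u - 1) ≤ η → N (v - 1) ≤ η → v ≠ 0 ∧ N (u / v - 1) ≤ ε := by
  obtain ⟨η₁, hη₁, h1⟩ := h.mul_near ε hε
  obtain ⟨η₂, hη₂, h2⟩ := h.inv_small η₁ hη₁
  refine ⟨min η₁ η₂, lt_min hη₁ hη₂, ?_⟩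
  intro u v hu hv
  obtain ⟨hv0, hv1⟩ := h2 v (le_trans hv (min_le_right _ _))
  exact ⟨hv0, by
    rw [div_eq_mul_inv]
    exact h1 _ _ (le_trans hu (min_le_left _ _)) hv1⟩

theorem pow_near (h : IsN N C) (n : ℕ) (ε : K) (hε : 0 < ε) :
    ∃ η : K, 0 < η ∧ ∀ u : L, N (u - 1) ≤ η → N (u ^ n - 1) ≤ ε := by
  induction n generalizing ε with
  | zero => exact ⟨1, one_pos, fun u _ => by simp [h.zero, hε.le]⟩
  | succ n ih =>
    obtain ⟨η₁, hη₁, h1⟩ := h.mul_near ε hε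
    obtain ⟨η₂, hη₂, h2⟩ := ih η₁ hη₁
    refine ⟨min η₁ η₂, lt_min hη₁ hη₂, ?_⟩
    intro u hu
    rw [pow_succ]
    exact h1 _ _ (h2 u (le_trans hu (min_le_right _ _))) (le_trans hu (min_le_left _ _))

theorem sum_le (h : IsN N C) {ι : Type*} (s : Finset ι) (f : ι → L) :
    N (∑ i ∈ s, f i) ≤ ∑ i ∈ s, N (f i) := by
  classical
  induction s using Finset.induction_on with
  | empty => simp [h.zero]
  | insert a s ha ih =>
    rw [Finset.sum_insert ha, Finset.sum_insert ha]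
    exact le_trans (h.add_le _ _) (by linarith)

theorem charZero (L : Type) (K : Type) [Field K] [LinearOrder K] [IsStrictOrderedRing K] [Field L]
    [Algebra K L] : CharZero L :=
  charZero_of_injective_algebraMap (algebraMap K L).injective

theorem natCast_mul (h : IsN N C) (n : ℕ) (x : L) : N ((n : L) * x) = n * N x := by
  have := h.smul_eq (n : K) x
  rw [Algebra.smul_def, map_natCast, abs_of_nonneg (Nat.cast_nonneg n)] at this
  exact this

theorem inv_natCast_mul (h : IsN N C) (n : ℕ) (x : L) : N ((n : L)⁻¹ * x) = (n : K)⁻¹ * N x := by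
  have := h.smul_eq ((n : K)⁻¹) x
  rw [Algebra.smul_def, map_inv₀, map_natCast, abs_of_nonneg (by positivity)] at this
  exact this

/-- near one the distance to one is controlled by that of the `q`-th power. -/
theorem root_near (h : IsN N C) (q : ℕ) (hq : 1 ≤ q) :
    ∃ δ' : K, 0 < δ' ∧ ∀ ε : K, 0 < ε → ∃ η : K, 0 < η ∧
      ∀ y : L, N (y - 1) < δ' → N (y ^ q - 1) ≤ η → N (y - 1) ≤ ε := by
  have hC := h.C_pos
  have := IsN.charZero L K
  obtain ⟨η₁, hη₁, h1⟩ := h.inv_small 1 one_pos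
  have hpow : ∀ n : ℕ, ∃ η : K, 0 < η ∧ ∀ u : L, N (u - 1) ≤ η → ∀ i < n, N (u ^ i - 1) ≤ η₁ := by
    intro n
    induction n with
    | zero => exact ⟨1, one_pos, fun u _ i hi => absurd hi (by omega)⟩
    | succ n ih =>
      obtain ⟨a, ha, h2⟩ := ih
      obtain ⟨b, hb, h3⟩ := h.pow_near n η₁ hη₁
      refine ⟨min a b, lt_min ha hb, ?_⟩
      intro u hu i hi
      rcases Nat.lt_succ_iff_lt_or_eq.1 hi with h4 | h4
      · exact h2 u (le_trans hu (min_le_left _ _)) i h4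
      · rw [h4]
        exact h3 u (le_trans hu (min_le_right _ _))
  obtain ⟨δ', hδ', h2⟩ := hpow q
  refine ⟨δ', hδ', ?_⟩
  intro ε hε
  refine ⟨ε / (C * (C + 1)), by positivity, ?_⟩
  intro y hy hyq
  set s : L := ∑ i ∈ Finset.range q, y ^ i with hs
  have hq0 : (q : L) ≠ 0 := by
    exact_mod_cast (by omega : q ≠ 0)
  have hqK : (0 : K) < q := by exact_mod_cast (by omega : 0 < q)
  have hs1 : N ((q : L)⁻¹ * s - 1) ≤ η₁ := by
    have e1 : (q : L)⁻¹ * s - 1 = (q : L)⁻¹ * ∑ i ∈ Finset.range q, (y ^ i - 1) := by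
      rw [Finset.sum_sub_distrib]
      simp only [Finset.sum_const, Finset.card_range, nsmul_eq_mul, mul_one]
      rw [mul_sub, inv_mul_cancel₀ hq0]
    rw [e1, h.inv_natCast_mul]
    have : N (∑ i ∈ Finset.range q, (y ^ i - 1)) ≤ q * η₁ := by
      refine le_trans (h.sum_le _ _) ?_
      refine le_trans (Finset.sum_le_sum (fun i hi => h2 y hy.le i (Finset.mem_range.1 hi))) ?_
      simp
    calc (q : K)⁻¹ * N (∑ i ∈ Finset.range q, (y ^ i - 1)) ≤ (q : K)⁻¹ * (q * η₁) := by gcongr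
      _ = η₁ := by field_simp
  obtain ⟨hs0, hs2⟩ := h1 _ hs1
  have hsne : s ≠ 0 := by
    intro h3
    apply hs0
    rw [h3, mul_zero]
  have e2 : y - 1 = (y ^ q - 1) * s⁻¹ := by
    have := geom_sum_mul y q
    rw [← this]
    field_simp
    rfl
  have e3 : N (s⁻¹) ≤ C + 1 := by
    have e4 : s⁻¹ = (q : L)⁻¹ * ((q : L)⁻¹ * s)⁻¹ := by
      field_simp
    rw [e4, h.inv_natCast_mul]
    have h5 : N (((q : L)⁻¹ * s)⁻¹) ≤ C + 1 := by
      have := h.add_le (((q : L)⁻¹ * s)⁻¹ - 1) 1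
      rw [sub_add_cancel] at this
      have := h.norm_one
      linarith
    have h6 : (q : K)⁻¹ ≤ 1 := by
      apply inv_le_one_of_one_le₀
      exact_mod_cast hq
    calc (q : K)⁻¹ * N (((q : L)⁻¹ * s)⁻¹) ≤ 1 * (C + 1) := by
          have := h.nonneg (((q : L)⁻¹ * s)⁻¹)
          gcongr
      _ = C + 1 := one_mul _
  rw [e2]
  calc N ((y ^ q - 1) * s⁻¹) ≤ C * N (y ^ q - 1) * N s⁻¹ := h.mul_le _ _
    _ ≤ C * (ε / (C * (C + 1))) * (C + 1) := by
        have := h.nonneg (y ^ q - 1)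
        have := h.nonneg (s⁻¹)
        gcongr
    _ = ε := by field_simp

/-- the relation `Rel` is symmetric and transitive on a small ball around one. -/
theorem rel_pkg (h : IsN N C) (q : ℕ) (hq : 1 ≤ q) :
    ∃ δ' : K, 0 < δ' ∧ ∀ δ : K, 0 < δ → δ ≤ δ' → ∃ ρ : K, 0 < ρ ∧
      (∀ u v : L, N (u - 1) < ρ → N (v - 1) < ρ → Rel N q δ u v → Rel N q δ v u) ∧
      (∀ u v w : L, N (u - 1) < ρ → N (v - 1) < ρ → N (w - 1) < ρ →
        Rel N q δ u v → Rel N q δ v w → Rel N q δ u w) := by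
  obtain ⟨δ', hδ', h1⟩ := h.root_near q hq
  refine ⟨δ', hδ', ?_⟩
  intro δ hδ hδδ'
  obtain ⟨ε₁, hε₁, h2⟩ := h.inv_small (δ / 2) (by positivity)
  obtain ⟨ε₂, hε₂, h3⟩ := h.mul_near (δ / 2) (by positivity)
  obtain ⟨η, hη, h4⟩ := h1 (min ε₁ ε₂) (lt_min hε₁ hε₂)
  obtain ⟨ρ, hρ, h5⟩ := h.div_near η hη
  have key : ∀ u v y : L, N (u - 1) < ρ → N (v - 1) < ρ → N (y - 1) < δ → u = v * y ^ q →
      N (y - 1) ≤ min ε₁ ε₂ := by
    intro u v y hu hv hy huv
    obtain ⟨hv0, h6⟩ := h5 u v hu.le hv.le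
    refine h4 y (lt_of_lt_of_le hy hδδ') ?_
    have : u / v = y ^ q := by
      rw [huv]
      field_simp
    rw [← this]
    exact h6
  refine ⟨ρ, hρ, ?_, ?_⟩
  · rintro u v hu hv ⟨y, hy, huv⟩
    have hk := key u v y hu hv hy huv
    obtain ⟨hy0, hy1⟩ := h2 y (le_trans hk (min_le_left _ _))
    refine ⟨y⁻¹, ?_, ?_⟩
    · have : δ / 2 < δ := by linarith
      exact lt_of_le_of_lt hy1 this
    · rw [huv, mul_assoc, ← mul_pow, mul_inv_cancel₀ hy0, one_pow, mul_one]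
  · rintro u v w hu hv hw ⟨y, hy, huv⟩ ⟨z, hz, hvw⟩
    have hk := key u v y hu hv hy huv
    have hk' := key v w z hv hw hz hvw
    refine ⟨z * y, ?_, ?_⟩
    · have h6 := h3 z y (le_trans hk' (min_le_right _ _)) (le_trans hk (min_le_right _ _))
      have : δ / 2 < δ := by linarith
      exact lt_of_le_of_lt h6 this
    · rw [huv, hvw]
      ring

end IsN

theorem Rel.mul_left {K L : Type} [Field K] [LinearOrder K] [Field L] {N : L → K} {q : ℕ} {δ : K}
    {u v : L} (h : Rel N q δ u v) (a : L) : Rel N q δ (a * u) (a * v) := by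
  obtain ⟨y, hy, huv⟩ := h
  exact ⟨y, hy, by rw [huv]; ring⟩

end Pool.Agent.SNIP
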