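import Mathlib
import Pool.Agent.SNIP.Def
import Pool.Agent.SNIP.Rel
import Pool.Agent.SNIP.Norm

set_option autoImplicit false

namespace Pool.Agent.SNIP

/-- The statement of the lemma on `ℚ`-vector spaces. -/
def LNProp : Prop := ∀ d m k : ℕ, ∃ N : ℕ, ∀ (V : Type) [AddCommGroup V] [Module ℚ V]
    (E : Fin k → Set V),
    (∀ i, NoShatter (fun p : ℕ × V => {y : V | ((1 : ℚ) / ((p.1 : ℚ) + 1)) • (y - p.2) ∈ E i}) d) →
    ∀ c : Fin m → V, ∃ (g : ℕ) (n : Fin m → ℤ), 1 ≤ g ∧ g ≤ N ∧ (∀ l, |n l| ≤ (N : ℤ)) ∧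
      ∀ (i : Fin k) (l : Fin m),
        ((∑ j, (((n j : ℚ) / (g : ℚ)) • c j)) ∈ E i ↔
          (∑ j, (((n j : ℚ) / (g : ℚ)) • c j)) + c l ∈ E i)

variable {K L : Type} [Field K] [LinearOrder K] [IsStrictOrderedRing K] [Field L] [Algebra K L]
  {N : L → K} {C : K}

theorem IsN.ratCast_mul (h : IsN N C) (r : ℚ) (x : L) : N ((r : L) * x) = |(r : K)| * N x := by
  have := h.smul_eq (r : K) x
  rw [Algebra.smul_def, map_ratCast] at this
  exact this

/-- The conclusion of the lemma LN for the field `L`. -/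
def LNL (N : L → K) (q : ℕ) (δ : K) : Prop :=
  ∀ (I J : Type) [Fintype I] [Fintype J] (Λ ε : K), 0 < ε → ∃ η : K, 0 < η ∧
    ∀ (lam : I → L) (c : J → L), (∀ i, N (lam i) ≤ Λ) → (∀ l, N (c l) ≤ η) →
      ∃ x : L, N x ≤ ε ∧ ∀ i l, Rel N q δ (1 + lam i * (x + c l)) (1 + lam i * x)

theorem lnL (hLN : LNProp) (h : IsN N C) (q : ℕ) (δ ρ : K) (hρ : 0 < ρ)
    (hρ0 : ∀ u : L, N (u - 1) < ρ → u ≠ 0)
    (hsymm : ∀ u v : L, N (u - 1) < ρ → N (v - 1) < ρ → Rel N q δ u v → Rel N q δ v u)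
    (htrans : ∀ u v w : L, N (u - 1) < ρ → N (v - 1) < ρ → N (w - 1) < ρ →
      Rel N q δ u v → Rel N q δ v w → Rel N q δ u w)
    (W : Finset L) (hW : ∀ w ∈ W, N (w - 1) < ρ)
    (hfin : ∀ u : L, N (u - 1) < ρ → ∃ w ∈ W, Rel N q δ u w)
    (d : ℕ) (hd : NoShatter (PFam N q δ) d) : LNL N q δ := by
  intro I J _ _ Λ ε hε
  have := IsN.charZero L K
  classical
  set e := Fintype.equivFin (I × W) with he
  set eJ := Fintype.equivFin J with heJ
  set k := Fintype.card (I × W) with hk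
  set m := Fintype.card J with hm
  obtain ⟨N1, hN1⟩ := hLN d m k
  obtain ⟨ε', hε', hsm⟩ := h.mul_small Λ (ρ / 2) (by positivity)
  set ε'' : K := min ε (ε' / 2) with hε''
  have hε''0 : 0 < ε'' := lt_min hε (by positivity)
  refine ⟨min (ε' / 2) (ε'' / ((m : K) * (N1 : K) + 1)), lt_min (by positivity) (by positivity), ?_⟩
  intro lam c hlam hc
  have hV := hN1 L (fun t => {x : L | Rel N q δ (1 + lam (e.symm t).1 * x) ((e.symm t).2 : L)})
    (by
      intro t x hx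
      set i := (e.symm t).1 with hi
      set w := (e.symm t).2 with hw
      have hw0 : (w : L) ≠ 0 := hρ0 _ (hW _ w.2)
      refine hd x ?_
      intro S
      obtain ⟨p, hp⟩ := hx S
      refine ⟨((w : L)⁻¹ * (1 - lam i * (((p.1 : L) + 1)⁻¹ * p.2)),
        (w : L)⁻¹ * (lam i * ((p.1 : L) + 1)⁻¹)), ?_⟩
      intro a
      rw [← hp a]
      simp only [PFam, Set.mem_ofPred_eq, Rel]
      refine exists_congr fun y => and_congr_right fun _ => ?_
      have e1 : ((1 : ℚ) / ((p.1 : ℚ) + 1)) • (x a - p.2) = ((p.1 : L) + 1)⁻¹ * (x a - p.2) := by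
        rw [Rat.smul_def]
        push_cast
        rw [one_div]
      rw [e1]
      constructor
      · intro h1
        have h2 : (w : L) * y ^ q = (w : L) * ((w : L)⁻¹ * (1 - lam i * (((p.1 : L) + 1)⁻¹ * p.2))
          + (w : L)⁻¹ * (lam i * ((p.1 : L) + 1)⁻¹) * x a) := by rw [h1]
        rw [h2]
        have h3 : (w : L) * (w : L)⁻¹ = 1 := mul_inv_cancel₀ hw0
        linear_combination (-(1 - lam i * (((p.1 : L) + 1)⁻¹ * p.2)) - lam i * ((p.1 : L) + 1)⁻¹ * x a) * h3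
      · intro h1
        have h3 : (w : L)⁻¹ * (w : L) = 1 := inv_mul_cancel₀ hw0
        linear_combination (w : L)⁻¹ * h1 + y ^ q * h3)
    (fun j => c (eJ.symm j))
  obtain ⟨g, n, hg1, hgN, hnN, hx⟩ := hV
  set x : L := ∑ j, (((n j : ℚ) / (g : ℚ)) • c (eJ.symm j)) with hxdef
  have hη : ∀ l, N (c l) ≤ ε' / 2 := fun l => le_trans (hc l) (min_le_left _ _)
  have hη' : ∀ l, N (c l) ≤ ε'' / ((m : K) * (N1 : K) + 1) :=
    fun l => le_trans (hc l) (min_le_right _ _)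
  have hxN : N x ≤ ε'' := by
    have h1 : ∀ j : Fin m, N (((n j : ℚ) / (g : ℚ)) • c (eJ.symm j)) ≤
        (N1 : K) * (ε'' / ((m : K) * (N1 : K) + 1)) := by
      intro j
      rw [Rat.smul_def, h.ratCast_mul]
      have h2 : |(((n j : ℚ) / (g : ℚ) : ℚ) : K)| ≤ (N1 : K) := by
        have h3 : |((n j : ℚ) / (g : ℚ))| ≤ (N1 : ℚ) := by
          rw [abs_div]
          have h4 : (1 : ℚ) ≤ |(g : ℚ)| := by
            rw [abs_of_nonneg (Nat.cast_nonneg g)]
            exact_mod_cast hg1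
          have h5 : |(n j : ℚ)| ≤ (N1 : ℚ) := by
            have := hnN j
            exact_mod_cast this
          calc |(n j : ℚ)| / |(g : ℚ)| ≤ |(n j : ℚ)| / 1 := by gcongr
            _ = |(n j : ℚ)| := div_one _
            _ ≤ _ := h5
        have h6 : ((|((n j : ℚ) / (g : ℚ))| : ℚ) : K) ≤ ((N1 : ℚ) : K) := by exact_mod_cast h3
        rw [Rat.cast_abs] at h6
        simpa using h6
      have := h.nonneg (c (eJ.symm j))
      exact mul_le_mul h2 (hη' _) this (Nat.cast_nonneg N1)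
    calc N x ≤ ∑ j : Fin m, N (((n j : ℚ) / (g : ℚ)) • c (eJ.symm j)) := h.sum_le _ _
      _ ≤ ∑ j : Fin m, (N1 : K) * (ε'' / ((m : K) * (N1 : K) + 1)) :=
          Finset.sum_le_sum fun j _ => h1 j
      _ = ((m : K) * (N1 : K)) * (ε'' / ((m : K) * (N1 : K) + 1)) := by
          simp only [Finset.sum_const, Finset.card_univ, Fintype.card_fin, nsmul_eq_mul]
          ring
      _ ≤ ((m : K) * (N1 : K) + 1) * (ε'' / ((m : K) * (N1 : K) + 1)) := by
          have : 0 ≤ ε'' / ((m : K) * (N1 : K) + 1) := by positivity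
          nlinarith
      _ = ε'' := by
          have : (m : K) * (N1 : K) + 1 ≠ 0 := by positivity
          field_simp
  refine ⟨x, le_trans hxN (min_le_left _ _), ?_⟩
  intro i l
  have hxε : N x ≤ ε' / 2 := le_trans hxN (min_le_right _ _)
  have hb1 : N (1 + lam i * x - 1) < ρ := by
    rw [add_sub_cancel_left]
    have := hsm (lam i) x (hlam i) (by linarith)
    linarith
  have hb2 : N (1 + lam i * (x + c l) - 1) < ρ := by
    rw [add_sub_cancel_left]
    have h1 := h.add_le x (c l)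
    have h2 := hη l
    have := hsm (lam i) (x + c l) (hlam i) (by linarith)
    linarith
  obtain ⟨w, hw, hwr⟩ := hfin _ hb1
  have h1 := hx (e (i, ⟨w, hw⟩)) (eJ l)
  simp only [Equiv.symm_apply_apply, Set.mem_ofPred_eq] at h1
  have h2 := h1.1 hwr
  exact htrans _ _ _ hb2 (hW w hw) hb1 h2 (hsymm _ _ hb1 (hW w hw) hwr)

theorem IsN.pow_bound (h : IsN N C) (B : K) (n : ℕ) :
    ∃ B' : K, ∀ g : L, N g ≤ B → ∀ i ≤ n, N (g ^ i) ≤ B' := by
  induction n with
  | zero =>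
    refine ⟨C, ?_⟩
    intro g _ i hi
    have : i = 0 := by omega
    subst this
    rw [pow_zero]
    exact h.norm_one
  | succ n ih =>
    obtain ⟨B', hB'⟩ := ih
    refine ⟨max B' (C * |B'| * |B|), ?_⟩
    intro g hg i hi
    rcases Nat.lt_or_ge i (n + 1) with h1 | h1
    · exact le_trans (hB' g hg i (by omega)) (le_max_left _ _)
    · have h2 : i = n + 1 := by omega
      subst h2
      rw [pow_succ]
      refine le_trans (h.mul_le _ _) (le_trans ?_ (le_max_right _ _))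
      have h3 := hB' g hg n le_rfl
      have h4 := h.nonneg (g ^ n)
      have h5 := h.nonneg g
      have h6 := h.C_pos
      have h7 := le_abs_self B'
      have h8 := le_abs_self B
      have h9 : N (g ^ n) ≤ |B'| := le_trans h3 h7
      have h10 : N g ≤ |B| := le_trans hg h8
      gcongr

/-- The key step: exotic elements `1 + e`. -/
theorem key_step (h : IsN N C) (q : ℕ) (hq : 1 ≤ q) (δ ρ : K) (hρ : 0 < ρ)
    (hsymm : ∀ u v : L, N (u - 1) < ρ → N (v - 1) < ρ → Rel N q δ u v → Rel N q δ v u)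
    (htrans : ∀ u v w : L, N (u - 1) < ρ → N (v - 1) < ρ → N (w - 1) < ρ →
      Rel N q δ u v → Rel N q δ v w → Rel N q δ u w)
    (hLNL : LNL N q δ) (B : K)
    (hex : ∀ η : K, 0 < η → ∃ η₁ : K, 0 < η₁ ∧ ∃ g₀ : L, ∀ g : L, N (g - g₀) ≤ η₁ →
      N g ≤ B ∧ N g⁻¹ ≤ B ∧ N (g ^ q - 1) ≤ η ∧ ¬ Rel N q δ (g ^ q) 1) :
    ∀ m : ℕ, ∀ ε : K, 0 < ε → ∃ η : K, 0 < η ∧ ∀ r : Fin m → L, (∀ l, N (r l) ≤ η) →
      ∃ e : L, N e ≤ ε ∧ ¬ Rel N q δ (1 + e) 1 ∧ ∀ l, Rel N q δ (1 + r l * e) 1 := by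
  intro m ε hε
  have hC := h.C_pos
  obtain ⟨B', hB'⟩ := h.pow_bound B q
  obtain ⟨ρ₁, hρ₁, h1⟩ := h.mul_near (ρ / 2) (by positivity)
  obtain ⟨ρ₂, hρ₂, h2⟩ := h.mul_small (C + 1) (ρ / 2) (by positivity)
  obtain ⟨ρ₃, hρ₃, h3⟩ := h.inv_small 1 one_pos
  obtain ⟨ρ₄, hρ₄, h4⟩ := h.mul_small (C * (|B| + C) * (C + 1)) ε hε
  set ρX : K := min (min ρ₁ (ρ / 2)) (min ρ₂ (min ρ₃ ρ₄)) with hρX
  have hρX0 : 0 < ρX := by
    refine lt_min (lt_min hρ₁ (by positivity)) (lt_min hρ₂ (lt_min hρ₃ hρ₄))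
  have hρX1 : ρX ≤ ρ₁ := le_trans (min_le_left _ _) (min_le_left _ _)
  have hρX2 : ρX ≤ ρ / 2 := le_trans (min_le_left _ _) (min_le_right _ _)
  have hρX3 : ρX ≤ ρ₂ := le_trans (min_le_right _ _) (min_le_left _ _)
  have hρX4 : ρX ≤ ρ₃ := le_trans (min_le_right _ _) (le_trans (min_le_right _ _) (min_le_left _ _))
  have hρX5 : ρX ≤ ρ₄ :=
    le_trans (min_le_right _ _) (le_trans (min_le_right _ _) (min_le_right _ _))
  obtain ⟨ε₂, hε₂, h5⟩ := h.mul_small B' ρX hρX0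
  obtain ⟨η₂, hη₂, h6⟩ := hLNL (Fin q) (Option (Fin q × Fin m)) B' ε₂ hε₂
  obtain ⟨ηc, hηc, h7⟩ := h.mul_small B' η₂ hη₂
  obtain ⟨ηz, hηz, h8⟩ := h.inv_small ηc hηc
  obtain ⟨η₃, hη₃, h9⟩ := h.inv_small η₂ hη₂
  obtain ⟨η₁, hη₁, g₀, hg₀⟩ := hex (min η₃ ρ₁) (lt_min hη₃ hρ₁)
  set lam : L := g₀ - 1 with hlam
  obtain ⟨ηa, hηa, h10⟩ := h.mul_small (N lam) η₁ hη₁
  obtain ⟨ηb, hηb, h11⟩ := h.inv_small ηa hηa
  obtain ⟨ε₁, hε₁, h12⟩ := h.mul_small (N lam) ηb hηb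
  obtain ⟨η₄, hη₄, h13⟩ := hLNL Unit (Fin m) (N lam) ε₁ hε₁
  obtain ⟨ηr, hηr, h14⟩ := h.mul_small (B + C) (min ηz (min ρ₁ 1))
    (lt_min hηz (lt_min hρ₁ one_pos))
  refine ⟨min η₄ ηr, lt_min hη₄ hηr, ?_⟩
  intro r hr
  obtain ⟨Y, hY, hYr⟩ := h13 (fun _ => lam) r (fun _ => le_rfl)
    (fun l => le_trans (hr l) (min_le_left _ _))
  have hYr' : ∀ l, Rel N q δ (1 + lam * (Y + r l)) (1 + lam * Y) := fun l => hYr () l
  have hlY : N (1 + lam * Y - 1) ≤ ηb := by
    rw [add_sub_cancel_left]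
    exact h12 _ _ le_rfl hY
  obtain ⟨hlY0, hlY1⟩ := h11 _ hlY
  set g : L := 1 + lam * (1 + lam * Y)⁻¹ with hg
  have hgg₀ : N (g - g₀) ≤ η₁ := by
    have e1 : g - g₀ = lam * ((1 + lam * Y)⁻¹ - 1) := by
      rw [hg, hlam]
      ring
    rw [e1]
    exact h10 _ _ le_rfl hlY1
  obtain ⟨hgB, hgB', hgq, hgR⟩ := hg₀ g hgg₀
  have hgq1 : N (g ^ q - 1) ≤ η₃ := le_trans hgq (min_le_left _ _)
  have hgq2 : N (g ^ q - 1) ≤ ρ₁ := le_trans hgq (min_le_right _ _)
  obtain ⟨hw0, hw1⟩ := h9 _ hgq1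
  have hg0 : g ≠ 0 := by
    rintro h0
    apply hw0
    rw [h0]
    exact zero_pow (by omega)
  -- the elements z_l
  set z : Fin m → L := fun l => 1 + r l * (g - 1) with hz
  have hg1B : N (g - 1) ≤ B + C := by
    have := h.sub_le g 1
    have := h.norm_one
    linarith
  have hzN : ∀ l, N (z l - 1) ≤ min ηz (min ρ₁ 1) := by
    intro l
    rw [hz]
    simp only
    rw [add_sub_cancel_left, mul_comm]
    exact h14 _ _ hg1B (le_trans (hr l) (min_le_right _ _))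
  have hz0 : ∀ l, z l ≠ 0 ∧ N ((z l)⁻¹ - 1) ≤ ηc :=
    fun l => h8 _ (le_trans (hzN l) (min_le_left _ _))
  have hzρ : ∀ l, N (z l - 1) ≤ ρ₁ :=
    fun l => le_trans (hzN l) (le_trans (min_le_right _ _) (min_le_left _ _))
  have hz1 : ∀ l, N (z l) ≤ C + 1 := by
    intro l
    have h15 : N (z l - 1) ≤ 1 :=
      le_trans (hzN l) (le_trans (min_le_right _ _) (min_le_right _ _))
    have h16 := h.add_le (z l - 1) 1
    rw [sub_add_cancel] at h16
    have := h.norm_one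
    linarith
  have hzR : ∀ l, Rel N q δ (z l) 1 := by
    intro l
    have h15 := (hYr' l).mul_left (1 + lam * Y)⁻¹
    rw [inv_mul_cancel₀ hlY0] at h15
    have e1 : (1 + lam * Y)⁻¹ * (1 + lam * (Y + r l)) = z l := by
      rw [hz, hg]
      simp only
      field_simp
      ring
    rwa [e1] at h15
  -- second application
  obtain ⟨x, hxN, hxR⟩ := h6 (fun i => g ^ (i : ℕ))
    (fun o => match o with
      | none => (g ^ q)⁻¹ - 1
      | some p => (g⁻¹) ^ (p.1 : ℕ) * ((z p.2)⁻¹ - 1))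
    (fun i => hB' g hgB _ i.2.le)
    (fun o => by
      match o with
      | none => exact hw1
      | some p =>
        exact h7 _ _ (hB' g⁻¹ hgB' _ p.1.2.le) (hz0 p.2).2)
  have hX : ∀ i ≤ q, N (g ^ i * x) ≤ ρX := fun i hi => h5 _ _ (hB' g hgB i hi) hxN
  have hball : ∀ i ≤ q, N (1 + g ^ i * x - 1) < ρ := by
    intro i hi
    rw [add_sub_cancel_left]
    have := hX i hi
    linarith
  have hball' : ∀ i ≤ q, N (1 + g ^ i * x - 1) ≤ ρ₁ := by
    intro i hi
    rw [add_sub_cancel_left]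
    exact le_trans (hX i hi) hρX1
  have hne : ∀ i ≤ q, 1 + g ^ i * x ≠ 0 ∧ N ((1 + g ^ i * x)⁻¹ - 1) ≤ 1 := by
    intro i hi
    refine h3 _ ?_
    rw [add_sub_cancel_left]
    exact le_trans (hX i hi) hρX4
  -- some step is exotic
  have hstep : ∃ i < q, ¬ Rel N q δ (1 + g ^ (i + 1) * x) (1 + g ^ i * x) := by
    by_contra hcon
    push Not at hcon
    have hchain : ∀ i, 1 ≤ i → i ≤ q → Rel N q δ (1 + g ^ i * x) (1 + g ^ 0 * x) := by
      intro i hi
      induction i, hi using Nat.le_induction with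
      | base => intro hi'; exact hcon 0 (by omega)
      | succ i hi1 ih =>
        intro hi'
        exact htrans _ _ _ (hball _ hi') (hball _ (by omega)) (hball _ (by omega))
          (hcon i (by omega)) (ih (by omega))
    have h15 := hchain q hq le_rfl
    have h16 := (hxR ⟨0, by omega⟩ none).mul_left (g ^ q)
    simp only at h16
    have e1 : g ^ q * (1 + g ^ 0 * (x + ((g ^ q)⁻¹ - 1))) = 1 + g ^ q * x := by
      field_simp
      ring
    rw [e1] at h16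
    have hb : N (g ^ q * (1 + g ^ 0 * x) - 1) < ρ := by
      have := h1 _ _ hgq2 (hball' 0 (by omega))
      linarith
    have h17 := hsymm _ _ (hball q le_rfl) hb h16
    have h18 := htrans _ _ _ hb (hball q le_rfl) (hball 0 (by omega)) h17 h15
    have h19 := h18.mul_left (1 + g ^ 0 * x)⁻¹
    have h20 := (hne 0 (by omega)).1
    rw [inv_mul_cancel₀ h20, mul_comm (g ^ q), ← mul_assoc, inv_mul_cancel₀ h20, one_mul] at h19
    exact hgR h19
  obtain ⟨i, hi, hiR⟩ := hstep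
  set X : L := g ^ i * x with hXdef
  have hX0 : 1 + X ≠ 0 := (hne i hi.le).1
  have hX1 : N ((1 + X)⁻¹ - 1) ≤ 1 := (hne i hi.le).2
  have hXN : N X ≤ ρX := hX i hi.le
  refine ⟨(g - 1) * (1 + X)⁻¹ * X, ?_, ?_, ?_⟩
  · refine h4 _ _ ?_ (le_trans hXN hρX5)
    have h15 : N ((1 + X)⁻¹) ≤ C + 1 := by
      have h16 := h.add_le ((1 + X)⁻¹ - 1) 1
      rw [sub_add_cancel] at h16
      have := h.norm_one
      linarith
    have h16 : N (g - 1) ≤ |B| + C := by
      have := le_abs_self B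
      linarith
    refine le_trans (h.mul_le _ _) ?_
    have := h.nonneg (g - 1)
    have := h.nonneg ((1 + X)⁻¹)
    gcongr
  · intro hR
    apply hiR
    have h15 := hR.mul_left (1 + X)
    rw [mul_one] at h15
    have e1 : (1 + X) * (1 + (g - 1) * (1 + X)⁻¹ * X) = 1 + g ^ (i + 1) * x := by
      have e2 : g ^ (i + 1) * x = g * X := by
        rw [hXdef, pow_succ]
        ring
      rw [e2]
      field_simp
      ring
    rwa [e1] at h15
  · intro l
    have h15 := (hxR ⟨i, hi⟩ (some (⟨i, hi⟩, l))).mul_left (z l)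
    simp only at h15
    have e1 : z l * (1 + g ^ i * (x + (g⁻¹) ^ i * ((z l)⁻¹ - 1))) = 1 + z l * X := by
      have h16 : z l ≠ 0 := (hz0 l).1
      have e2 : g ^ i * (x + (g⁻¹) ^ i * ((z l)⁻¹ - 1)) = X + ((z l)⁻¹ - 1) := by
        rw [mul_add, ← mul_assoc, ← mul_pow, mul_inv_cancel₀ hg0, one_pow, one_mul]
      rw [e2]
      field_simp
      ring
    rw [e1] at h15
    have h16 : Rel N q δ (z l * (1 + X)) (1 + X) := by
      have := (hzR l).mul_left (1 + X)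
      rwa [mul_one, mul_comm] at this
    have hb1 : N (1 + z l * X - 1) < ρ := by
      rw [add_sub_cancel_left]
      have := h2 _ _ (hz1 l) (le_trans hXN hρX3)
      linarith
    have hb2 : N (z l * (1 + X) - 1) < ρ := by
      have := h1 _ _ (hzρ l) (hball' i hi.le)
      linarith
    have h17 := htrans _ _ _ hb1 hb2 (hball i hi.le) h15 h16
    have h18 := h17.mul_left (1 + X)⁻¹
    rw [inv_mul_cancel₀ hX0] at h18
    have e3 : (1 + X)⁻¹ * (1 + z l * X) = 1 + r l * ((g - 1) * (1 + X)⁻¹ * X) := by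
      rw [hz]
      simp only
      field_simp
      ring
    rwa [e3] at h18

end Pool.Agent.SNIP
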