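import Mathlib
import Pool.Agent.SNIP.Def
import Pool.Agent.SNIP.Rel
import Pool.Agent.SNIP.Norm
import Pool.Agent.SNIP.Key

set_option autoImplicit false

namespace Pool.Agent.SNIP

/-- statement of the endgame -/
def EndProp {K L : Type} [Field K] [LinearOrder K] [IsStrictOrderedRing K] [Field L]
    [Algebra K L] (N : L → K) (q : ℕ) : Prop :=
  ∀ (δ ρ : K), 0 < δ → 0 < ρ →
    (∀ u v, N (u - 1) < ρ → N (v - 1) < ρ → Rel N q δ u v → Rel N q δ v u) →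
    (∀ u v w, N (u - 1) < ρ → N (v - 1) < ρ → N (w - 1) < ρ → Rel N q δ u v → Rel N q δ v w →
      Rel N q δ u w) →
    ∀ W : Finset L, (∀ w ∈ W, N (w - 1) < ρ) → (∀ u, N (u - 1) < ρ → ∃ w ∈ W, Rel N q δ u w) →
    (∀ h : ℕ, ∀ ε : K, 0 < ε → ∃ η : K, 0 < η ∧ ∀ r : Fin h → L, (∀ l, N (r l) ≤ η) →
      ∃ e : L, N e ≤ ε ∧ ¬ Rel N q δ (1 + e) 1 ∧ ∀ l, Rel N q δ (1 + r l * e) 1) →
    (∃ d, NoShatter (PFam N q δ) d) → False

theorem core_of {K L : Type} [Field K] [LinearOrder K] [IsStrictOrderedRing K] [Field L]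
    [Algebra K L] (hLN : LNProp) (N : L → K) (C : K) (hN : IsN N C) (q : ℕ) (hq : 1 ≤ q)
    (hend : EndProp N q)
    (hex : EXq N q) (hfin : FINq N q)
    (hvc : ∀ δ : K, 0 < δ → ∃ d, NoShatter (PFam N q δ) d) : False := by
  obtain ⟨δ', hδ', h1⟩ := hN.rel_pkg q hq
  obtain ⟨δ₀, hδ₀, B, hB, hex⟩ := hex
  set δ : K := min δ' δ₀ with hδ
  have hδ1 : 0 < δ := lt_min hδ' hδ₀
  obtain ⟨ρ₀, hρ₀, hsymm, htrans⟩ := h1 δ hδ1 (min_le_left _ _)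
  obtain ⟨ρ₁, hρ₁, h2⟩ := hN.inv_small 1 one_pos
  obtain ⟨ρ, hρ, hρle, W, hW, hWfin⟩ := hfin δ hδ1 (min ρ₀ ρ₁) (lt_min hρ₀ hρ₁)
  have hρρ₀ : ρ ≤ ρ₀ := le_trans hρle (min_le_left _ _)
  have hρρ₁ : ρ ≤ ρ₁ := le_trans hρle (min_le_right _ _)
  have hsymm' : ∀ u v : L, N (u - 1) < ρ → N (v - 1) < ρ → Rel N q δ u v → Rel N q δ v u :=
    fun u v hu hv => hsymm u v (lt_of_lt_of_le hu hρρ₀) (lt_of_lt_of_le hv hρρ₀)
  have htrans' : ∀ u v w : L, N (u - 1) < ρ → N (v - 1) < ρ → N (w - 1) < ρ →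
      Rel N q δ u v → Rel N q δ v w → Rel N q δ u w :=
    fun u v w hu hv hw => htrans u v w (lt_of_lt_of_le hu hρρ₀) (lt_of_lt_of_le hv hρρ₀)
      (lt_of_lt_of_le hw hρρ₀)
  have hρ0 : ∀ u : L, N (u - 1) < ρ → u ≠ 0 :=
    fun u hu => (h2 u (le_trans hu.le hρρ₁)).1
  have hfin' : ∀ u : L, N (u - 1) < ρ → ∃ w ∈ W, Rel N q δ u w := by
    intro u hu
    obtain ⟨w, hw, y, hy, huw⟩ := hWfin u hu
    exact ⟨w, hw, y, hy, huw⟩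
  obtain ⟨d, hd⟩ := hvc δ hδ1
  have hLNL : LNL N q δ := lnL hLN hN q δ ρ hρ hρ0 hsymm' htrans' W hW hfin' d hd
  refine hend δ ρ hδ1 hρ hsymm' htrans' W hW hfin' ?_ ⟨d, hd⟩
  refine key_step hN q hq δ ρ hρ hsymm' htrans' hLNL B ?_
  intro η hη
  refine ⟨min δ₀ (η / B), lt_min hδ₀ (by positivity), ?_⟩
  obtain ⟨g₀, hg₀⟩ := hex (min δ₀ (η / B)) (lt_min hδ₀ (by positivity)) (min_le_left _ _)
  refine ⟨g₀, ?_⟩
  intro g hg
  obtain ⟨a1, a2, a3, a4⟩ := hg₀ g hg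
  refine ⟨a1, a2, ?_, ?_⟩
  · refine le_trans a3 ?_
    calc B * min δ₀ (η / B) ≤ B * (η / B) := by
          have := min_le_right δ₀ (η / B)
          gcongr
      _ = η := by field_simp
  · rintro ⟨y, hy, hyg⟩
    refine a4 y (lt_of_lt_of_le hy (min_le_right _ _)) ?_
    rw [hyg, one_mul]

end Pool.Agent.SNIP
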