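import Mathlib
import Pool.Agent.SNIP.Def

/-!
The bound of Sauer and Shelah for traces, in the language of `NoShatter`.
-/

set_option autoImplicit false

namespace Pool.Agent.SNIP

open Finset

theorem sum_choose_le_pow (n d : ℕ) : ∑ k ∈ Finset.Iic d, n.choose k ≤ (n + 1) ^ d := by
  have h1 : ∀ k ∈ Finset.range (d + 1), n.choose k ≤ n ^ k * 1 ^ (d - k) * d.choose k := by
    intro k hk
    have hk' : k ≤ d := Nat.lt_succ_iff.mp (Finset.mem_range.mp hk)
    have h2 : 1 ≤ d.choose k := Nat.succ_le_of_lt (Nat.choose_pos hk')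
    have h3 : n.choose k ≤ n ^ k := Nat.choose_le_pow n k
    rw [one_pow, mul_one]
    calc n.choose k ≤ n ^ k := h3
      _ = n ^ k * 1 := (mul_one _).symm
      _ ≤ n ^ k * d.choose k := Nat.mul_le_mul_left _ h2
  have h4 : Finset.Iic d = Finset.range (d + 1) := by
    ext k; simp [Nat.lt_succ_iff]
  rw [h4, add_pow]
  exact_mod_cast Finset.sum_le_sum h1

/-- A family of finsets without shattered set of size `d + 1` has at most `(n + 1) ^ d` members. -/
theorem card_le_of_not_shatters {ι : Type*} [Fintype ι] [DecidableEq ι] (A : Finset (Finset ι))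
    (d : ℕ) (hA : ∀ t : Finset ι, t.card = d + 1 → ¬ A.Shatters t) :
    A.card ≤ (Fintype.card ι + 1) ^ d := by
  have hvc : A.vcDim ≤ d := by
    rw [Finset.vcDim]
    apply Finset.sup_le
    intro s hs
    rw [Finset.mem_shatterer] at hs
    by_contra hlt
    push Not at hlt
    obtain ⟨t, hts, htc⟩ := Finset.exists_subset_card_eq (Nat.succ_le_of_lt hlt)
    exact hA t htc (hs.mono_right hts)
  calc A.card ≤ A.shatterer.card := Finset.card_le_card_shatterer A
    _ ≤ ∑ k ∈ Finset.Iic A.vcDim, (Fintype.card ι).choose k :=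
        Finset.card_shatterer_le_sum_vcDim
    _ ≤ ∑ k ∈ Finset.Iic d, (Fintype.card ι).choose k :=
        Finset.sum_le_sum_of_subset (Finset.Iic_subset_Iic.mpr hvc)
    _ ≤ (Fintype.card ι + 1) ^ d := sum_choose_le_pow _ d

/-- Traces on a finite family of points, as finsets of indices: the general form. -/
theorem trace_card_finset {Y X : Type*} {F : Y → Set X} {d : ℕ} (h : NoShatter F (d + 1))
    {ι : Type*} [Fintype ι] [DecidableEq ι] (x : ι → X) (A : Finset (Finset ι))
    (hA : ∀ a ∈ A, ∃ y : Y, ∀ i, i ∈ a ↔ x i ∈ F y) :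
    A.card ≤ (Fintype.card ι + 1) ^ d := by
  classical
  apply card_le_of_not_shatters
  intro t htc ht
  let e : Fin (d + 1) ≃ t := (t.equivFinOfCardEq htc).symm
  apply h (fun j => x (e j))
  intro u
  obtain ⟨z, hz, hz2⟩ := ht (t := (Finset.univ.filter (fun j => j ∈ u)).map
    (e.toEmbedding.trans (Function.Embedding.subtype _))) (by
      intro i hi
      rw [Finset.mem_map] at hi
      obtain ⟨j, _, rfl⟩ := hi
      exact (e j).2)
  obtain ⟨y, hy⟩ := hA z hz
  refine ⟨y, fun j => ?_⟩
  have h5 : (e j : ι) ∈ t ∩ z ↔ (e j : ι) ∈ (Finset.univ.filter (fun j => j ∈ u)).map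
      (e.toEmbedding.trans (Function.Embedding.subtype _)) := by
    rw [hz2]
  have h7 : (e j : ι) ∈ (Finset.univ.filter (fun j => j ∈ u)).map
      (e.toEmbedding.trans (Function.Embedding.subtype _)) ↔ j ∈ u := by
    rw [Finset.mem_map]
    constructor
    · rintro ⟨j', hj', hjj⟩
      have : j' = j := e.injective (Subtype.ext hjj)
      subst this
      simpa using hj'
    · intro hj
      exact ⟨j, by simpa using hj, rfl⟩
  rw [h7, Finset.mem_inter] at h5
  rw [← h5, ← hy]
  simp

/-- The set of traces has at most `(n + 1) ^ d` members. -/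
theorem trace_ncard {Y X : Type*} {F : Y → Set X} {d : ℕ} (h : NoShatter F (d + 1))
    {ι : Type*} [Fintype ι] (x : ι → X) :
    (Set.range (fun y : Y => {i : ι | x i ∈ F y})).ncard ≤ (Fintype.card ι + 1) ^ d := by
  classical
  set R : Set (Set ι) := Set.range (fun y : Y => {i : ι | x i ∈ F y}) with hR
  have hfin : R.Finite := Set.toFinite R
  let A : Finset (Finset ι) := hfin.toFinset.image (fun s => s.toFinset)
  have hA : A.card = R.ncard := by
    rw [Set.ncard_eq_toFinset_card R hfin]
    apply Finset.card_image_of_injective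
    intro s t hst
    simpa using hst
  rw [← hA]
  apply trace_card_finset h x
  intro a ha
  simp only [A, Finset.mem_image, Set.Finite.mem_toFinset] at ha
  obtain ⟨s, hs, rfl⟩ := ha
  obtain ⟨y, rfl⟩ := hs
  exact ⟨y, fun i => by simp⟩

/-- Injective form: `N` members of the family with distinct traces on `n` points. -/
theorem trace_card {Y X : Type*} {F : Y → Set X} {d : ℕ} (h : NoShatter F (d + 1))
    {ι : Type*} [Fintype ι] (x : ι → X) {κ : Type*} [Fintype κ] (y : κ → Y)
    (hinj : ∀ a b : κ, (∀ j, x j ∈ F (y a) ↔ x j ∈ F (y b)) → a = b) :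
    Fintype.card κ ≤ (Fintype.card ι + 1) ^ d := by
  classical
  let T : κ → Finset ι := fun a => Finset.univ.filter (fun j => x j ∈ F (y a))
  have hT : Function.Injective T := by
    intro a b hab
    apply hinj
    intro j
    have := congrArg (fun s => j ∈ s) hab
    simpa [T] using this
  have hcard : (Finset.univ.image T).card = Fintype.card κ := by
    rw [Finset.card_image_of_injective _ hT, Finset.card_univ]
  rw [← hcard]
  apply trace_card_finset h x
  intro a ha
  obtain ⟨k, _, rfl⟩ := Finset.mem_image.1 ha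
  exact ⟨y k, fun i => by simp [T]⟩

end Pool.Agent.SNIP
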