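import Mathlib
import Pool.Agent.SNIP.Def
import Pool.Agent.SNIP.Rel
import Pool.Agent.SNIP.Trace

/-!
The final contradiction: step C3 of the proof.
-/

set_option autoImplicit false

namespace Pool.Agent.SNIP

namespace Endg

section

variable {K L : Type} [Field K] [LinearOrder K] [IsStrictOrderedRing K] [Field L] [Algebra K L]
  {N : L → K} {C : K}

lemma norm_zero' (hN : IsN N C) : N 0 = 0 := by
  have h := hN.smul_eq 0 0
  rwa [zero_smul, abs_zero, zero_mul] at h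

lemma norm_neg' (hN : IsN N C) (x : L) : N (-x) = N x := by
  have h := hN.smul_eq (-1) x
  rwa [neg_smul, one_smul, abs_neg, abs_one, one_mul] at h

lemma one_le_C_norm_one (hN : IsN N C) : 1 ≤ C * N 1 := by
  have h0 : N (1 : L) ≠ 0 := fun h => one_ne_zero (hN.eq_zero 1 h)
  have hpos : 0 < N (1 : L) := lt_of_le_of_ne (hN.nonneg 1) (Ne.symm h0)
  have h1 := hN.mul_le 1 1
  rw [mul_one] at h1
  by_contra hlt
  push Not at hlt
  have h2 : C * N 1 * N 1 < 1 * N 1 := mul_lt_mul_of_pos_right hlt hpos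
  linarith

lemma one_add_ne (hN : IsN N C) {x : L} (hx : C * N x ≤ 1 / 2) : 1 + x ≠ 0 := by
  intro h
  have h1 : x = -1 := by linear_combination h
  rw [h1, norm_neg' hN] at hx
  have h2 := one_le_C_norm_one hN
  linarith

lemma inv_bound (hN : IsN N C) {x : L} (hx : C * N x ≤ 1 / 2) : N (1 + x)⁻¹ ≤ 2 * C := by
  have hne := one_add_ne hN hx
  have h1 : (1 + x)⁻¹ = 1 + -(x * (1 + x)⁻¹) := by
    field_simp
    ring
  have h2 : N (1 + x)⁻¹ ≤ N 1 + N (-(x * (1 + x)⁻¹)) := by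
    conv_lhs => rw [h1]
    exact hN.add_le _ _
  rw [norm_neg' hN] at h2
  have h3 := hN.mul_le x (1 + x)⁻¹
  have h4 := hN.norm_one
  have h5 := hN.nonneg (1 + x)⁻¹
  have h6 : C * N x * N (1 + x)⁻¹ ≤ 1 / 2 * N (1 + x)⁻¹ := mul_le_mul_of_nonneg_right hx h5
  linarith

lemma rel_refl (hN : IsN N C) (q : ℕ) {δ : K} (hδ : 0 < δ) (u : L) : Rel N q δ u u :=
  ⟨1, by rw [sub_self, norm_zero' hN]; exact hδ, by rw [one_pow, mul_one]⟩

lemma rel_mul_left {q : ℕ} {δ : K} {u v : L} (a : L) (h : Rel N q δ u v) :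
    Rel N q δ (a * u) (a * v) := by
  obtain ⟨y, hy, rfl⟩ := h
  exact ⟨y, hy, by ring⟩

lemma rel_of_mul_left {q : ℕ} {δ : K} {u v a : L} (ha : a ≠ 0)
    (h : Rel N q δ (a * u) (a * v)) : Rel N q δ u v := by
  obtain ⟨y, hy, h2⟩ := h
  exact ⟨y, hy, mul_left_cancel₀ ha (by rw [h2]; ring)⟩

lemma prod_le (hN : IsN N C) {x t : L} {a b : K} (hx : N x ≤ a) (ht : N t ≤ b) :
    N (x * t) ≤ C * a * b := by
  have hC : 0 ≤ C := le_trans zero_le_one hN.one_le
  have ha : 0 ≤ a := le_trans (hN.nonneg x) hx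
  calc N (x * t) ≤ C * N x * N t := hN.mul_le x t
    _ ≤ C * a * N t := by gcongr; exact hN.nonneg t
    _ ≤ C * a * b := by gcongr

/-- One stage of the construction. -/
lemma step (hN : IsN N C) (q : ℕ) (δ : K)
    (hP : ∀ h : ℕ, ∀ ε : K, 0 < ε → ∃ η : K, 0 < η ∧ ∀ r : Fin h → L, (∀ l, N (r l) ≤ η) →
      ∃ e : L, N e ≤ ε ∧ ¬ Rel N q δ (1 + e) 1 ∧ ∀ l, Rel N q δ (1 + r l * e) 1)
    (h : ℕ) (τ τ₀ : K) (hτ : 0 < τ) (hτ₀ : 0 < τ₀) (hC : C * C * τ₀ ≤ 1 / 2)
    (v : L) (hv : v ≠ 0) (hv1 : N v ≤ 1) :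
    ∃ σ : K, 0 < σ ∧ σ ≤ 1 ∧ ∀ u : Fin h → L, (∀ l, N (u l) ≤ σ) → ∀ t : L, N t ≤ τ₀ →
      ∃ t' : L, N (t' - t) ≤ τ ∧ ¬ Rel N q δ (1 + v * t') (1 + v * t) ∧
        ∀ l, Rel N q δ (1 + u l * t') (1 + u l * t) := by
  have hC1 : 1 ≤ C := hN.one_le
  have hC0 : 0 < C := lt_of_lt_of_le zero_lt_one hC1
  have hA : 0 ≤ N v⁻¹ := hN.nonneg _
  obtain ⟨A, hAdef⟩ : ∃ A, A = N v⁻¹ := ⟨_, rfl⟩
  rw [← hAdef] at hA
  obtain ⟨ε, hεdef⟩ : ∃ ε, ε = τ / (C * (A + τ₀) + 1) := ⟨_, rfl⟩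
  have hden : 0 < C * (A + τ₀) + 1 := by positivity
  have hε : 0 < ε := by rw [hεdef]; positivity
  have hετ : C * ε * (A + τ₀) ≤ τ := by
    have h1 : ε * (C * (A + τ₀) + 1) = τ := by
      rw [hεdef]; field_simp
    nlinarith
  obtain ⟨η, hη, hη2⟩ := hP h ε hε
  obtain ⟨M, hMdef⟩ : ∃ M, M = C + C * 1 * τ₀ := ⟨_, rfl⟩
  have hM : 0 < M := by rw [hMdef]; positivity
  obtain ⟨D, hDdef⟩ : ∃ D, D = C * (C * (C * M * A) * (2 * C)) := ⟨_, rfl⟩
  have hD : 0 ≤ D := by rw [hDdef]; positivity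
  refine ⟨min 1 (η / (D + 1)), lt_min zero_lt_one (by positivity), min_le_left _ _, ?_⟩
  intro u hu t ht
  -- bounds
  have hut1 : ∀ l, N (u l) ≤ 1 := fun l => (hu l).trans (min_le_left _ _)
  have hut2 : ∀ l, N (u l) ≤ η / (D + 1) := fun l => (hu l).trans (min_le_right _ _)
  have hsmall : ∀ x : L, N x ≤ 1 → C * N (x * t) ≤ 1 / 2 := by
    intro x hx
    have h1 := prod_le hN hx ht
    have h2 : C * N (x * t) ≤ C * (C * 1 * τ₀) := mul_le_mul_of_nonneg_left h1 hC0.le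
    calc C * N (x * t) ≤ C * (C * 1 * τ₀) := h2
      _ = C * C * τ₀ := by ring
      _ ≤ 1 / 2 := hC
  have hvt : 1 + v * t ≠ 0 := one_add_ne hN (hsmall v hv1)
  have hutne : ∀ l, 1 + u l * t ≠ 0 := fun l => one_add_ne hN (hsmall (u l) (hut1 l))
  have hMv : N (1 + v * t) ≤ M := by
    have h1 := hN.add_le 1 (v * t)
    have h2 := prod_le hN hv1 ht
    have h3 := hN.norm_one
    rw [hMdef]
    linarith
  obtain ⟨e, he1, he2, he3⟩ := hη2
    (fun l => u l * ((1 + v * t) * v⁻¹ * (1 + u l * t)⁻¹)) (by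
      intro l
      have h1 : N ((1 + v * t) * v⁻¹) ≤ C * M * A := prod_le hN hMv (le_of_eq hAdef.symm)
      have h2 : N ((1 + v * t) * v⁻¹ * (1 + u l * t)⁻¹) ≤ C * (C * M * A) * (2 * C) :=
        prod_le hN h1 (inv_bound hN (hsmall (u l) (hut1 l)))
      have h3 : N (u l * ((1 + v * t) * v⁻¹ * (1 + u l * t)⁻¹)) ≤
          C * (η / (D + 1)) * (C * (C * M * A) * (2 * C)) := prod_le hN (hut2 l) h2
      have h4 : C * (η / (D + 1)) * (C * (C * M * A) * (2 * C)) = η / (D + 1) * D := by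
        rw [hDdef]; ring
      have h5 : η / (D + 1) * D ≤ η := by
        have h6 : η / (D + 1) * (D + 1) = η := by field_simp
        have h7 : 0 ≤ η / (D + 1) := by positivity
        nlinarith
      linarith)
  refine ⟨t + e * (v⁻¹ + t), ?_, ?_, ?_⟩
  · rw [add_sub_cancel_left]
    have h1 : N (v⁻¹ + t) ≤ A + τ₀ := by
      have := hN.add_le v⁻¹ t
      rw [← hAdef] at this
      linarith
    exact (prod_le hN he1 h1).trans hετ
  · intro hr
    apply he2
    have h1 : 1 + v * (t + e * (v⁻¹ + t)) = (1 + v * t) * (1 + e) := by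
      field_simp
      ring
    have h2 : 1 + v * t = (1 + v * t) * 1 := (mul_one _).symm
    rw [h1] at hr
    rw [h2] at hr
    have hr' : Rel N q δ ((1 + v * t) * (1 + e)) ((1 + v * t) * 1) := by
      simpa only [mul_one] using hr
    exact rel_of_mul_left hvt hr'
  · intro l
    have h1 : 1 + u l * (t + e * (v⁻¹ + t)) =
        (1 + u l * t) * (1 + u l * ((1 + v * t) * v⁻¹ * (1 + u l * t)⁻¹) * e) := by
      have h2 := hutne l
      have h3 : (1 + u l * t) * (1 + u l * ((1 + v * t) * v⁻¹ * (1 + u l * t)⁻¹) * e) =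
          (1 + u l * t) + u l * ((1 + v * t) * v⁻¹) * e * ((1 + u l * t) * (1 + u l * t)⁻¹) := by
        ring
      rw [h3, mul_inv_cancel₀ h2, mul_one, add_mul, one_mul, mul_comm v t, mul_assoc t v v⁻¹,
        mul_inv_cancel₀ hv]
      ring
    have h4 := rel_mul_left (1 + u l * t) (he3 l)
    rw [mul_one] at h4
    rw [h1]
    exact h4

/-- The tree of elements. -/
lemma tree (hN : IsN N C) (q : ℕ) (δ ρ : K) (hδ : 0 < δ)
    (hsymm : ∀ u v, N (u - 1) < ρ → N (v - 1) < ρ → Rel N q δ u v → Rel N q δ v u)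
    (htrans : ∀ u v w, N (u - 1) < ρ → N (v - 1) < ρ → N (w - 1) < ρ →
      Rel N q δ u v → Rel N q δ v w → Rel N q δ u w)
    (hP : ∀ h : ℕ, ∀ ε : K, 0 < ε → ∃ η : K, 0 < η ∧ ∀ r : Fin h → L, (∀ l, N (r l) ≤ η) →
      ∃ e : L, N e ≤ ε ∧ ¬ Rel N q δ (1 + e) 1 ∧ ∀ l, Rel N q δ (1 + r l * e) 1)
    (τ₀ : K) (hτ₀ : 0 < τ₀) (hC : C * C * τ₀ ≤ 1 / 2) (hρ : C * τ₀ < ρ) (n : ℕ) :
    ∀ (h : ℕ) (τ : K), 0 < τ → ∃ v : Fin n → L, (∀ k, N (v k) ≤ 1) ∧ ∃ σ : K, 0 < σ ∧ σ ≤ 1 ∧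
      ∀ u : Fin h → L, (∀ l, N (u l) ≤ σ) → ∀ t₀ : L, N t₀ + τ ≤ τ₀ →
        ∃ T : (Fin n → Bool) → L, (∀ s, N (T s - t₀) ≤ τ) ∧
          (∀ s l, Rel N q δ (1 + u l * T s) (1 + u l * t₀)) ∧
          ∀ s s', s ≠ s' → ∃ k, ¬ Rel N q δ (1 + v k * T s) (1 + v k * T s') := by
  have hC1 : 1 ≤ C := hN.one_le
  have hC0 : 0 < C := lt_of_lt_of_le zero_lt_one hC1
  have ball : ∀ x t : L, N x ≤ 1 → N t ≤ τ₀ → N ((1 + x * t) - 1) < ρ := by
    intro x t hx ht
    rw [add_sub_cancel_left]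
    have h1 := prod_le hN hx ht
    rw [mul_one] at h1
    exact lt_of_le_of_lt h1 hρ
  have near : ∀ (t₀ t : L) (τ : K), N t₀ + τ ≤ τ₀ → N (t - t₀) ≤ τ → N t ≤ τ₀ := by
    intro t₀ t τ h1 h2
    have h3 := hN.add_le (t - t₀) t₀
    rw [sub_add_cancel] at h3
    linarith
  induction n with
  | zero =>
    intro h τ hτ
    refine ⟨Fin.elim0, fun k => k.elim0, 1, zero_lt_one, le_rfl, ?_⟩
    intro u _ t₀ _
    refine ⟨fun _ => t₀, fun s => ?_, fun s l => rel_refl hN q hδ _, ?_⟩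
    · rw [sub_self, norm_zero' hN]; exact hτ.le
    · intro s s' hss
      exact absurd (Subsingleton.elim s s') hss
  | succ n ih =>
    intro h τ hτ
    obtain ⟨v, hv, σ₁, hσ₁, hσ₁', H₁⟩ := ih (h + 1) (τ / 2) (by positivity)
    -- the new test
    obtain ⟨v₀, hv₀, hv₀'⟩ : ∃ v₀ : L, v₀ ≠ 0 ∧ N v₀ ≤ σ₁ := by
      refine ⟨(σ₁ / C) • (1 : L), ?_, ?_⟩
      · exact smul_ne_zero (by positivity) one_ne_zero
      · rw [hN.smul_eq, abs_of_pos (by positivity)]
        calc σ₁ / C * N 1 ≤ σ₁ / C * C := by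
              gcongr
              exact hN.norm_one
          _ = σ₁ := by field_simp
    have hv₀1 : N v₀ ≤ 1 := hv₀'.trans hσ₁'
    obtain ⟨σ₂, hσ₂, hσ₂', H₂⟩ := step hN q δ hP h (τ / 2) τ₀ (by positivity) hτ₀ hC v₀ hv₀ hv₀1
    refine ⟨Fin.cons v₀ v, ?_, min σ₁ σ₂, lt_min hσ₁ hσ₂, (min_le_left _ _).trans hσ₁', ?_⟩
    · intro k
      refine Fin.cases ?_ (fun k => ?_) k
      · rw [Fin.cons_zero]; exact hv₀1
      · rw [Fin.cons_succ]; exact hv k
    intro u hu t₀ ht₀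
    have hu1 : ∀ l, N (u l) ≤ 1 := fun l => (hu l).trans ((min_le_left _ _).trans hσ₁')
    have ht₀' : N t₀ ≤ τ₀ := by linarith
    obtain ⟨t₁, ht₁, hr₁, hr₂⟩ := H₂ u (fun l => (hu l).trans (min_le_right _ _)) t₀ ht₀'
    have hu' : ∀ l, N ((Fin.cons v₀ u : Fin (h + 1) → L) l) ≤ σ₁ := by
      intro l
      refine Fin.cases ?_ (fun l => ?_) l
      · rw [Fin.cons_zero]; exact hv₀'
      · rw [Fin.cons_succ]; exact (hu l).trans (min_le_left _ _)
    have hN₁ : N t₁ + τ / 2 ≤ τ₀ := by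
      have h3 := hN.add_le (t₁ - t₀) t₀
      rw [sub_add_cancel] at h3
      linarith
    have ht₁' : N t₁ ≤ τ₀ := by linarith
    obtain ⟨T₀, hT₀, hR₀, hD₀⟩ := H₁ (Fin.cons v₀ u) hu' t₀ (by linarith)
    obtain ⟨T₁, hT₁, hR₁, hD₁⟩ := H₁ (Fin.cons v₀ u) hu' t₁ hN₁
    have hNT₀ : ∀ s, N (T₀ s) ≤ τ₀ := fun s => near t₀ (T₀ s) (τ / 2) (by linarith) (hT₀ s)
    have hNT₁ : ∀ s, N (T₁ s) ≤ τ₀ := fun s => near t₁ (T₁ s) (τ / 2) hN₁ (hT₁ s)
    have hA : ∀ s, Rel N q δ (1 + v₀ * T₀ s) (1 + v₀ * t₀) := fun s => by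
      have := hR₀ s 0
      rwa [Fin.cons_zero] at this
    have hB : ∀ s, Rel N q δ (1 + v₀ * T₁ s) (1 + v₀ * t₁) := fun s => by
      have := hR₁ s 0
      rwa [Fin.cons_zero] at this
    have key : ∀ s s', ¬ Rel N q δ (1 + v₀ * T₁ s) (1 + v₀ * T₀ s') := by
      intro s s' hr
      apply hr₁
      have b1 := ball v₀ t₁ hv₀1 ht₁'
      have b0 := ball v₀ t₀ hv₀1 ht₀'
      have c1 := ball v₀ (T₁ s) hv₀1 (hNT₁ s)
      have c0 := ball v₀ (T₀ s') hv₀1 (hNT₀ s')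
      exact htrans _ _ _ b1 c0 b0 (htrans _ _ _ b1 c1 c0 (hsymm _ _ c1 b1 (hB s)) hr) (hA s')
    refine ⟨fun s => if s 0 = true then T₁ (Fin.tail s) else T₀ (Fin.tail s), ?_, ?_, ?_⟩
    · intro s
      by_cases hs : s 0 = true
      · simp only [hs, if_true]
        have h3 := hN.add_le (T₁ (Fin.tail s) - t₁) (t₁ - t₀)
        rw [sub_add_sub_cancel] at h3
        have h4 := hT₁ (Fin.tail s)
        linarith
      · simp only [hs]
        have h4 := hT₀ (Fin.tail s)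
        simp only [Bool.false_eq_true, if_false]
        linarith
    · intro s l
      by_cases hs : s 0 = true
      · simp only [hs, if_true]
        have h1 := hR₁ (Fin.tail s) l.succ
        rw [Fin.cons_succ] at h1
        exact htrans _ _ _ (ball _ _ (hu1 l) (hNT₁ _)) (ball _ _ (hu1 l) ht₁')
          (ball _ _ (hu1 l) ht₀') h1 (hr₂ l)
      · simp only [hs]
        simp only [Bool.false_eq_true, if_false]
        have h1 := hR₀ (Fin.tail s) l.succ
        rwa [Fin.cons_succ] at h1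
    · intro s s' hss
      by_cases hs : s 0 = true <;> by_cases hs' : s' 0 = true
      · have ht : Fin.tail s ≠ Fin.tail s' := by
          intro ht
          apply hss
          rw [← Fin.cons_self_tail s, ← Fin.cons_self_tail s', ht, hs, hs']
        obtain ⟨k, hk⟩ := hD₁ _ _ ht
        refine ⟨k.succ, ?_⟩
        rw [Fin.cons_succ]
        simp only [hs, hs', if_true]
        exact hk
      · refine ⟨0, ?_⟩
        rw [Fin.cons_zero]
        simp only [hs, hs', if_true]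
        simp only [Bool.false_eq_true, if_false]
        exact key _ _
      · refine ⟨0, ?_⟩
        rw [Fin.cons_zero]
        simp only [hs, hs', if_true]
        simp only [Bool.false_eq_true, if_false]
        intro hr
        exact key _ _ (hsymm _ _ (ball _ _ hv₀1 (hNT₀ _)) (ball _ _ hv₀1 (hNT₁ _)) hr)
      · have hs1 : s 0 = false := by simpa using hs
        have hs1' : s' 0 = false := by simpa using hs'
        have ht : Fin.tail s ≠ Fin.tail s' := by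
          intro ht
          apply hss
          rw [← Fin.cons_self_tail s, ← Fin.cons_self_tail s', ht, hs1, hs1']
        obtain ⟨k, hk⟩ := hD₀ _ _ ht
        refine ⟨k.succ, ?_⟩
        rw [Fin.cons_succ]
        simp only [hs1, hs1', Bool.false_eq_true, if_false]
        exact hk

end

/-- An exponential beats a polynomial. -/
lemma exists_pow_lt (m : ℕ) : ∃ n : ℕ, (n + 1) ^ m < 2 ^ n := by
  have h := tendsto_pow_const_div_const_pow_of_one_lt m (r := (2 : ℝ)) (by norm_num)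
  have h2 : ∀ᶠ n : ℕ in Filter.atTop, ((n : ℝ) ^ m / 2 ^ n) < 1 / 2 :=
    h.eventually (gt_mem_nhds (by norm_num))
  obtain ⟨n, hn⟩ := (h2.and (Filter.eventually_ge_atTop 1)).exists
  obtain ⟨hn, hn1⟩ := hn
  obtain ⟨k, rfl⟩ := Nat.exists_eq_add_of_le' hn1
  refine ⟨k, ?_⟩
  rw [div_lt_iff₀ (by positivity)] at hn
  have h3 : (1 / 2 : ℝ) * 2 ^ (k + 1) = 2 ^ k := by rw [pow_succ]; ring
  rw [h3] at hn
  exact_mod_cast hn

end Endg

open Endg in
theorem endgame {K L : Type} [Field K] [LinearOrder K] [IsStrictOrderedRing K] [Field L]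
    [Algebra K L] (N : L → K) (C : K) (hN : IsN N C) (q : ℕ) (δ ρ : K) (hδ : 0 < δ) (hρ : 0 < ρ)
    (hsymm : ∀ u v, N (u - 1) < ρ → N (v - 1) < ρ → Rel N q δ u v → Rel N q δ v u)
    (htrans : ∀ u v w, N (u - 1) < ρ → N (v - 1) < ρ → N (w - 1) < ρ →
      Rel N q δ u v → Rel N q δ v w → Rel N q δ u w)
    (W : Finset L) (hW : ∀ w ∈ W, N (w - 1) < ρ)
    (hfin : ∀ u, N (u - 1) < ρ → ∃ w ∈ W, Rel N q δ u w)
    (hP : ∀ h : ℕ, ∀ ε : K, 0 < ε → ∃ η : K, 0 < η ∧ ∀ r : Fin h → L, (∀ l, N (r l) ≤ η) →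
      ∃ e : L, N e ≤ ε ∧ ¬ Rel N q δ (1 + e) 1 ∧ ∀ l, Rel N q δ (1 + r l * e) 1)
    (hvc : ∃ d, NoShatter (PFam N q δ) d) : False := by
  classical
  obtain ⟨d, hd⟩ := hvc
  rcases d with _ | d
  · exact hd Fin.elim0 (fun I => ⟨(0, 0), fun i => i.elim0⟩)
  have hC1 : 1 ≤ C := hN.one_le
  have hC0 : 0 < C := lt_of_lt_of_le zero_lt_one hC1
  -- the radius
  obtain ⟨τ₀, hτ₀, hτ₁, hτ₂⟩ : ∃ τ₀ : K, 0 < τ₀ ∧ C * C * τ₀ ≤ 1 / 2 ∧ C * τ₀ < ρ := by
    refine ⟨min (1 / (2 * (C * C))) (ρ / (2 * C)), lt_min (by positivity) (by positivity), ?_, ?_⟩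
    · calc C * C * min (1 / (2 * (C * C))) (ρ / (2 * C)) ≤ C * C * (1 / (2 * (C * C))) := by
            gcongr
            exact min_le_left _ _
        _ = 1 / 2 := by field_simp
    · calc C * min (1 / (2 * (C * C))) (ρ / (2 * C)) ≤ C * (ρ / (2 * C)) := by
            gcongr
            exact min_le_right _ _
        _ = ρ / 2 := by field_simp
        _ < ρ := half_lt_self hρ
  obtain ⟨n, hn⟩ := exists_pow_lt (d * W.card)
  obtain ⟨v, hv, σ, hσ, hσ', H⟩ := tree hN q δ ρ hδ hsymm htrans hP τ₀ hτ₀ hτ₁ hτ₂ n 0 τ₀ hτ₀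
  obtain ⟨T, hT, -, hD⟩ := H Fin.elim0 (fun l => l.elim0) 0 (by rw [norm_zero' hN, zero_add])
  have hT' : ∀ s, N (T s) ≤ τ₀ := fun s => by
    have := hT s
    rwa [sub_zero] at this
  have ball : ∀ k s, N ((1 + v k * T s) - 1) < ρ := by
    intro k s
    rw [add_sub_cancel_left]
    have h1 := prod_le hN (hv k) (hT' s)
    rw [mul_one] at h1
    exact lt_of_le_of_lt h1 hτ₂
  have hne : ∀ k s, 1 + v k * T s ≠ 0 := by
    intro k s
    apply one_add_ne hN
    have h1 := prod_le hN (hv k) (hT' s)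
    calc C * N (v k * T s) ≤ C * (C * 1 * τ₀) := mul_le_mul_of_nonneg_left h1 hC0.le
      _ = C * C * τ₀ := by ring
      _ ≤ 1 / 2 := hτ₁
  -- the traces
  let tr : L → (Fin n → Bool) → Finset (Fin n) := fun w s =>
    if w = 0 then ∅ else Finset.univ.filter (fun k => Rel N q δ (1 + v k * T s) w)
  have hcard : ∀ w, (Finset.univ.image (tr w)).card ≤ (n + 1) ^ d := by
    intro w
    by_cases hw : w = 0
    · have h1 : Finset.univ.image (tr w) ⊆ {∅} := by
        intro a ha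
        obtain ⟨s, _, rfl⟩ := Finset.mem_image.1 ha
        simp only [tr, if_pos hw, Finset.mem_singleton]
      calc (Finset.univ.image (tr w)).card ≤ ({∅} : Finset (Finset (Fin n))).card :=
            Finset.card_le_card h1
        _ = 1 := Finset.card_singleton _
        _ ≤ (n + 1) ^ d := Nat.one_le_pow _ _ (Nat.succ_pos n)
    · have h1 := trace_card_finset hd v (Finset.univ.image (tr w)) (by
        intro a ha
        obtain ⟨s, _, rfl⟩ := Finset.mem_image.1 ha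
        refine ⟨(w⁻¹, w⁻¹ * T s), fun k => ?_⟩
        simp only [tr, if_neg hw, Finset.mem_filter, Finset.mem_univ, true_and, PFam,
          Set.mem_setOf_eq, Rel]
        constructor
        · rintro ⟨y, hy, h2⟩
          refine ⟨y, hy, ?_⟩
          have h3 : w⁻¹ + w⁻¹ * T s * v k = w⁻¹ * (1 + v k * T s) := by ring
          rw [h3, h2, inv_mul_cancel_left₀ hw]
        · rintro ⟨y, hy, h2⟩
          refine ⟨y, hy, ?_⟩
          rw [← h2, mul_add, mul_inv_cancel₀ hw, ← mul_assoc, ← mul_assoc, mul_inv_cancel₀ hw,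
            one_mul, mul_comm (T s)])
      rwa [Fintype.card_fin] at h1
  -- the vector of traces determines the index
  have hinj : Function.Injective (fun (s : Fin n → Bool) (w : W) => tr w.1 s) := by
    intro s s' hss
    by_contra hne'
    obtain ⟨k, hk⟩ := hD s s' hne'
    apply hk
    obtain ⟨w, hw, hr⟩ := hfin (1 + v k * T s) (ball k s)
    have hw0 : w ≠ 0 := by
      rintro rfl
      obtain ⟨y, -, h2⟩ := hr
      rw [zero_mul] at h2
      exact hne k s h2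
    have h3 : tr w s = tr w s' := congrFun hss ⟨w, hw⟩
    have h4 : k ∈ tr w s := by
      simp only [tr, if_neg hw0, Finset.mem_filter, Finset.mem_univ, true_and]
      exact hr
    rw [h3] at h4
    simp only [tr, if_neg hw0, Finset.mem_filter, Finset.mem_univ, true_and] at h4
    exact htrans _ _ _ (ball k s) (hW w hw) (ball k s') hr (hsymm _ _ (ball k s') (hW w hw) h4)
  -- counting
  have hfinal : 2 ^ n ≤ ((n + 1) ^ d) ^ W.card := by
    have h1 : (Finset.univ.image (fun (s : Fin n → Bool) (w : W) => tr w.1 s)) ⊆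
        Fintype.piFinset (fun w : W => Finset.univ.image (tr w.1)) := by
      intro f hf
      obtain ⟨s, _, rfl⟩ := Finset.mem_image.1 hf
      rw [Fintype.mem_piFinset]
      intro w
      exact Finset.mem_image_of_mem _ (Finset.mem_univ _)
    calc 2 ^ n = (Finset.univ : Finset (Fin n → Bool)).card := by simp
      _ = (Finset.univ.image (fun (s : Fin n → Bool) (w : W) => tr w.1 s)).card :=
          (Finset.card_image_of_injective _ hinj).symm
      _ ≤ (Fintype.piFinset (fun w : W => Finset.univ.image (tr w.1))).card :=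
          Finset.card_le_card h1
      _ = ∏ w : W, (Finset.univ.image (tr w.1)).card := Fintype.card_piFinset _
      _ ≤ ∏ _w : W, (n + 1) ^ d := Finset.prod_le_prod' (fun w _ => hcard w.1)
      _ = ((n + 1) ^ d) ^ W.card := by simp
  rw [← pow_mul] at hfinal
  omega

end Pool.Agent.SNIP
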