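import Mathlib
import Pool.Agent.SNIP.Def

/-!
The packing lemma for families of sets which shatter no `d` points.
-/

set_option autoImplicit false

namespace Pool.Agent.SNIP

/-- The number of subsets with at most `d` elements. -/
theorem card_small_subsets (s d : ℕ) (A : Finset (Finset (Fin s)))
    (h : ∀ T ∈ A, T.card ≤ d) : A.card ≤ (s + 1) ^ d := by
  classical
  let g : (Fin d → Option (Fin s)) → Finset (Fin s) :=
    fun f => Finset.univ.filter (fun t => ∃ a, f a = some t)
  have hsub : A ⊆ (Finset.univ : Finset (Fin d → Option (Fin s))).image g := by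
    intro T hT
    have hc := h T hT
    rw [Finset.mem_image]
    refine ⟨fun a => if h : a.val < T.card then some (T.equivFin.symm ⟨a.val, h⟩ : T).val
      else none, Finset.mem_univ _, ?_⟩
    ext t
    simp only [g, Finset.mem_filter, Finset.mem_univ, true_and]
    constructor
    · rintro ⟨a, ha⟩
      split_ifs at ha with h1
      have := Option.some.inj ha
      rw [← this]
      exact (T.equivFin.symm ⟨a.val, h1⟩ : T).2
    · intro ht
      refine ⟨⟨(T.equivFin ⟨t, ht⟩).val, lt_of_lt_of_le (T.equivFin ⟨t, ht⟩).2 hc⟩, ?_⟩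
      rw [dif_pos (T.equivFin ⟨t, ht⟩).2]
      simp
  calc A.card ≤ _ := Finset.card_le_card hsub
    _ ≤ (Finset.univ : Finset (Fin d → Option (Fin s))).card := Finset.card_image_le
    _ = (s + 1) ^ d := by simp

/-- Sauer-Shelah in the form we need. -/
theorem sauer {s d : ℕ} (A : Finset (Finset (Fin s)))
    (h : ∀ T : Finset (Fin s), T.card = d → ¬ A.Shatters T) : A.card ≤ (s + 1) ^ d := by
  classical
  refine le_trans (Finset.card_le_card_shatterer A) (card_small_subsets s d _ ?_)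
  intro T hT
  by_contra hlt
  push Not at hlt
  obtain ⟨T', hT', hc⟩ := Finset.exists_subset_card_eq hlt.le
  exact h T' hc ((Finset.mem_shatterer.1 hT).mono_right hT')

/-- The numerical choice. -/
theorem exists_sample_size (d : ℕ) (r : ℝ) (hr0 : 0 < r) (hr1 : r < 1) :
    ∃ s : ℕ, (((s + 1) ^ d + 1 : ℕ) : ℝ) ^ 2 * r ^ s < 1 := by
  have ht := tendsto_pow_const_mul_const_pow_of_abs_lt_one (2 * d)
    (r := r) (by rw [abs_of_pos hr0]; exact hr1)
  have hev := (ht.eventually (gt_mem_nhds (show (0 : ℝ) < r / 4 by positivity)))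
  obtain ⟨n, hn, hn1⟩ := (hev.and (Filter.eventually_ge_atTop 1)).exists
  obtain ⟨s, rfl⟩ : ∃ s, n = s + 1 := ⟨n - 1, by omega⟩
  refine ⟨s, ?_⟩
  have h1 : (((s + 1) ^ d + 1 : ℕ) : ℝ) ≤ 2 * ((s : ℝ) + 1) ^ d := by
    push_cast
    have : (1 : ℝ) ≤ ((s : ℝ) + 1) ^ d := one_le_pow₀ (by linarith [Nat.cast_nonneg (α := ℝ) s])
    linarith
  have h2 : (((s + 1) ^ d + 1 : ℕ) : ℝ) ^ 2 ≤ 4 * (((s + 1 : ℕ) : ℝ)) ^ (2 * d) := by
    have h0 : (0 : ℝ) ≤ (((s + 1) ^ d + 1 : ℕ) : ℝ) := Nat.cast_nonneg _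
    calc (((s + 1) ^ d + 1 : ℕ) : ℝ) ^ 2 ≤ (2 * ((s : ℝ) + 1) ^ d) ^ 2 := by gcongr
      _ = 4 * (((s + 1 : ℕ) : ℝ)) ^ (2 * d) := by
        rw [mul_pow, ← pow_mul, mul_comm d 2]
        push_cast
        ring
  have hrs : 0 < r ^ s := by positivity
  have h3 : (((s + 1 : ℕ) : ℝ)) ^ (2 * d) * r ^ s * r < r / 4 := by
    have := hn
    rw [pow_succ] at this
    linarith
  have h4 : (((s + 1 : ℕ) : ℝ)) ^ (2 * d) * r ^ s < 1 / 4 := by
    by_contra hge
    push Not at hge
    have := mul_le_mul_of_nonneg_right hge hr0.le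
    linarith
  calc (((s + 1) ^ d + 1 : ℕ) : ℝ) ^ 2 * r ^ s
      ≤ 4 * (((s + 1 : ℕ) : ℝ)) ^ (2 * d) * r ^ s := by gcongr
    _ < 1 := by linarith

/-- A sample which separates all pairs. -/
theorem exists_sample {Ω : Type} [Fintype Ω] [DecidableEq Ω] [Nonempty Ω] {I : Type} [Fintype I]
    [DecidableEq I] (F : I → Finset Ω) (ε : ℝ) (hε1 : ε ≤ 1) (s : ℕ)
    (hs : ((Fintype.card I : ℕ) : ℝ) ^ 2 * (1 - ε) ^ s < 1)
    (hF : ∀ i j, i ≠ j → ε * Fintype.card Ω ≤ ((symmDiff (F i) (F j)).card : ℝ)) :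
    ∃ ω : Fin s → Ω, ∀ i j, i ≠ j → ∃ t, ω t ∈ symmDiff (F i) (F j) := by
  classical
  by_contra hcon
  push Not at hcon
  -- the bad samples cover everything
  let Bad : I × I → Finset (Fin s → Ω) := fun p =>
    Fintype.piFinset (fun _ : Fin s => (symmDiff (F p.1) (F p.2))ᶜ)
  let S : Finset (I × I) := Finset.univ.filter (fun p => p.1 ≠ p.2)
  have hcov : (Finset.univ : Finset (Fin s → Ω)) ⊆ S.biUnion Bad := by
    intro ω _
    obtain ⟨i, j, hij, h⟩ := hcon ω
    rw [Finset.mem_biUnion]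
    refine ⟨(i, j), by simp [S, hij], ?_⟩
    simp only [Bad, Fintype.mem_piFinset, Finset.mem_compl]
    exact h
  have hcard : ∀ p ∈ S, ((Bad p).card : ℝ) ≤ ((1 - ε) * Fintype.card Ω) ^ s := by
    intro p hp
    have hne : p.1 ≠ p.2 := by simpa [S] using hp
    have h1 : (Bad p).card = ((symmDiff (F p.1) (F p.2))ᶜ).card ^ s := by
      simp only [Bad, Fintype.card_piFinset_const]
    rw [h1]
    push_cast
    have h2 : (((symmDiff (F p.1) (F p.2))ᶜ).card : ℝ) ≤ (1 - ε) * Fintype.card Ω := by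
      have h3 := Finset.card_compl_add_card (symmDiff (F p.1) (F p.2))
      have h4 : (((symmDiff (F p.1) (F p.2))ᶜ).card : ℝ) + ((symmDiff (F p.1) (F p.2)).card : ℝ)
          = Fintype.card Ω := by exact_mod_cast h3
      have := hF p.1 p.2 hne
      linarith
    gcongr
  have hΩ : (0 : ℝ) < Fintype.card Ω := by exact_mod_cast Fintype.card_pos
  have h5 : ((Fintype.card Ω : ℝ)) ^ s ≤
      ((Fintype.card I : ℕ) : ℝ) ^ 2 * ((1 - ε) * Fintype.card Ω) ^ s := by
    have h6 : ((Finset.univ : Finset (Fin s → Ω)).card : ℝ) ≤ ∑ p ∈ S, ((Bad p).card : ℝ) := by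
      have := (Finset.card_le_card hcov).trans Finset.card_biUnion_le
      exact_mod_cast this
    have h7 : ((Finset.univ : Finset (Fin s → Ω)).card : ℝ) = (Fintype.card Ω : ℝ) ^ s := by
      simp
    have h8 : ∑ p ∈ S, ((Bad p).card : ℝ) ≤ (S.card : ℝ) * ((1 - ε) * Fintype.card Ω) ^ s := by
      have := Finset.sum_le_card_nsmul S (fun p => ((Bad p).card : ℝ)) _ hcard
      simpa [nsmul_eq_mul] using this
    have h9 : (S.card : ℝ) ≤ ((Fintype.card I : ℕ) : ℝ) ^ 2 := by
      have : S.card ≤ (Finset.univ : Finset (I × I)).card := Finset.card_le_card (by simp [S])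
      have h10 : (Finset.univ : Finset (I × I)).card = (Fintype.card I) ^ 2 := by
        rw [Finset.card_univ, Fintype.card_prod, sq]
      rw [h10] at this
      exact_mod_cast this
    have h11 : (0 : ℝ) ≤ ((1 - ε) * Fintype.card Ω) ^ s := by
      have : (0 : ℝ) ≤ 1 - ε := by linarith
      positivity
    calc ((Fintype.card Ω : ℝ)) ^ s = _ := h7.symm
      _ ≤ _ := h6
      _ ≤ _ := h8
      _ ≤ _ := by gcongr
  rw [mul_pow, ← mul_assoc] at h5
  have h12 : (0 : ℝ) < (Fintype.card Ω : ℝ) ^ s := by positivity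
  have := mul_lt_mul_of_pos_right hs h12
  linarith

/-- packing lemma -/
theorem packing (d : ℕ) (ε : ℝ) (hε : 0 < ε) : ∃ M : ℕ, ∀ (Ω : Type) [Fintype Ω] [DecidableEq Ω]
    [Nonempty Ω] (F : Fin (M + 1) → Finset Ω),
    (NoShatter (fun i => (F i : Set Ω)) d) →
    ∃ i j, i ≠ j ∧ ((symmDiff (F i) (F j)).card : ℝ) < ε * Fintype.card Ω := by
  classical
  obtain ⟨s, hs⟩ := exists_sample_size d (1 - min ε (1 / 2))
    (by have := min_le_right ε (1 / 2 : ℝ); linarith)
    (by have : (0 : ℝ) < min ε (1 / 2) := lt_min hε (by norm_num)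
        linarith)
  refine ⟨(s + 1) ^ d, ?_⟩
  intro Ω _ _ _ F hNS
  by_contra hcon
  push Not at hcon
  have hΩ : (0 : ℝ) < Fintype.card Ω := by exact_mod_cast Fintype.card_pos
  obtain ⟨ω, hω⟩ := exists_sample F (min ε (1 / 2)) (by
      have := min_le_right ε (1 / 2 : ℝ); linarith) s (by simpa using hs) (by
      intro i j hij
      refine le_trans ?_ (hcon i j hij)
      gcongr
      exact min_le_left _ _)
  -- traces
  let tr : Fin ((s + 1) ^ d + 1) → Finset (Fin s) := fun i => Finset.univ.filter (fun t => ω t ∈ F i)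
  have hinj : Function.Injective tr := by
    intro i j hij
    by_contra hne
    obtain ⟨t, ht⟩ := hω i j hne
    have h1 : t ∈ tr i ↔ t ∈ tr j := by rw [hij]
    simp only [tr, Finset.mem_filter, Finset.mem_univ, true_and] at h1
    rw [Finset.mem_symmDiff] at ht
    tauto
  have hcard : (Finset.univ.image tr).card = (s + 1) ^ d + 1 := by
    rw [Finset.card_image_of_injective _ hinj]
    simp
  have hle := sauer (d := d) (Finset.univ.image tr) (by
    intro T hT hsh
    -- shattering contradicts the hypothesis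
    let e : Fin d ≃ T := (Fin.castOrderIso hT.symm).toEquiv.trans T.equivFin.symm
    apply hNS (fun a => ω (e a).val)
    intro I
    obtain ⟨u, hu, hut⟩ := hsh (t := T.filter (fun t => ∃ a, a ∈ I ∧ (e a).val = t))
      (Finset.filter_subset _ _)
    obtain ⟨i, -, rfl⟩ := Finset.mem_image.1 hu
    refine ⟨i, ?_⟩
    intro a
    have h1 : (e a).val ∈ T ∩ tr i ↔ (e a).val ∈ T.filter (fun t => ∃ a, a ∈ I ∧ (e a).val = t) := by
      rw [hut]
    simp only [tr, Finset.mem_inter, Finset.mem_filter, Finset.mem_univ, true_and,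
      Finset.coe_mem] at h1
    rw [Finset.mem_coe, h1]
    constructor
    · rintro ⟨b, hb, hba⟩
      have : b = a := e.injective (Subtype.ext hba)
      rwa [← this]
    · intro ha
      exact ⟨a, ha, rfl⟩)
  omega

end Pool.Agent.SNIP
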