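import Mathlib
import Pool.Agent.SNIP.P4a

/-!
The lemma on finitely many subsets of a rational vector space whose affine images form a family
which shatters no `d` points.
-/

set_option autoImplicit false

namespace Pool.Agent.SNIP

open Finset

theorem noShatter_pull {Y X Y' X' : Type*} {F : Y → Set X} {d : ℕ} (h : NoShatter F d)
    (f : Y' → Y) (g : X' → X) : NoShatter (fun y' => {x' : X' | g x' ∈ F (f y')}) d := by
  intro x hx
  apply h (fun i => g (x i))
  intro I
  obtain ⟨y', hy'⟩ := hx I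
  exact ⟨f y', hy'⟩

/-- finite nets -/
theorem exists_net {d : ℕ} {ε : ℝ} (hε : 0 < ε) {M : ℕ}
    (hM : ∀ (Ω : Type) [Fintype Ω] [DecidableEq Ω] [Nonempty Ω] (F : Fin (M + 1) → Finset Ω),
      (NoShatter (fun i => (F i : Set Ω)) d) →
      ∃ i j, i ≠ j ∧ ((symmDiff (F i) (F j)).card : ℝ) < ε * Fintype.card Ω)
    {Ω : Type} [Fintype Ω] [DecidableEq Ω] [Nonempty Ω] {ι : Type} [Fintype ι] [Nonempty ι]
    (A : ι → Finset Ω) (hA : NoShatter (fun i => (A i : Set Ω)) d) :
    ∃ e : Fin (M + 1) → ι, ∀ i, ∃ s,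
      ((symmDiff (A i) (A (e s))).card : ℝ) < ε * Fintype.card Ω := by
  classical
  let Sep : Finset ι → Prop := fun T => ∀ a ∈ T, ∀ b ∈ T, a ≠ b →
    ε * Fintype.card Ω ≤ ((symmDiff (A a) (A b)).card : ℝ)
  obtain ⟨T, hT, hmax⟩ := exists_max_image ((univ : Finset (Finset ι)).filter Sep) card
    ⟨∅, by simp [Sep]⟩
  rw [mem_filter] at hT
  have hsep := hT.2
  have hcard : T.card ≤ M := by
    by_contra hlt
    have hlt' : M + 1 ≤ T.card := by omega
    let f : Fin (M + 1) → ι := fun s => (T.equivFin.symm (Fin.castLE hlt' s) : T).1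
    have hf : Function.Injective f := by
      intro a b hab
      have h1 := Subtype.ext hab
      have h2 := T.equivFin.symm.injective h1
      exact Fin.castLE_injective hlt' h2
    have hfT : ∀ s, f s ∈ T := fun s => (T.equivFin.symm (Fin.castLE hlt' s) : T).2
    obtain ⟨i, j, hij, hlt2⟩ := hM Ω (fun s => A (f s)) (noShatter_pull hA f id)
    have := hsep (f i) (hfT i) (f j) (hfT j) (fun h => hij (hf h))
    linarith
  have hW : (0 : ℝ) < ε * Fintype.card Ω := by
    have : (0 : ℝ) < Fintype.card Ω := by exact_mod_cast Fintype.card_pos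
    positivity
  have hclose : ∀ i, ∃ t ∈ T, ((symmDiff (A i) (A t)).card : ℝ) < ε * Fintype.card Ω := by
    intro i
    by_contra hno
    push Not at hno
    have hi : i ∉ T := by
      intro hi
      have := hno i hi
      rw [symmDiff_self] at this
      simp at this
      linarith
    have h1 := hmax (insert i T) (by
      rw [mem_filter]
      refine ⟨mem_univ _, ?_⟩
      intro a ha b hb hab
      rw [mem_insert] at ha hb
      rcases ha with rfl | ha
      · rcases hb with rfl | hb
        · exact absurd rfl hab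
        · exact hno b hb
      · rcases hb with rfl | hb
        · rw [symmDiff_comm]
          exact hno a ha
        · exact hsep a ha b hb hab)
    rw [card_insert_of_notMem hi] at h1
    omega
  obtain ⟨i₀⟩ := (inferInstance : Nonempty ι)
  refine ⟨fun s => if h : s.val < T.card then (T.equivFin.symm ⟨s.val, h⟩ : T).1 else i₀,
    fun i => ?_⟩
  obtain ⟨t, ht, hlt⟩ := hclose i
  refine ⟨⟨(T.equivFin ⟨t, ht⟩).val, lt_of_lt_of_le (T.equivFin ⟨t, ht⟩).2 (by omega)⟩, ?_⟩
  have key : (if h : (T.equivFin ⟨t, ht⟩).val < T.card then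
      (T.equivFin.symm ⟨(T.equivFin ⟨t, ht⟩).val, h⟩ : T).1 else i₀) = t := by
    rw [dif_pos (T.equivFin ⟨t, ht⟩).2]
    simp
  change ((symmDiff (A i) (A (if h : (T.equivFin ⟨t, ht⟩).val < T.card then
      (T.equivFin.symm ⟨(T.equivFin ⟨t, ht⟩).val, h⟩ : T).1 else i₀))).card : ℝ) < _
  rw [key]
  exact hlt

section Count

variable {m R : ℕ}

theorem card_slice (l : Fin m) (T : Finset (Fin R)) :
    ((univ : Finset (Fin m → Fin R)).filter fun n => n l ∈ T).card * R ≤ T.card * R ^ m := by
  classical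
  have h := card_le_card_of_injOn
    (s := ((univ : Finset (Fin m → Fin R)).filter fun n => n l ∈ T) ×ˢ (univ : Finset (Fin R)))
    (t := T ×ˢ (univ : Finset (Fin m → Fin R)))
    (fun p => (p.1 l, Function.update p.1 l p.2)) (by
      intro p hp
      rw [mem_coe, mem_product, mem_filter] at hp
      rw [mem_coe, mem_product]
      exact ⟨hp.1.2, mem_univ _⟩) (by
      intro p _ q _ hpq
      simp only [Prod.mk.injEq] at hpq
      obtain ⟨h1, h2⟩ := hpq
      have h3 : p.2 = q.2 := by
        have := congrFun h2 l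
        simpa using this
      refine Prod.ext ?_ h3
      funext j
      by_cases hj : j = l
      · rw [hj]
        exact h1
      · have := congrFun h2 j
        rwa [Function.update_of_ne hj, Function.update_of_ne hj] at this)
  simpa [card_product] using h

theorem card_lt_slice (a : ℕ) :
    ((univ : Finset (Fin R)).filter fun x => x.val < a).card ≤ a := by
  have h := card_le_card_of_injOn
    (s := (univ : Finset (Fin R)).filter fun x => x.val < a) (t := range a)
    (fun x => x.val) (by
      intro x hx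
      rw [mem_coe, mem_filter] at hx
      rw [mem_coe, mem_range]
      exact hx.2) (fun x _ y _ h => Fin.ext h)
  rwa [card_range] at h

theorem card_ge_slice (a : ℕ) :
    ((univ : Finset (Fin R)).filter fun x => R ≤ x.val + a).card ≤ a := by
  have h := card_le_card_of_injOn
    (s := (univ : Finset (Fin R)).filter fun x => R ≤ x.val + a) (t := range a)
    (fun x => R - 1 - x.val) (by
      intro x hx
      rw [mem_coe, mem_filter] at hx
      rw [mem_coe, mem_range]
      have := x.2
      have := hx.2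
      change R - 1 - x.val < a
      omega) (fun x _ y _ h => Fin.ext (by
        have := x.2
        have := y.2
        have h' : R - 1 - x.val = R - 1 - y.val := h
        omega))
  rwa [card_range] at h

variable {V : Type} [AddCommGroup V] [Module ℚ V]

/-- the points of the box -/
def yv (c : Fin m → V) (n : Fin m → Fin R) : V := ∑ j, ((n j : ℕ) : ℚ) • c j

theorem yv_update (c : Fin m → V) (n : Fin m → Fin R) (l : Fin m) (v : Fin R) :
    yv c (Function.update n l v) = yv c n + (((v : ℕ) : ℚ) - ((n l : ℕ) : ℚ)) • c l := by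
  classical
  rw [yv, yv, ← add_sum_erase univ _ (mem_univ l), ← add_sum_erase univ (fun j => _) (mem_univ l)]
  have h : ∑ j ∈ univ.erase l, (((Function.update n l v) j : ℕ) : ℚ) • c j =
      ∑ j ∈ univ.erase l, ((n j : ℕ) : ℚ) • c j := by
    refine sum_congr rfl fun j hj => ?_
    rw [Function.update_of_ne (ne_of_mem_erase hj)]
  rw [h, Function.update_self, sub_smul]
  abel

open Classical in
/-- number of points of the box with a given property -/
noncomputable def cnt (R : ℕ) (c : Fin m → V) (P : V → Prop) : ℕ :=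
  ((univ : Finset (Fin m → Fin R)).filter fun n => P (yv c n)).card

theorem cnt_eq (c : Fin m → V) (P : V → Prop)
    [DecidablePred fun n : Fin m → Fin R => P (yv c n)] :
    cnt R c P = ((univ : Finset (Fin m → Fin R)).filter fun n => P (yv c n)).card := by
  rw [cnt]
  congr

theorem cnt_shift_down (c : Fin m → V) (l : Fin m) (a : ℕ) (P : V → Prop) :
    cnt R c P * R ≤ cnt R c (fun v => P (v + (a : ℚ) • c l)) * R + a * R ^ m := by
  classical
  have h1 : cnt R c P ≤
      ((univ : Finset (Fin m → Fin R)).filter fun n => n l ∈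
        (univ : Finset (Fin R)).filter fun x => x.val < a).card +
      cnt R c (fun v => P (v + (a : ℚ) • c l)) := by
    have hsub : ((univ : Finset (Fin m → Fin R)).filter fun n => P (yv c n)) ⊆
        ((univ : Finset (Fin m → Fin R)).filter fun n => n l ∈
          (univ : Finset (Fin R)).filter fun x => x.val < a) ∪
        ((univ : Finset (Fin m → Fin R)).filter fun n => P (yv c n) ∧ a ≤ (n l).val) := by
      intro n hn
      rw [mem_filter] at hn
      rw [mem_union, mem_filter, mem_filter, mem_filter]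
      by_cases h : (n l).val < a
      · exact Or.inl ⟨mem_univ _, mem_univ _, h⟩
      · exact Or.inr ⟨mem_univ _, hn.2, by omega⟩
    refine ((card_le_card hsub).trans (card_union_le _ _)).trans (Nat.add_le_add_left ?_ _)
    rw [cnt]
    refine card_le_card_of_injOn (fun n => Function.update n l
      ⟨(n l).val - a, lt_of_le_of_lt (Nat.sub_le _ _) (n l).2⟩) ?_ ?_
    · intro n hn
      rw [mem_coe, mem_filter] at hn
      rw [mem_coe, mem_filter]
      refine ⟨mem_univ _, ?_⟩
      rw [yv_update, add_assoc, ← add_smul]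
      have h2 : ((((n l).val - a : ℕ) : ℚ) - ((n l : ℕ) : ℚ)) + (a : ℚ) = 0 := by
        rw [Nat.cast_sub hn.2.2]
        ring
      change P (yv c n + (((((n l).val - a : ℕ) : ℚ) - ((n l : ℕ) : ℚ)) + (a : ℚ)) • c l)
      rw [h2, zero_smul, add_zero]
      exact hn.2.1
    · intro n hn n' hn' h
      rw [mem_coe, mem_filter] at hn hn'
      funext j
      by_cases hj : j = l
      · subst hj
        have h3 := congrFun h j
        simp only [Function.update_self] at h3
        have h4 := congrArg Fin.val h3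
        simp only at h4
        exact Fin.ext (by omega)
      · have h3 := congrFun h j
        simp only at h3
        rwa [Function.update_of_ne hj, Function.update_of_ne hj] at h3
  have h2 := card_slice l ((univ : Finset (Fin R)).filter fun x => x.val < a)
  have h3 := card_lt_slice (R := R) a
  have h4 := Nat.mul_le_mul_right (R ^ m) h3
  nlinarith [Nat.mul_le_mul_right R h1]

theorem cnt_shift_up (c : Fin m → V) (l : Fin m) (a : ℕ) (P : V → Prop) :
    cnt R c (fun v => P (v + (a : ℚ) • c l)) * R ≤ cnt R c P * R + a * R ^ m := by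
  classical
  have h1 : cnt R c (fun v => P (v + (a : ℚ) • c l)) ≤
      ((univ : Finset (Fin m → Fin R)).filter fun n => n l ∈
        (univ : Finset (Fin R)).filter fun x => R ≤ x.val + a).card +
      cnt R c P := by
    have hsub : ((univ : Finset (Fin m → Fin R)).filter fun n => P (yv c n + (a : ℚ) • c l)) ⊆
        ((univ : Finset (Fin m → Fin R)).filter fun n => n l ∈
          (univ : Finset (Fin R)).filter fun x => R ≤ x.val + a) ∪
        ((univ : Finset (Fin m → Fin R)).filter fun n => P (yv c n + (a : ℚ) • c l) ∧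
          (n l).val + a < R) := by
      intro n hn
      rw [mem_filter] at hn
      rw [mem_union, mem_filter, mem_filter, mem_filter]
      by_cases h : R ≤ (n l).val + a
      · exact Or.inl ⟨mem_univ _, mem_univ _, h⟩
      · exact Or.inr ⟨mem_univ _, hn.2, by omega⟩
    refine ((card_le_card hsub).trans (card_union_le _ _)).trans (Nat.add_le_add_left ?_ _)
    rw [cnt]
    refine card_le_card_of_injOn (fun n => if h : (n l).val + a < R then Function.update n l
      ⟨(n l).val + a, h⟩ else n) ?_ ?_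
    · intro n hn
      rw [mem_coe, mem_filter] at hn
      rw [mem_coe, mem_filter]
      refine ⟨mem_univ _, ?_⟩
      simp only
      rw [dif_pos hn.2.2, yv_update]
      have h2 : ((((n l).val + a : ℕ) : ℚ) - ((n l : ℕ) : ℚ)) = (a : ℚ) := by
        push_cast
        ring
      change P (yv c n + ((((n l).val + a : ℕ) : ℚ) - ((n l : ℕ) : ℚ)) • c l)
      rw [h2]
      exact hn.2.1
    · intro n hn n' hn' h
      rw [mem_coe, mem_filter] at hn hn'
      simp only at h
      rw [dif_pos hn.2.2, dif_pos hn'.2.2] at h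
      funext j
      by_cases hj : j = l
      · subst hj
        have h3 := congrFun h j
        simp only [Function.update_self] at h3
        have h4 := congrArg Fin.val h3
        simp only at h4
        exact Fin.ext (by omega)
      · have h3 := congrFun h j
        rwa [Function.update_of_ne hj, Function.update_of_ne hj] at h3
  have h2 := card_slice l ((univ : Finset (Fin R)).filter fun x => R ≤ x.val + a)
  have h3 := card_ge_slice (R := R) a
  have h4 := Nat.mul_le_mul_right (R ^ m) h3
  nlinarith [Nat.mul_le_mul_right R h1]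

theorem cnt_mono (c : Fin m → V) {P Q : V → Prop} (h : ∀ v, P v → Q v) :
    cnt R c P ≤ cnt R c Q := by
  classical
  rw [cnt, cnt]
  exact card_le_card (fun n hn => by
    rw [mem_filter] at hn ⊢
    exact ⟨hn.1, h _ hn.2⟩)

theorem cnt_or (c : Fin m → V) (P Q : V → Prop) :
    cnt R c (fun v => P v ∨ Q v) ≤ cnt R c P + cnt R c Q := by
  classical
  rw [cnt_eq, cnt_eq, cnt_eq]
  refine (card_le_card (fun n hn => ?_)).trans (card_union_le _ _)
  have hn' := (Finset.mem_filter.1 hn).2
  rw [mem_union, Finset.mem_filter, Finset.mem_filter]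
  rcases hn' with h | h
  · exact Or.inl ⟨mem_univ _, h⟩
  · exact Or.inr ⟨mem_univ _, h⟩

end Count

theorem ln_lemma (d m k : ℕ) : ∃ N : ℕ, ∀ (V : Type) [AddCommGroup V] [Module ℚ V]
    (E : Fin k → Set V),
    (∀ i, NoShatter (fun p : ℕ × V => {y : V | ((1 : ℚ) / ((p.1 : ℚ) + 1)) • (y - p.2) ∈ E i}) d) →
    ∀ c : Fin m → V, ∃ (g : ℕ) (n : Fin m → ℤ), 1 ≤ g ∧ g ≤ N ∧ (∀ l, |n l| ≤ (N : ℤ)) ∧
      ∀ (i : Fin k) (l : Fin m),
        ((∑ j, (((n j : ℚ) / (g : ℚ)) • c j)) ∈ E i ↔
          (∑ j, (((n j : ℚ) / (g : ℚ)) • c j)) + c l ∈ E i) := by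
  classical
  set ε : ℝ := 1 / (7 * ((k : ℝ) * m + 1)) with hεdef
  have hε : 0 < ε := by positivity
  obtain ⟨M, hM⟩ := packing d ε hε
  set G : ℕ := (M + 1) ^ (k * (M + 1) * m) with hG
  have hG1 : 1 ≤ G := Nat.one_le_pow _ _ (Nat.succ_pos M)
  obtain ⟨R, hR⟩ := exists_nat_gt ((G : ℝ) / ε)
  have hGR : (G : ℝ) < ε * R := by
    rw [div_lt_iff₀ hε] at hR
    linarith
  have hR0 : 0 < R := by
    rcases Nat.eq_zero_or_pos R with h | h
    · rw [h] at hGR
      have : (0 : ℝ) ≤ G := Nat.cast_nonneg _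
      simp at hGR
      linarith
    · exact h
  have hRr : (0 : ℝ) < R := by exact_mod_cast hR0
  refine ⟨max G R, ?_⟩
  intro V _ _ E hE c
  have : Nonempty (Fin R) := ⟨⟨0, hR0⟩⟩
  let S : Fin k → ℕ → V → Prop := fun i a v => ((1 : ℚ) / ((a : ℚ) + 1)) • v ∈ E i
  have hcard : (Fintype.card (Fin m → Fin R) : ℝ) = (R : ℝ) ^ m := by
    rw [Fintype.card_fun, Fintype.card_fin, Fintype.card_fin]
    push_cast
    ring
  -- shifting changes the counts by little
  have hdown : ∀ (l : Fin m) (a : ℕ), a ≤ G → ∀ P : V → Prop,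
      (cnt R c P : ℝ) < cnt R c (fun v => P (v + (a : ℚ) • c l)) + ε * (R : ℝ) ^ m := by
    intro l a ha P
    have h1 := cnt_shift_down (R := R) c l a P
    have h2 : (cnt R c P : ℝ) * R ≤ (cnt R c (fun v => P (v + (a : ℚ) • c l)) : ℝ) * R +
        (a : ℝ) * (R : ℝ) ^ m := by exact_mod_cast h1
    have h3 : (a : ℝ) < ε * R := lt_of_le_of_lt (by exact_mod_cast ha) hGR
    have h4 : (0 : ℝ) < (R : ℝ) ^ m := by positivity
    have h5 : (a : ℝ) * (R : ℝ) ^ m < ε * R * (R : ℝ) ^ m := mul_lt_mul_of_pos_right h3 h4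
    by_contra hc
    push Not at hc
    have h6 := mul_le_mul_of_nonneg_right hc hRr.le
    nlinarith
  have hup : ∀ (l : Fin m) (a : ℕ), a ≤ G → ∀ P : V → Prop,
      (cnt R c (fun v => P (v + (a : ℚ) • c l)) : ℝ) < cnt R c P + ε * (R : ℝ) ^ m := by
    intro l a ha P
    have h1 := cnt_shift_up (R := R) c l a P
    have h2 : (cnt R c (fun v => P (v + (a : ℚ) • c l)) : ℝ) * R ≤ (cnt R c P : ℝ) * R +
        (a : ℝ) * (R : ℝ) ^ m := by exact_mod_cast h1
    have h3 : (a : ℝ) < ε * R := lt_of_le_of_lt (by exact_mod_cast ha) hGR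
    have h4 : (0 : ℝ) < (R : ℝ) ^ m := by positivity
    have h5 : (a : ℝ) * (R : ℝ) ^ m < ε * R * (R : ℝ) ^ m := mul_lt_mul_of_pos_right h3 h4
    by_contra hc
    push Not at hc
    have h6 := mul_le_mul_of_nonneg_right hc hRr.le
    nlinarith
  -- nets
  have hns : ∀ (i : Fin k) (ι : Type) (a : ι → ℕ) (w : ι → V),
      NoShatter (fun x : ι => (((univ : Finset (Fin m → Fin R)).filter
        fun n => S i (a x) (yv c n + w x) : Finset (Fin m → Fin R)) :
          Set (Fin m → Fin R))) d := by
    intro i ι a w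
    have h := noShatter_pull (hE i) (fun x : ι => (a x, - w x)) (fun n : Fin m → Fin R => yv c n)
    have h2 : (fun x : ι => (((univ : Finset (Fin m → Fin R)).filter
        fun n => S i (a x) (yv c n + w x) : Finset (Fin m → Fin R)) :
          Set (Fin m → Fin R))) = fun y' => {x' | yv c x' ∈ (fun p : ℕ × V =>
            {y : V | ((1 : ℚ) / ((p.1 : ℚ) + 1)) • (y - p.2) ∈ E i}) ((fun x => (a x, - w x)) y')} := by
      funext x
      ext n
      simp [S, sub_neg_eq_add]
    rw [h2]
    exact h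
  have hsd : ∀ P Q : V → Prop, ((symmDiff
      ((univ : Finset (Fin m → Fin R)).filter fun n => P (yv c n))
      ((univ : Finset (Fin m → Fin R)).filter fun n => Q (yv c n))).card : ℝ) =
      cnt R c (fun v => ¬ (P v ↔ Q v)) := by
    intro P Q
    rw [cnt]
    congr 2
    ext n
    rw [mem_symmDiff]
    simp only [mem_filter, mem_univ, true_and]
    tauto
  have hnet1 : ∀ i : Fin k, ∃ e : Fin (M + 1) → Fin (G + 1), ∀ a : Fin (G + 1), ∃ s,
      (cnt R c (fun v => ¬ (S i a v ↔ S i (e s) v)) : ℝ) < ε * (R : ℝ) ^ m := by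
    intro i
    obtain ⟨e, he⟩ := exists_net hε hM (fun a : Fin (G + 1) =>
      (univ : Finset (Fin m → Fin R)).filter fun n => S i a (yv c n)) (by
        have := hns i (Fin (G + 1)) (fun a => a) (fun _ => 0)
        simpa using this)
    refine ⟨e, fun a => ?_⟩
    obtain ⟨s, hs⟩ := he a
    refine ⟨s, ?_⟩
    rw [hcard, hsd (S i a) (S i (e s))] at hs
    exact hs
  choose e he using hnet1
  have hnet2 : ∀ p : Fin k × Fin (M + 1) × Fin m, ∃ (e' : Fin (M + 1) → Fin (G + 1)),
      ∀ a : Fin (G + 1), ∃ s,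
      (cnt R c (fun v => ¬ (S p.1 (e p.1 p.2.1) (v + ((a : ℕ) : ℚ) • c p.2.2) ↔
        S p.1 (e p.1 p.2.1) (v + ((e' s : ℕ) : ℚ) • c p.2.2))) : ℝ) < ε * (R : ℝ) ^ m := by
    intro p
    obtain ⟨e', he'⟩ := exists_net hε hM (fun a : Fin (G + 1) =>
      (univ : Finset (Fin m → Fin R)).filter fun n =>
        S p.1 (e p.1 p.2.1) (yv c n + ((a : ℕ) : ℚ) • c p.2.2))
        (hns p.1 (Fin (G + 1)) (fun _ => e p.1 p.2.1) (fun a => ((a : ℕ) : ℚ) • c p.2.2))
    refine ⟨e', fun a => ?_⟩
    obtain ⟨s, hs⟩ := he' a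
    refine ⟨s, ?_⟩
    rw [hcard, hsd (fun v => S p.1 (e p.1 p.2.1) (v + ((a : ℕ) : ℚ) • c p.2.2))
      (fun v => S p.1 (e p.1 p.2.1) (v + ((e' s : ℕ) : ℚ) • c p.2.2))] at hs
    exact hs
  choose e' he' using hnet2
  choose col hcol using he'
  -- pigeonhole
  obtain ⟨a, b, hab, hcolab⟩ := Fintype.exists_ne_map_eq_of_card_lt
    (fun (a : Fin (G + 1)) (p : Fin k × Fin (M + 1) × Fin m) => col p a) (by
      rw [Fintype.card_fun, Fintype.card_fin, Fintype.card_fin, Fintype.card_prod,
        Fintype.card_prod, Fintype.card_fin, Fintype.card_fin, Fintype.card_fin, ← mul_assoc,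
        ← hG]
      exact Nat.lt_succ_self G)
  -- ordered version
  obtain ⟨a, b, hab, hcolab⟩ : ∃ a b : Fin (G + 1), a < b ∧ ∀ p, col p a = col p b := by
    rcases lt_or_gt_of_ne hab with h | h
    · exact ⟨a, b, h, fun p => congrFun hcolab p⟩
    · exact ⟨b, a, h, fun p => (congrFun hcolab p).symm⟩
  set g : ℕ := (b : ℕ) - (a : ℕ) with hg
  have hg1 : 1 ≤ g := by
    rw [Fin.lt_def] at hab
    omega
  have hgG : g ≤ G := by
    have := b.2
    omega
  have hba : (b : ℕ) = (a : ℕ) + g := by
    rw [Fin.lt_def] at hab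
    omega
  have haG : (a : ℕ) ≤ G := by
    have := a.2
    omega
  -- the sets are almost invariant
  have h3 : ∀ (i : Fin k) (s : Fin (M + 1)) (l : Fin m),
      (cnt R c (fun v => ¬ (S i (e i s) v ↔ S i (e i s) (v + (g : ℚ) • c l))) : ℝ) <
        3 * ε * (R : ℝ) ^ m := by
    intro i s l
    have h1 := hdown l a haG (fun v => ¬ (S i (e i s) v ↔ S i (e i s) (v + (g : ℚ) • c l)))
    have h2 := hcol (i, s, l) a
    have h2' := hcol (i, s, l) b
    rw [← hcolab (i, s, l)] at h2'
    simp only at h2 h2'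
    have h4 : cnt R c (fun v => ¬ (S i (e i s) (v + ((a : ℕ) : ℚ) • c l) ↔
          S i (e i s) (v + ((a : ℕ) : ℚ) • c l + (g : ℚ) • c l))) ≤
        cnt R c (fun v => ¬ (S i (e i s) (v + ((a : ℕ) : ℚ) • c l) ↔
          S i (e i s) (v + ((e' (i, s, l) (col (i, s, l) a) : ℕ) : ℚ) • c l)) ∨
          ¬ (S i (e i s) (v + ((b : ℕ) : ℚ) • c l) ↔
          S i (e i s) (v + ((e' (i, s, l) (col (i, s, l) a) : ℕ) : ℚ) • c l))) := by
      apply cnt_mono
      intro v hv
      have h5 : v + ((b : ℕ) : ℚ) • c l = v + ((a : ℕ) : ℚ) • c l + (g : ℚ) • c l := by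
        rw [add_assoc, ← add_smul, hba]
        push_cast
        rfl
      rw [h5]
      tauto
    have h6 := h4.trans (cnt_or c _ _)
    have h7 : (cnt R c (fun v => ¬ (S i (e i s) (v + ((a : ℕ) : ℚ) • c l) ↔
          S i (e i s) (v + ((a : ℕ) : ℚ) • c l + (g : ℚ) • c l))) : ℝ) ≤ _ :=
      Nat.cast_le.2 h6
    push_cast at h7
    have h8 : (0 : ℝ) < ε * (R : ℝ) ^ m := by positivity
    linarith
  have h6 : ∀ (i : Fin k) (l : Fin m),
      (cnt R c (fun v => ¬ (S i (g - 1) v ↔ S i (g - 1) (v + (g : ℚ) • c l))) : ℝ) <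
        6 * ε * (R : ℝ) ^ m := by
    intro i l
    obtain ⟨s, hs⟩ := he i ⟨g - 1, by omega⟩
    simp only at hs
    have h1 := h3 i s l
    have h2 := hup l g hgG (fun v => ¬ (S i (g - 1) v ↔ S i (e i s) v))
    have h4 : cnt R c (fun v => ¬ (S i (g - 1) v ↔ S i (g - 1) (v + (g : ℚ) • c l))) ≤
        cnt R c (fun v => (¬ (S i (g - 1) v ↔ S i (e i s) v) ∨
          ¬ (S i (e i s) v ↔ S i (e i s) (v + (g : ℚ) • c l))) ∨
          ¬ (S i (g - 1) (v + (g : ℚ) • c l) ↔ S i (e i s) (v + (g : ℚ) • c l))) := by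
      apply cnt_mono
      intro v hv
      tauto
    have h5 := h4.trans ((cnt_or c _ _).trans (Nat.add_le_add_right (cnt_or c _ _) _))
    have h7 : (cnt R c (fun v => ¬ (S i (g - 1) v ↔ S i (g - 1) (v + (g : ℚ) • c l))) : ℝ) ≤ _ :=
      Nat.cast_le.2 h5
    push_cast at h7
    have h8 : (0 : ℝ) < ε * (R : ℝ) ^ m := by positivity
    linarith
  -- a good point
  have h7 : ∃ n : Fin m → Fin R, ∀ (i : Fin k) (l : Fin m),
      (S i (g - 1) (yv c n) ↔ S i (g - 1) (yv c n + (g : ℚ) • c l)) := by
    by_contra hno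
    push Not at hno
    have h1 : (univ : Finset (Fin m → Fin R)) ⊆ (univ : Finset (Fin k × Fin m)).biUnion fun p =>
        (univ : Finset (Fin m → Fin R)).filter fun n =>
          ¬ (S p.1 (g - 1) (yv c n) ↔ S p.1 (g - 1) (yv c n + (g : ℚ) • c p.2)) := by
      intro n _
      obtain ⟨i, l, hil⟩ := hno n
      rw [mem_biUnion]
      refine ⟨(i, l), mem_univ _, ?_⟩
      rw [mem_filter]
      refine ⟨mem_univ _, ?_⟩
      simp only
      tauto
    have h2 := (card_le_card h1).trans card_biUnion_le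
    rw [card_univ, sum_congr rfl (fun (p : Fin k × Fin m) _ => (cnt_eq (R := R) c (fun v =>
      ¬ (S p.1 (g - 1) v ↔ S p.1 (g - 1) (v + (g : ℚ) • c p.2)))).symm)] at h2
    have h2r : (Fintype.card (Fin m → Fin R) : ℝ) ≤ ∑ p : Fin k × Fin m,
        (cnt R c (fun v => ¬ (S p.1 (g - 1) v ↔ S p.1 (g - 1) (v + (g : ℚ) • c p.2))) : ℝ) := by
      have := (Nat.cast_le (α := ℝ)).2 h2
      push_cast at this
      exact this
    have h4 : ∑ p : Fin k × Fin m,
        (cnt R c (fun v => ¬ (S p.1 (g - 1) v ↔ S p.1 (g - 1) (v + (g : ℚ) • c p.2))) : ℝ) ≤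
        ∑ p : Fin k × Fin m, 6 * ε * (R : ℝ) ^ m :=
      sum_le_sum fun p _ => (h6 p.1 p.2).le
    rw [sum_const, card_univ, Fintype.card_prod, Fintype.card_fin, Fintype.card_fin,
      nsmul_eq_mul] at h4
    rw [hcard] at h2r
    push_cast at h4
    have h8 : (0 : ℝ) < (R : ℝ) ^ m := by positivity
    have h9 : (k : ℝ) * m * (6 * ε) < 1 := by
      rw [hεdef]
      have h10 : (0 : ℝ) < 7 * ((k : ℝ) * m + 1) := by positivity
      have h11 : (0 : ℝ) ≤ (k : ℝ) * m := by positivity
      rw [← mul_div_assoc, ← mul_div_assoc, div_lt_one h10]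
      nlinarith
    nlinarith
  obtain ⟨n, hn⟩ := h7
  refine ⟨g, fun j => ((n j : ℕ) : ℤ), hg1, hgG.trans (le_max_left _ _), fun l => ?_, fun i l => ?_⟩
  · have h1 : (n l : ℕ) ≤ max G R := (n l).2.le.trans (le_max_right _ _)
    rw [abs_of_nonneg (Int.natCast_nonneg _)]
    exact_mod_cast h1
  · have hg0 : (g : ℚ) ≠ 0 := by
      have : g ≠ 0 := by omega
      exact_mod_cast this
    have hgc : (((g - 1 : ℕ) : ℚ) + 1) = (g : ℚ) := by
      rw [Nat.cast_sub hg1]
      ring
    have h1 := hn i l
    simp only [S] at h1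
    rw [hgc] at h1
    have h2 : ((1 : ℚ) / (g : ℚ)) • yv c n =
        ∑ j, ((((((n j : ℕ) : ℤ) : ℚ)) / (g : ℚ)) • c j) := by
      rw [yv, smul_sum]
      refine sum_congr rfl fun j _ => ?_
      rw [smul_smul]
      congr 1
      push_cast
      ring
    rw [smul_add, smul_smul, one_div_mul_cancel hg0, one_smul, h2] at h1
    exact h1

end Pool.Agent.SNIP
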