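import Mathlib
import Pool.Agent.Helper62.RC.Odd

/-!
# Existence of the real closure of an ordered field
-/

set_option autoImplicit false

namespace Pool.Agent.SNIP

open Helper62.RC

theorem exists_realClosure (K : Type) [Field K] [LinearOrder K] [IsStrictOrderedRing K] :
    ∃ (R : Type) (_ : Field R) (_ : LinearOrder R) (_ : IsStrictOrderedRing R) (f : K →+* R),
      StrictMono (f : K → R) ∧
      (∀ r : R, ∃ p : Polynomial K, p ≠ 0 ∧ p.eval₂ f r = 0) ∧
      (∀ r : R, 0 < r → ∃ s : R, s * s = r) ∧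
      (∀ p : Polynomial R, Odd p.natDegree → ∃ r : R, p.IsRoot r) := by
  obtain ⟨E, hE⟩ := exists_maximal K (AlgebraicClosure K)
  obtain ⟨i1, i2, hle⟩ := exists_order hE
  refine ⟨E, inferInstance, i1, i2, algebraMap K E, ?_, ?_, ?_, ?_⟩
  · intro a b hab
    have h1 : (0 : E) ≤ algebraMap K E (b - a) := by
      rw [hle]
      exact algebraMap_mem_T E (sub_nonneg.2 hab.le)
    have h2 : algebraMap K E (b - a) ≠ 0 := by
      intro h
      rw [map_eq_zero] at h
      exact absurd (sub_eq_zero.1 h) hab.ne'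
    have h3 : (0 : E) < algebraMap K E (b - a) := lt_of_le_of_ne h1 h2.symm
    rw [map_sub] at h3
    exact sub_pos.1 h3
  · intro r
    obtain ⟨p, hp0, hp⟩ := Algebra.IsAlgebraic.isAlgebraic (R := K) (r : AlgebraicClosure K)
    refine ⟨p, hp0, ?_⟩
    have h1 : Polynomial.aeval (algebraMap E (AlgebraicClosure K) r) p = 0 := hp
    rw [Polynomial.aeval_algebraMap_apply] at h1
    have h2 := (algebraMap E (AlgebraicClosure K)).injective (h1.trans (map_zero _).symm)
    rwa [Polynomial.aeval_def] at h2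
  · intro r hr
    obtain ⟨y, hy, h⟩ := sq_of_mem_T hE ((hle r).1 hr.le)
    refine ⟨⟨y, hy⟩, Subtype.ext ?_⟩
    change y * y = (r : AlgebraicClosure K)
    rw [← h, sq]
  · exact fun p hp => odd_root hE hle p hp

end Pool.Agent.SNIP
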