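import Mathlib

/-!
# The fundamental theorem of algebra for real closed fields
-/

set_option autoImplicit false

namespace Pool.Agent.SNIP

open IntermediateField Polynomial

private lemma fta_sqrt (R : Type) [Field R] [LinearOrder R] [IsStrictOrderedRing R]
    (hsq : ∀ r : R, 0 < r → ∃ s : R, s * s = r) (r : R) (hr : 0 ≤ r) :
    ∃ s : R, 0 ≤ s ∧ s * s = r := by
  rcases hr.eq_or_lt with h | h
  · exact ⟨0, le_rfl, by rw [mul_zero, h]⟩
  · obtain ⟨s, hs⟩ := hsq r h
    exact ⟨|s|, abs_nonneg s, by rw [abs_mul_abs_self, hs]⟩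

private lemma fta_sq (R : Type) [Field R] [LinearOrder R] [IsStrictOrderedRing R]
    (hsq : ∀ r : R, 0 < r → ∃ s : R, s * s = r) (a b : R) :
    ∃ c d : R, c * c - d * d = a ∧ 2 * (c * d) = b := by
  obtain ⟨n, hn0, hn⟩ := fta_sqrt R hsq (a * a + b * b) (add_nonneg (mul_self_nonneg a) (mul_self_nonneg b))
  have h1 : |a| ≤ n := by
    refine abs_le_of_sq_le_sq ?_ hn0
    nlinarith [mul_self_nonneg b]
  have h2 := abs_le.1 h1
  obtain ⟨c, _, hc⟩ := fta_sqrt R hsq ((a + n) / 2) (by linarith [h2.1])
  obtain ⟨d, _, hd⟩ := fta_sqrt R hsq ((n - a) / 2) (by linarith [h2.2])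
  have h3 : (2 * (c * d)) ^ 2 = b ^ 2 := by
    have : (2 * (c * d)) ^ 2 = 4 * ((c * c) * (d * d)) := by ring
    rw [this, hc, hd]
    linear_combination hn
  rcases sq_eq_sq_iff_eq_or_eq_neg.1 h3 with h4 | h4
  · exact ⟨c, d, by rw [hc, hd]; ring, h4⟩
  · exact ⟨c, -d, by rw [neg_mul_neg, hc, hd]; ring, by linear_combination -h4⟩

/-- the elements of `R(i)` -/
private lemma fta_mem (R : Type) [Field R] (A : Type) [Field A] [Algebra R A] (i : A)
    (hi : i * i = -1) (x : A) (hx : x ∈ R⟮i⟯) :
    ∃ a b : R, x = algebraMap R A a + algebraMap R A b * i := by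
  have hint : IsIntegral R i := by
    refine ⟨X ^ 2 + 1, by monicity!, ?_⟩
    simp only [eval₂_add, eval₂_pow, eval₂_X, eval₂_one]
    rw [sq, hi]
    ring
  have h1 : x ∈ Algebra.adjoin R {i} := by
    rw [← adjoin_simple_toSubalgebra_of_isAlgebraic hint.isAlgebraic]
    exact hx
  induction h1 using Algebra.adjoin_induction with
  | mem y hy =>
    rw [Set.mem_singleton_iff] at hy
    exact ⟨0, 1, by rw [hy]; simp⟩
  | algebraMap r => exact ⟨r, 0, by simp⟩
  | add y z hy hz h1 h2 =>
    have hy' : y ∈ R⟮i⟯ := by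
      have h : y ∈ (R⟮i⟯).toSubalgebra := by
        rw [adjoin_simple_toSubalgebra_of_isAlgebraic hint.isAlgebraic]
        exact hy
      exact h
    have hz' : z ∈ R⟮i⟯ := by
      have h : z ∈ (R⟮i⟯).toSubalgebra := by
        rw [adjoin_simple_toSubalgebra_of_isAlgebraic hint.isAlgebraic]
        exact hz
      exact h
    obtain ⟨a, b, h3⟩ := h1 hy'
    obtain ⟨c, d, h4⟩ := h2 hz'
    exact ⟨a + c, b + d, by rw [h3, h4, map_add, map_add]; ring⟩
  | mul y z hy hz h1 h2 =>
    have hy' : y ∈ R⟮i⟯ := by
      have h : y ∈ (R⟮i⟯).toSubalgebra := by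
        rw [adjoin_simple_toSubalgebra_of_isAlgebraic hint.isAlgebraic]
        exact hy
      exact h
    have hz' : z ∈ R⟮i⟯ := by
      have h : z ∈ (R⟮i⟯).toSubalgebra := by
        rw [adjoin_simple_toSubalgebra_of_isAlgebraic hint.isAlgebraic]
        exact hz
      exact h
    obtain ⟨a, b, h3⟩ := h1 hy'
    obtain ⟨c, d, h4⟩ := h2 hz'
    refine ⟨a * c - b * d, a * d + b * c, ?_⟩
    rw [h3, h4, map_sub, map_add, map_mul, map_mul, map_mul, map_mul]
    linear_combination (algebraMap R A b * algebraMap R A d) * hi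

/-- every element of `R(i)` is a square in `R(i)` -/
private lemma fta_square (R : Type) [Field R] [LinearOrder R] [IsStrictOrderedRing R]
    (hsq : ∀ r : R, 0 < r → ∃ s : R, s * s = r)
    (A : Type) [Field A] [Algebra R A] (i : A) (hi : i * i = -1) (x : R⟮i⟯) :
    ∃ y : R⟮i⟯, x = y * y := by
  obtain ⟨a, b, hab⟩ := fta_mem R A i hi x x.2
  obtain ⟨c, d, h1, h2⟩ := fta_sq R hsq a b
  have hmem : algebraMap R A c + algebraMap R A d * i ∈ R⟮i⟯ :=
    add_mem (IntermediateField.algebraMap_mem _ _)
      (mul_mem (IntermediateField.algebraMap_mem _ _) (mem_adjoin_simple_self R i))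
  refine ⟨⟨_, hmem⟩, Subtype.ext ?_⟩
  rw [hab]
  change _ = (algebraMap R A c + algebraMap R A d * i) * (algebraMap R A c + algebraMap R A d * i)
  rw [← h1, ← h2, map_sub, map_mul, map_mul, map_mul, map_mul]
  have h3 : algebraMap R A 2 = 2 := map_ofNat _ 2
  rw [h3]
  linear_combination -(algebraMap R A d * algebraMap R A d) * hi

/-- a field of characteristic zero where every element is a square has no quadratic extension -/
private lemma fta_quad (K : Type) [Field K] [CharZero K] (hK : ∀ x : K, ∃ y : K, x = y * y)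
    (L : Type) [Field L] [Algebra K L] (h : Module.finrank K L = 2) : False := by
  have hfin : FiniteDimensional K L := Module.finite_of_finrank_pos (by rw [h]; norm_num)
  have h1 : ∀ x : L, x ∈ (⊥ : IntermediateField K L) := by
    intro x
    have hint : IsIntegral K x := IsIntegral.of_finite K x
    have hirr := minpoly.irreducible hint
    have hroot : ∃ y : K, (minpoly K x).IsRoot y := by
      have hle := minpoly.natDegree_le (A := K) x
      rw [h] at hle
      have hpos := minpoly.natDegree_pos hint
      have hm := minpoly.monic hint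
      rcases Nat.lt_or_ge (minpoly K x).natDegree 2 with h2 | h2
      · have h3 : (minpoly K x).natDegree = 1 := by omega
        have h4 := (minpoly K x).eq_X_add_C_of_natDegree_le_one h3.le
        have h5 : (minpoly K x).coeff 1 = 1 := by
          rw [← h3]
          exact hm
        refine ⟨-(minpoly K x).coeff 0, ?_⟩
        rw [h4, h5]
        simp
      · have h3 : (minpoly K x).natDegree = 2 := by omega
        have h5 : (minpoly K x).coeff 2 = 1 := by
          rw [← h3]
          exact hm
        obtain ⟨y, hy⟩ := exists_quadratic_eq_zero (K := K) (a := 1) (b := (minpoly K x).coeff 1)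
          (c := (minpoly K x).coeff 0) one_ne_zero (hK _)
        refine ⟨y, ?_⟩
        rw [IsRoot.def, eval_eq_sum_range, h3, Finset.sum_range_succ, Finset.sum_range_succ,
          Finset.sum_range_one, h5, ← hy]
        ring
    obtain ⟨y, hy⟩ := hroot
    have h2 := degree_eq_one_of_irreducible_of_root hirr hy
    rw [mem_bot]
    exact minpoly.degree_eq_one_iff.1 h2
  have h2 : (⊥ : IntermediateField K L) = ⊤ := by
    ext x
    simp [h1 x]
  have h3 : Module.finrank K L = 1 := by
    rw [← IntermediateField.finrank_top', ← h2, IntermediateField.finrank_bot]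
  omega

/-- a field of characteristic zero where every element is a square has no Galois extension of degree
`2 ^ (m + 1)` -/
private lemma fta_gal (K : Type) [Field K] [CharZero K] (hK : ∀ x : K, ∃ y : K, x = y * y)
    (E : Type) [Field E] [Algebra K E] [FiniteDimensional K E] [IsGalois K E] (m : ℕ)
    (h : Module.finrank K E = 2 ^ (m + 1)) : False := by
  have : Fact (Nat.Prime 2) := ⟨Nat.prime_two⟩
  have h2 : Nat.card (E ≃ₐ[K] E) = 2 ^ (m + 1) := by
    rw [IsGalois.card_aut_eq_finrank, h]
  obtain ⟨M, hM⟩ := Sylow.exists_subgroup_card_pow_prime 2 (G := E ≃ₐ[K] E) (n := m)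
    (by rw [h2]; exact pow_dvd_pow 2 (Nat.le_succ m))
  let L : IntermediateField K E := fixedField M
  have h3 : Module.finrank L E = 2 ^ m := (finrank_fixedField_eq_card M).trans hM
  have h4 : Module.finrank K L * Module.finrank L E = Module.finrank K E :=
    Module.finrank_mul_finrank _ _ _
  rw [h3, h, pow_succ, mul_comm (2 ^ m) 2] at h4
  have h5 : Module.finrank K L = 2 := Nat.eq_of_mul_eq_mul_right (by positivity) h4
  exact fta_quad K hK L h5

theorem fta (R : Type) [Field R] [LinearOrder R] [IsStrictOrderedRing R]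
    (hsq : ∀ r : R, 0 < r → ∃ s : R, s * s = r)
    (hodd : ∀ p : Polynomial R, Odd p.natDegree → ∃ r : R, p.IsRoot r) :
    ∃ i : AlgebraicClosure R, i * i = -1 ∧ ∀ z : AlgebraicClosure R, ∃ a b : R,
      z = algebraMap R (AlgebraicClosure R) a + algebraMap R (AlgebraicClosure R) b * i := by
  obtain ⟨i, hi⟩ := IsAlgClosed.exists_eq_mul_self (-1 : AlgebraicClosure R)
  refine ⟨i, hi.symm, fun z => ?_⟩
  have hfin : FiniteDimensional R (adjoin R ({i, z} : Set (AlgebraicClosure R))) :=
    finiteDimensional_adjoin fun x _ => (Algebra.IsAlgebraic.isAlgebraic x).isIntegral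
  let E : IntermediateField R (AlgebraicClosure R) :=
    normalClosure R (adjoin R ({i, z} : Set (AlgebraicClosure R))) (AlgebraicClosure R)
  have hle : adjoin R ({i, z} : Set (AlgebraicClosure R)) ≤ E := le_normalClosure _
  have hiE : i ∈ E := hle (subset_adjoin R _ (by simp))
  have hzE : z ∈ E := hle (subset_adjoin R _ (by simp))
  have hEfin : FiniteDimensional R E := normalClosure.is_finiteDimensional _ _ _
  have hEn : Normal R E := normalClosure.normal _ _ _
  have hEg : IsGalois R E := ⟨⟩
  -- the Galois group is a 2-group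
  have hpow : ∃ n, Module.finrank R E = 2 ^ n := by
    have : Fact (Nat.Prime 2) := ⟨Nat.prime_two⟩
    obtain ⟨H⟩ : Nonempty (Sylow 2 (E ≃ₐ[R] E)) := inferInstance
    let F : IntermediateField R E := fixedField (H : Subgroup (E ≃ₐ[R] E))
    have h1 : Module.finrank F E = Nat.card (H : Subgroup (E ≃ₐ[R] E)) :=
      finrank_fixedField_eq_card _
    have h2 : Module.finrank R F * Module.finrank F E = Module.finrank R E :=
      Module.finrank_mul_finrank R F E
    have h3 : Nat.card (E ≃ₐ[R] E) = Module.finrank R E := IsGalois.card_aut_eq_finrank R E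
    have h4 : (H : Subgroup (E ≃ₐ[R] E)).index * Nat.card (H : Subgroup (E ≃ₐ[R] E)) =
        Nat.card (E ≃ₐ[R] E) := Subgroup.index_mul_card _
    have h5 : Module.finrank R F = (H : Subgroup (E ≃ₐ[R] E)).index := by
      have h6 : 0 < Nat.card (H : Subgroup (E ≃ₐ[R] E)) := Nat.card_pos
      rw [← h1] at h4 h6
      rw [h3, ← h2] at h4
      exact (Nat.eq_of_mul_eq_mul_right h6 h4).symm
    have h6 : Odd (Module.finrank R F) := by
      rw [h5, ← Nat.not_even_iff_odd, even_iff_two_dvd]
      exact H.not_dvd_index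
    have h7 : Module.finrank R F = 1 := by
      obtain ⟨α, hα⟩ := Field.exists_primitive_element R F
      have hint : IsIntegral R α := IsIntegral.of_finite R α
      have h8 : (minpoly R α).natDegree = Module.finrank R F := by
        rw [← IntermediateField.adjoin.finrank hint, hα, IntermediateField.finrank_top']
      obtain ⟨r, hr⟩ := hodd (minpoly R α) (by rw [h8]; exact h6)
      have h9 := degree_eq_one_of_irreducible_of_root (minpoly.irreducible hint) hr
      rw [← h8]
      exact natDegree_eq_of_degree_eq_some h9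
    obtain ⟨n, hn⟩ := IsPGroup.iff_card.1 H.2
    exact ⟨n, by rw [← h2, h7, one_mul, h1]; exact hn⟩
  obtain ⟨n, hn⟩ := hpow
  -- the field `R(i)` inside `E`
  let j : E := ⟨i, hiE⟩
  have hj : j * j = -1 := Subtype.ext hi.symm
  have htop : R⟮j⟯ = ⊤ := by
    rw [← finrank_eq_one_iff_eq_top]
    have h1 : Module.finrank R⟮j⟯ E ∣ 2 ^ n := by
      rw [← hn, ← Module.finrank_mul_finrank R R⟮j⟯ E]
      exact dvd_mul_left _ _
    obtain ⟨m, _, hm⟩ := (Nat.dvd_prime_pow Nat.prime_two).1 h1
    rcases m with _ | m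
    · simpa using hm
    · exfalso
      have : CharZero R⟮j⟯ := charZero_of_injective_algebraMap (algebraMap R R⟮j⟯).injective
      exact fta_gal R⟮j⟯ (fta_square R hsq E j hj) E m hm
  obtain ⟨a, b, hab⟩ := fta_mem R E j hj ⟨z, hzE⟩ (by rw [htop]; exact mem_top)
  refine ⟨a, b, ?_⟩
  have := congrArg (algebraMap E (AlgebraicClosure R)) hab
  rw [map_add, map_mul, ← IsScalarTower.algebraMap_apply, ← IsScalarTower.algebraMap_apply] at this
  exact this

end Pool.Agent.SNIP
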