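import Pool.Agent.SNIP.Def
import Pool.Agent.SNIP.P7

/-!
The absolute value on the algebraic closure of a real closed field.
-/

set_option autoImplicit false

namespace Pool.Agent.SNIP

/-- Representations with respect to a square root of minus one are unique. -/
theorem rep_unique {R Ω : Type} [Field R] [LinearOrder R] [IsStrictOrderedRing R]
    [Field Ω] (φ : R →+* Ω) (i : Ω) (hi : i * i = -1) (a b c d : R)
    (h : φ a + φ b * i = φ c + φ d * i) : a = c ∧ b = d := by
  have hinj : Function.Injective φ := φ.injective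
  have hb : b = d := by
    by_contra hne
    have hne' : φ (b - d) ≠ 0 := by
      intro h0
      have : b - d = 0 := hinj (by rw [h0, map_zero])
      exact hne (sub_eq_zero.1 this)
    have h1 : φ (b - d) * i = φ (c - a) := by
      rw [map_sub, map_sub]
      linear_combination h
    have h2 : φ ((c - a) * (c - a) + (b - d) * (b - d)) = φ 0 := by
      rw [map_add, map_mul, map_mul, map_zero, ← h1]
      linear_combination (φ (b - d) * φ (b - d)) * hi
    have h3 : (c - a) * (c - a) + (b - d) * (b - d) = 0 := hinj h2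
    have h4 : b - d ≠ 0 := sub_ne_zero.2 hne
    have h5 : 0 < (b - d) * (b - d) := mul_self_pos.2 h4
    have h6 : 0 ≤ (c - a) * (c - a) := mul_self_nonneg _
    linarith
  refine ⟨?_, hb⟩
  rw [hb] at h
  exact hinj (add_right_cancel h)

/-- Construction of the absolute value. -/
theorem av_of_rep {R Ω : Type} [Field R] [LinearOrder R] [IsStrictOrderedRing R]
    [Field Ω] (φ : R →+* Ω) (i : Ω) (hi : i * i = -1)
    (hrep : ∀ z : Ω, ∃ a b : R, z = φ a + φ b * i)
    (hsq : ∀ r : R, 0 < r → ∃ s : R, s * s = r) :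
    ∃ av : Ω → R, IsAv av ∧ ∀ a b : R,
      |a| ≤ av (φ a + φ b * i) ∧ |b| ≤ av (φ a + φ b * i) ∧
        av (φ a + φ b * i) ≤ |a| + |b| := by
  have hs : ∀ r : R, ∃ s : R, 0 ≤ s ∧ (0 ≤ r → s * s = r) := by
    intro r
    rcases lt_or_ge 0 r with h | h
    · obtain ⟨s, hs⟩ := hsq r h
      exact ⟨|s|, abs_nonneg s, fun _ => by rw [abs_mul_abs_self, hs]⟩
    · exact ⟨0, le_refl 0, fun h' => by rw [le_antisymm h h', mul_zero]⟩
  choose sq hsq0 hsqs using hs
  choose re im hri using hrep
  have hre : ∀ a b : R, re (φ a + φ b * i) = a := fun a b =>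
    ((rep_unique φ i hi a b _ _ (hri (φ a + φ b * i))).1).symm
  have him : ∀ a b : R, im (φ a + φ b * i) = b := fun a b =>
    ((rep_unique φ i hi a b _ _ (hri (φ a + φ b * i))).2).symm
  obtain ⟨av, hav⟩ : ∃ av : Ω → R, ∀ z, av z = sq (re z * re z + im z * im z) := ⟨_, fun _ => rfl⟩
  have hnn : ∀ z, 0 ≤ av z := fun z => by rw [hav]; exact hsq0 _
  have hss : ∀ z, av z * av z = re z * re z + im z * im z := fun z => by
    rw [hav]
    exact hsqs _ (add_nonneg (mul_self_nonneg _) (mul_self_nonneg _))
  have hab : ∀ a b : R, av (φ a + φ b * i) * av (φ a + φ b * i) = a * a + b * b := fun a b => by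
    rw [hss, hre, him]
  refine ⟨av, ⟨hnn, ?_, ?_, ?_⟩, ?_⟩
  · intro x hx
    have h1 := hss x
    rw [hx, mul_zero] at h1
    have h2 : re x = 0 := by
      have h3 : re x * re x = 0 := by
        have := mul_self_nonneg (re x)
        have := mul_self_nonneg (im x)
        linarith
      exact mul_self_eq_zero.1 h3
    have h4 : im x = 0 := by
      have h3 : im x * im x = 0 := by
        have := mul_self_nonneg (re x)
        have := mul_self_nonneg (im x)
        linarith
      exact mul_self_eq_zero.1 h3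
    rw [hri x, h2, h4, map_zero, zero_mul, add_zero]
  · intro x y
    have hxy : x * y = φ (re x * re y - im x * im y) + φ (re x * im y + im x * re y) * i := by
      have e1 := hri x
      have e2 := hri y
      obtain ⟨a, ha⟩ : ∃ a, a = re x := ⟨_, rfl⟩
      obtain ⟨b, hb⟩ : ∃ b, b = im x := ⟨_, rfl⟩
      obtain ⟨c, hc⟩ : ∃ c, c = re y := ⟨_, rfl⟩
      obtain ⟨d, hd⟩ : ∃ d, d = im y := ⟨_, rfl⟩
      rw [← ha, ← hb] at e1
      rw [← hc, ← hd] at e2
      rw [← ha, ← hb, ← hc, ← hd, e1, e2, map_sub, map_add, map_mul, map_mul, map_mul, map_mul]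
      linear_combination (φ b * φ d) * hi
    have h1 : av (x * y) * av (x * y) = (av x * av y) * (av x * av y) := by
      have h2 := hab (re x * re y - im x * im y) (re x * im y + im x * re y)
      rw [← hxy] at h2
      have h3 := hss x
      have h4 := hss y
      calc av (x * y) * av (x * y) = (re x * re x + im x * im x) * (re y * re y + im y * im y) := by
            rw [h2]; ring
        _ = (av x * av x) * (av y * av y) := by rw [h3, h4]
        _ = (av x * av y) * (av x * av y) := by ring
    exact (mul_self_inj (hnn _) (mul_nonneg (hnn x) (hnn y))).1 h1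
  · intro x y
    have hxy : x + y = φ (re x + re y) + φ (im x + im y) * i := by
      have e1 := hri x
      have e2 := hri y
      obtain ⟨a, ha⟩ : ∃ a, a = re x := ⟨_, rfl⟩
      obtain ⟨b, hb⟩ : ∃ b, b = im x := ⟨_, rfl⟩
      obtain ⟨c, hc⟩ : ∃ c, c = re y := ⟨_, rfl⟩
      obtain ⟨d, hd⟩ : ∃ d, d = im y := ⟨_, rfl⟩
      rw [← ha, ← hb] at e1
      rw [← hc, ← hd] at e2
      rw [← ha, ← hb, ← hc, ← hd, e1, e2, map_add, map_add]
      ring
    have h2 := hab (re x + re y) (im x + im y)
    rw [← hxy] at h2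
    have h3 := hss x
    have h4 := hss y
    have h5 : re x * re y + im x * im y ≤ av x * av y := by
      apply abs_le_of_sq_le_sq' _ (mul_nonneg (hnn x) (hnn y)) |>.2
      have h6 : (av x * av y) ^ 2 = (re x * re x + im x * im x) * (re y * re y + im y * im y) := by
        rw [← h3, ← h4]; ring
      rw [h6]
      have h7 := mul_self_nonneg (re x * im y - im x * re y)
      linear_combination h7
    have h8 : av (x + y) * av (x + y) ≤ (av x + av y) * (av x + av y) := by
      rw [h2]
      linear_combination 2 * h5 + (-1) * h3 + (-1) * h4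
    exact (mul_self_le_mul_self_iff (hnn _) (add_nonneg (hnn x) (hnn y))).2 h8
  · intro a b
    have h := hab a b
    obtain ⟨s, hs⟩ : ∃ s, s = av (φ a + φ b * i) := ⟨_, rfl⟩
    have hs0 : 0 ≤ s := by rw [hs]; exact hnn _
    rw [← hs] at h ⊢
    have ha := mul_self_nonneg a
    have hb := mul_self_nonneg b
    refine ⟨?_, ?_, ?_⟩
    · apply abs_le_of_sq_le_sq _ hs0
      linarith [sq a, sq s]
    · apply abs_le_of_sq_le_sq _ hs0
      linarith [sq b, sq s]
    · have h1 : s * s ≤ (|a| + |b|) * (|a| + |b|) := by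
        have e1 := abs_mul_abs_self a
        have e2 := abs_mul_abs_self b
        have e3 := mul_nonneg (abs_nonneg a) (abs_nonneg b)
        rw [h]
        linear_combination (-1) * e1 + (-1) * e2 + 2 * e3
      exact (mul_self_le_mul_self_iff hs0 (add_nonneg (abs_nonneg a) (abs_nonneg b))).2 h1

/-- P8a: absolute value on the algebraic closure of `R` -/
theorem exists_omega (R : Type) [Field R] [LinearOrder R] [IsStrictOrderedRing R]
    (hsq : ∀ r : R, 0 < r → ∃ s : R, s * s = r)
    (hodd : ∀ p : Polynomial R, Odd p.natDegree → ∃ r : R, p.IsRoot r) :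
    ∃ (i : AlgebraicClosure R) (av : AlgebraicClosure R → R), i * i = -1 ∧ IsAv av ∧
      (∀ z : AlgebraicClosure R, ∃ a b : R,
        z = algebraMap R (AlgebraicClosure R) a + algebraMap R (AlgebraicClosure R) b * i) ∧
      ∀ a b : R,
        |a| ≤ av (algebraMap R (AlgebraicClosure R) a + algebraMap R (AlgebraicClosure R) b * i) ∧
        |b| ≤ av (algebraMap R (AlgebraicClosure R) a + algebraMap R (AlgebraicClosure R) b * i) ∧
        av (algebraMap R (AlgebraicClosure R) a + algebraMap R (AlgebraicClosure R) b * i)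
          ≤ |a| + |b| := by
  obtain ⟨i, hi, hrep⟩ := fta R hsq hodd
  obtain ⟨av, hav, hcmp⟩ := av_of_rep (algebraMap R (AlgebraicClosure R)) i hi hrep hsq
  exact ⟨i, av, hi, hav, hrep, hcmp⟩

end Pool.Agent.SNIP
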