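import Mathlib
import Pool.Agent.SNIP.Def

/-!
P8b: construction of the field `L` and of its embeddings in `Ω`.
-/

set_option autoImplicit false

namespace Pool.Agent.SNIP

namespace P8b

section gen

variable {K R Ω F L : Type} [Field K] [LinearOrder K] [IsStrictOrderedRing K]
    [Field R] [LinearOrder R] [IsStrictOrderedRing R] [Field Ω] [Algebra R Ω]
    [Field F] [Algebra K F] [Field L] [Algebra K L] [Algebra F L] [IsScalarTower K F L]

/-- comparison of the absolute value with the coordinates -/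
def Cmp (av : Ω → R) (i : Ω) : Prop :=
  ∀ a b : R, |a| ≤ av (algebraMap R Ω a + algebraMap R Ω b * i) ∧
        |b| ≤ av (algebraMap R Ω a + algebraMap R Ω b * i) ∧
        av (algebraMap R Ω a + algebraMap R Ω b * i) ≤ |a| + |b|

lemma av_zero {av : Ω → R} (hav : IsAv av) {i : Ω} (hcmp : Cmp av i) : av 0 = 0 := by
  have h := (hcmp 0 0).2.2
  simp only [map_zero, zero_mul, add_zero, abs_zero] at h
  exact le_antisymm h (hav.nonneg 0)

lemma av_one {av : Ω → R} {i : Ω} (hcmp : Cmp av i) : av 1 = 1 := by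
  have h := hcmp 1 0
  simp only [map_zero, map_one, zero_mul, add_zero, abs_zero, abs_one] at h
  exact le_antisymm h.2.2 h.1

lemma av_pow {av : Ω → R} (hav : IsAv av) {i : Ω} (hcmp : Cmp av i) (x : Ω) (k : ℕ) :
    av (x ^ k) = av x ^ k := by
  induction k with
  | zero => rw [pow_zero, pow_zero, av_one hcmp]
  | succ k ih => rw [pow_succ, hav.mul, ih, pow_succ]

lemma av_sum {av : Ω → R} (hav : IsAv av) {i : Ω} (hcmp : Cmp av i) {ι : Type*} (s : Finset ι)
    (g : ι → Ω) : av (∑ k ∈ s, g k) ≤ ∑ k ∈ s, av (g k) := by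
  classical
  induction s using Finset.induction_on with
  | empty => simp [av_zero hav hcmp]
  | insert a s ha ih =>
    rw [Finset.sum_insert ha, Finset.sum_insert ha]
    exact (hav.add_le _ _).trans (by linarith)

omit [LinearOrder K] [IsStrictOrderedRing K] in
lemma exists_ge {f : K →+* R} (hdense : ∀ a b : R, a < b → ∃ c : K, a < f c ∧ f c < b) (r : R) :
    ∃ c : K, r ≤ f c := by
  obtain ⟨c, hc, _⟩ := hdense r (r + 1) (by linarith)
  exact ⟨c, hc.le⟩

/-- the general construction -/
theorem places_gen (f : K →+* R) (hf : StrictMono (f : K → R))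
    (hdense : ∀ a b : R, a < b → ∃ c : K, a < f c ∧ f c < b)
    (i : Ω) (av : Ω → R) (hav : IsAv av)
    (hrep : ∀ z : Ω, ∃ a b : R, z = algebraMap R Ω a + algebraMap R Ω b * i)
    (hcmp : Cmp av i)
    (bF : Module.Basis (Fin 2) K F) (φ : F →+* Ω)
    (hφ : ∀ x : F, φ x = algebraMap R Ω (f (bF.repr x 0)) + algebraMap R Ω (f (bF.repr x 1)) * i)
    (n : ℕ) (bL : Module.Basis (Fin (n + 2)) F L) (θ : L) (hb : ∀ k, bL k = θ ^ (k : ℕ))
    (ρ : Fin (n + 2) → Ω) (hρ : Function.Injective ρ)
    (σ : Fin (n + 2) → L →+* Ω) (hσF : ∀ j x, σ j (algebraMap F L x) = φ x)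
    (hσ : ∀ j, σ j θ = ρ j)
    (D : ℕ) (e : Fin 2 × Fin (n + 2) ≃ Fin (D + 1)) :
    ∃ C₁ : K, Places f av (bnorm ((bF.smulTower bL).reindex e)) n σ C₁ := by
  classical
  set b := (bF.smulTower bL).reindex e with hbdef
  -- coordinates
  have hcoord : ∀ (x : L) (l : Fin 2) (k : Fin (n + 2)),
      b.repr x (e (l, k)) = bF.repr (bL.repr x k) l := by
    intro x l k
    rw [hbdef, Module.Basis.repr_reindex_apply, Equiv.symm_apply_apply,
      Module.Basis.smulTower_repr]
  have hle : ∀ (x : L) (l : Fin 2) (k : Fin (n + 2)), |bF.repr (bL.repr x k) l| ≤ bnorm b x := by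
    intro x l k
    rw [← hcoord, bnorm]
    exact Finset.le_sup' (fun i => |b.repr x i|) (Finset.mem_univ (e (l, k)))
  have hge : ∀ (x : L) (M : K), (∀ l k, |bF.repr (bL.repr x k) l| ≤ M) → bnorm b x ≤ M := by
    intro x M h
    rw [bnorm]
    refine Finset.sup'_le _ _ fun j _ => ?_
    obtain ⟨⟨l, k⟩, rfl⟩ := e.surjective j
    rw [hcoord]
    exact h l k
  have hfabs : ∀ c : K, |f c| = f |c| := by
    intro c
    rcases le_total 0 c with h | h
    · rw [abs_of_nonneg h, abs_of_nonneg]
      have := hf.monotone h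
      rwa [map_zero] at this
    · rw [abs_of_nonpos h, abs_of_nonpos, map_neg]
      have := hf.monotone h
      rwa [map_zero] at this
  -- the embeddings in coordinates
  have hσx : ∀ (j : Fin (n + 2)) (x : L), σ j x = ∑ k, φ (bL.repr x k) * ρ j ^ (k : ℕ) := by
    intro j x
    conv_lhs => rw [← bL.sum_repr x, map_sum]
    refine Finset.sum_congr rfl fun k _ => ?_
    rw [Algebra.smul_def, map_mul, hσF, hb, map_pow, hσ]
  -- Vandermonde matrix
  set V : Matrix (Fin (n + 2)) (Fin (n + 2)) Ω := Matrix.vandermonde ρ with hV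
  have hdet : IsUnit V.det := by
    rw [isUnit_iff_ne_zero, hV, Matrix.det_vandermonde_ne_zero_iff]
    exact hρ
  have hVA : V * V⁻¹ = 1 := Matrix.mul_nonsing_inv V hdet
  have hAV : V⁻¹ * V = 1 := Matrix.nonsing_inv_mul V hdet
  have hσV : ∀ x : L, (fun j => σ j x) = V.mulVec fun k => φ (bL.repr x k) := by
    intro x
    funext j
    rw [hσx, Matrix.mulVec, dotProduct]
    refine Finset.sum_congr rfl fun k _ => ?_
    rw [hV, Matrix.vandermonde_apply, mul_comm]
  have hinv : ∀ (x : L) (k : Fin (n + 2)), φ (bL.repr x k) = ∑ j, V⁻¹ k j * σ j x := by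
    intro x k
    have h1 : (V⁻¹).mulVec (fun j => σ j x) = fun k => φ (bL.repr x k) := by
      rw [hσV, Matrix.mulVec_mulVec, hAV, Matrix.one_mulVec]
    have h2 := congrFun h1 k
    rw [← h2]
    rfl
  -- constants
  set S : R := ∑ j, ∑ k : Fin (n + 2), av (ρ j) ^ (k : ℕ) with hS
  set T : R := ∑ k, ∑ j, av (V⁻¹ k j) with hT
  have hS1 : ∀ j, ∑ k : Fin (n + 2), av (ρ j) ^ (k : ℕ) ≤ S := fun j =>
    Finset.single_le_sum (f := fun j => ∑ k : Fin (n + 2), av (ρ j) ^ (k : ℕ))
      (fun j _ => Finset.sum_nonneg fun k _ => pow_nonneg (hav.nonneg _) _) (Finset.mem_univ j)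
  have hS0 : 0 ≤ S := Finset.sum_nonneg fun j _ => Finset.sum_nonneg fun k _ =>
    pow_nonneg (hav.nonneg _) _
  have hT1 : ∀ k, ∑ j, av (V⁻¹ k j) ≤ T := fun k =>
    Finset.single_le_sum (f := fun k => ∑ j, av (V⁻¹ k j))
      (fun k _ => Finset.sum_nonneg fun j _ => hav.nonneg _) (Finset.mem_univ k)
  have hT0 : 0 ≤ T := Finset.sum_nonneg fun j _ => Finset.sum_nonneg fun k _ => hav.nonneg _
  obtain ⟨C₁, hC₁⟩ := exists_ge hdense (2 * S + T + 1)
  have hC0 : 0 < f C₁ := by linarith
  have hC0' : 0 < C₁ := by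
    rw [← hf.lt_iff_lt, map_zero]
    exact hC0
  refine ⟨C₁, ⟨hC0', ?_, ?_, ?_⟩⟩
  · -- le
    intro x j
    have hN : 0 ≤ bnorm b x := (abs_nonneg _).trans (hle x 0 0)
    have hfN : 0 ≤ f (bnorm b x) := by
      have := hf.monotone hN
      rwa [map_zero] at this
    have h1 : ∀ k, av (φ (bL.repr x k)) ≤ 2 * f (bnorm b x) := by
      intro k
      rw [hφ]
      refine (hcmp _ _).2.2.trans ?_
      rw [hfabs, hfabs]
      have h2 := hf.monotone (hle x 0 k)
      have h3 := hf.monotone (hle x 1 k)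
      linarith
    rw [hσx]
    refine (av_sum hav hcmp _ _).trans ?_
    calc ∑ k, av (φ (bL.repr x k) * ρ j ^ (k : ℕ))
        = ∑ k, av (φ (bL.repr x k)) * av (ρ j) ^ (k : ℕ) := by
          refine Finset.sum_congr rfl fun k _ => ?_
          rw [hav.mul, av_pow hav hcmp]
      _ ≤ ∑ k : Fin (n + 2), 2 * f (bnorm b x) * av (ρ j) ^ (k : ℕ) := by
          refine Finset.sum_le_sum fun k _ => ?_
          exact mul_le_mul_of_nonneg_right (h1 k) (pow_nonneg (hav.nonneg _) _)
      _ = 2 * f (bnorm b x) * ∑ k : Fin (n + 2), av (ρ j) ^ (k : ℕ) := by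
          rw [Finset.mul_sum]
      _ ≤ 2 * f (bnorm b x) * S := by
          refine mul_le_mul_of_nonneg_left (hS1 j) (by linarith)
      _ ≤ f (C₁ * bnorm b x) := by
          rw [map_mul]
          have : 2 * S ≤ f C₁ := by linarith
          nlinarith
  · -- ge
    intro x t ht
    have hft : 0 ≤ f t := (hav.nonneg _).trans (ht 0)
    refine hge x _ fun l k => ?_
    have h1 : av (φ (bL.repr x k)) ≤ f (C₁ * t) := by
      rw [hinv]
      refine (av_sum hav hcmp _ _).trans ?_
      calc ∑ j, av (V⁻¹ k j * σ j x)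
          = ∑ j, av (V⁻¹ k j) * av (σ j x) := by
            refine Finset.sum_congr rfl fun j _ => ?_
            rw [hav.mul]
        _ ≤ ∑ j, av (V⁻¹ k j) * f t := by
            refine Finset.sum_le_sum fun j _ => ?_
            exact mul_le_mul_of_nonneg_left (ht j) (hav.nonneg _)
        _ = (∑ j, av (V⁻¹ k j)) * f t := by rw [Finset.sum_mul]
        _ ≤ T * f t := mul_le_mul_of_nonneg_right (hT1 k) hft
        _ ≤ f (C₁ * t) := by
            rw [map_mul]
            exact mul_le_mul_of_nonneg_right (by linarith) hft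
    rw [hφ] at h1
    have h2 := hcmp (f (bF.repr (bL.repr x k) 0)) (f (bF.repr (bL.repr x k) 1))
    rw [← hf.le_iff_le, ← hfabs]
    fin_cases l
    · exact h2.1.trans h1
    · exact h2.2.1.trans h1
  · -- approx
    intro z η hη
    have hfη : 0 < f η := by
      have := hf hη
      rwa [map_zero] at this
    set y : Fin (n + 2) → Ω := (V⁻¹).mulVec z with hy
    have hVy : V.mulVec y = z := by
      rw [hy, Matrix.mulVec_mulVec, hVA, Matrix.one_mulVec]
    set ε : R := f η / (2 * (S + 1)) with hε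
    have hε0 : 0 < ε := by positivity
    have happ : ∀ k, ∃ u : F, av (φ u - y k) ≤ 2 * ε := by
      intro k
      obtain ⟨a, b', hab⟩ := hrep (y k)
      obtain ⟨c, hc1, hc2⟩ := hdense (a - ε) (a + ε) (by linarith)
      obtain ⟨d, hd1, hd2⟩ := hdense (b' - ε) (b' + ε) (by linarith)
      refine ⟨c • bF 0 + d • bF 1, ?_⟩
      have h0 : bF.repr (c • bF 0 + d • bF 1) 0 = c := by simp
      have h1 : bF.repr (c • bF 0 + d • bF 1) 1 = d := by simp
      rw [hφ, h0, h1, hab]
      have h3 : algebraMap R Ω (f c) + algebraMap R Ω (f d) * i -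
          (algebraMap R Ω a + algebraMap R Ω b' * i) =
          algebraMap R Ω (f c - a) + algebraMap R Ω (f d - b') * i := by
        rw [map_sub, map_sub]
        ring
      rw [h3]
      refine (hcmp _ _).2.2.trans ?_
      have h4 : |f c - a| ≤ ε := by
        rw [abs_le]
        constructor <;> linarith
      have h5 : |f d - b'| ≤ ε := by
        rw [abs_le]
        constructor <;> linarith
      linarith
    choose u hu using happ
    refine ⟨∑ k, u k • bL k, fun j => ?_⟩
    have hrepr : ∀ k, bL.repr (∑ k, u k • bL k) k = u k := by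
      intro k
      rw [Module.Basis.repr_sum_self]
    have hz : z j = ∑ k, y k * ρ j ^ (k : ℕ) := by
      rw [← hVy, Matrix.mulVec, dotProduct]
      refine Finset.sum_congr rfl fun k _ => ?_
      rw [hV, Matrix.vandermonde_apply, mul_comm]
    rw [hσx, hz, ← Finset.sum_sub_distrib]
    refine (av_sum hav hcmp _ _).trans ?_
    calc ∑ k, av (φ (bL.repr (∑ k, u k • bL k) k) * ρ j ^ (k : ℕ) - y k * ρ j ^ (k : ℕ))
        = ∑ k, av (φ (u k) - y k) * av (ρ j) ^ (k : ℕ) := by
          refine Finset.sum_congr rfl fun k _ => ?_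
          rw [hrepr, ← sub_mul, hav.mul, av_pow hav hcmp]
      _ ≤ ∑ k : Fin (n + 2), 2 * ε * av (ρ j) ^ (k : ℕ) := by
          refine Finset.sum_le_sum fun k _ => ?_
          exact mul_le_mul_of_nonneg_right (hu k) (pow_nonneg (hav.nonneg _) _)
      _ = 2 * ε * ∑ k : Fin (n + 2), av (ρ j) ^ (k : ℕ) := by rw [Finset.mul_sum]
      _ ≤ 2 * ε * S := mul_le_mul_of_nonneg_left (hS1 j) (by linarith)
      _ ≤ 2 * ε * (S + 1) := mul_le_mul_of_nonneg_left (by linarith) (by linarith)
      _ = f η := by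
          rw [hε]
          field_simp

end gen

end P8b

/-- P8b: construction of `L` -/
theorem exists_places (K R Ω : Type) [Field K] [LinearOrder K] [IsStrictOrderedRing K]
    [Field R] [LinearOrder R] [IsStrictOrderedRing R] [Field Ω] [Algebra R Ω] [IsAlgClosed Ω]
    (f : K →+* R) (hf : StrictMono (f : K → R))
    (halg : ∀ r : R, ∃ p : Polynomial K, p ≠ 0 ∧ p.eval₂ f r = 0)
    (hdense : ∀ a b : R, a < b → ∃ c : K, a < f c ∧ f c < b)
    (i : Ω) (av : Ω → R) (hi : i * i = -1) (hav : IsAv av)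
    (hrep : ∀ z : Ω, ∃ a b : R, z = algebraMap R Ω a + algebraMap R Ω b * i)
    (hcmp : ∀ a b : R, |a| ≤ av (algebraMap R Ω a + algebraMap R Ω b * i) ∧
        |b| ≤ av (algebraMap R Ω a + algebraMap R Ω b * i) ∧
        av (algebraMap R Ω a + algebraMap R Ω b * i) ≤ |a| + |b|)
    (r₀ : R) (hr₀ : ∀ c : K, f c ≠ r₀) :
    ∃ (L : Type) (_ : Field L) (_ : Algebra K L) (D : ℕ) (b : Module.Basis (Fin (D + 1)) K L)
      (n : ℕ) (σ : Fin (n + 2) → L →+* Ω) (C₁ : K), Places f av (bnorm b) n σ C₁ := by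
  classical
  haveI hfact : Fact (∀ r : K, r ^ 2 ≠ (-1 : K) + 0 * r) := ⟨fun r h => by
    have := sq_nonneg r
    rw [h] at this
    linarith [zero_mul r]⟩
  letI algKΩ : Algebra K Ω := ((algebraMap R Ω).comp f).toAlgebra
  have halgK : ∀ c : K, algebraMap K Ω c = algebraMap R Ω (f c) := fun c => rfl
  let F := QuadraticAlgebra K (-1) 0
  let φa : F →ₐ[K] Ω := QuadraticAlgebra.lift ⟨i, by rw [hi]; simp⟩
  have hφa : ∀ x : F, φa x = algebraMap R Ω (f x.re) + algebraMap R Ω (f x.im) * i := by
    intro x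
    change x.re • (1 : Ω) + x.im • i = _
    rw [Algebra.smul_def, Algebra.smul_def, mul_one, halgK, halgK]
  letI algF : Algebra F Ω := φa.toRingHom.toAlgebra
  have halgF : ∀ x : F, algebraMap F Ω x = φa x := fun x => rfl
  set r : Ω := algebraMap R Ω r₀ with hr
  have hint : IsIntegral F r := by
    obtain ⟨p, hp0, hp⟩ := halg r₀
    rw [← isAlgebraic_iff_isIntegral]
    refine ⟨p.map (algebraMap K F), ?_, ?_⟩
    · rwa [Ne, Polynomial.map_eq_zero]
    · rw [Polynomial.aeval_def, Polynomial.eval₂_map]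
      have h1 : (algebraMap F Ω).comp (algebraMap K F) = (algebraMap R Ω).comp f := by
        ext c
        change φa (algebraMap K F c) = _
        rw [φa.commutes]
        rfl
      rw [h1, hr, ← Polynomial.hom_eval₂, hp, map_zero]
  have hnot : r ∉ (algebraMap F Ω).range := by
    rintro ⟨x, hx⟩
    have h1 : algebraMap R Ω (f x.re) + algebraMap R Ω (f x.im) * i = r := by
      rw [← hφa]
      exact hx
    have h2 := (hcmp (f x.re - r₀) (f x.im)).1
    have h3 : algebraMap R Ω (f x.re - r₀) + algebraMap R Ω (f x.im) * i = 0 := by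
      rw [map_sub, ← hr, ← h1]
      ring
    rw [h3, P8b.av_zero hav hcmp] at h2
    have h4 : f x.re - r₀ = 0 := abs_eq_zero.1 (le_antisymm h2 (abs_nonneg _))
    exact hr₀ x.re (by linarith)
  set p := minpoly F r with hp
  have hirr : Irreducible p := minpoly.irreducible hint
  haveI : Fact (Irreducible p) := ⟨hirr⟩
  have hdeg : 2 ≤ p.natDegree := by
    have h1 := minpoly.natDegree_pos hint
    rw [← hp] at h1
    by_contra h2
    have h3 : p.natDegree = 1 := by omega
    exact hnot (minpoly.natDegree_eq_one_iff.1 h3)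
  obtain ⟨n, hn⟩ : ∃ n, p.natDegree = n + 2 := ⟨p.natDegree - 2, by omega⟩
  -- roots
  haveI : CharZero F := by
    haveI : CharZero K := inferInstance
    exact charZero_of_injective_algebraMap (algebraMap K F).injective
  have hsep : p.Separable := hirr.separable
  have hcard : ((p.map (algebraMap F Ω)).roots.toFinset).card = n + 2 := by
    have hs : (p.map (algebraMap F Ω)).Splits := IsAlgClosed.splits _
    have h1 : (p.map (algebraMap F Ω)).roots.Nodup :=
      Polynomial.nodup_roots ((Polynomial.separable_map _).2 hsep)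
    rw [Multiset.toFinset_card_of_nodup h1, ← hs.natDegree_eq_card_roots,
      Polynomial.natDegree_map, hn]
  let eρ := (Finset.equivFinOfCardEq hcard).symm
  let ρ : Fin (n + 2) → Ω := fun j => (eρ j : Ω)
  have hρinj : Function.Injective ρ := Subtype.val_injective.comp eρ.injective
  have hρroot : ∀ j, p.eval₂ (algebraMap F Ω) (ρ j) = 0 := by
    intro j
    have h1 := (eρ j).2
    rw [Multiset.mem_toFinset, Polynomial.mem_roots', Polynomial.IsRoot.def,
      Polynomial.eval_map] at h1
    exact h1.2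
  -- the field
  let L := AdjoinRoot p
  let pb := AdjoinRoot.powerBasis hirr.ne_zero
  have hdim : pb.dim = n + 2 := by
    rw [← hn]
    exact AdjoinRoot.powerBasis_dim hirr.ne_zero
  let bL : Module.Basis (Fin (n + 2)) F L := pb.basis.reindex (finCongr hdim)
  let σ : Fin (n + 2) → L →+* Ω := fun j => AdjoinRoot.lift (algebraMap F Ω) (ρ j) (hρroot j)
  let bF : Module.Basis (Fin 2) K F := QuadraticAlgebra.basis (-1) 0
  have hD : Fintype.card (Fin 2 × Fin (n + 2)) = (2 * n + 3) + 1 := by
    simp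
    ring
  obtain ⟨C₁, hC₁⟩ := P8b.places_gen f hf hdense i av hav hrep hcmp bF (algebraMap F Ω)
    (fun x => hφa x) n bL (AdjoinRoot.root p)
    (by
      intro k
      change pb.basis.reindex (finCongr hdim) k = _
      rw [Module.Basis.reindex_apply, PowerBasis.coe_basis]
      rfl)
    ρ hρinj σ
    (by
      intro j x
      change AdjoinRoot.lift (algebraMap F Ω) (ρ j) (hρroot j) (AdjoinRoot.of p x) = _
      rw [AdjoinRoot.lift_of])
    (by
      intro j
      exact AdjoinRoot.lift_root (hρroot j))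
    (2 * n + 3) (Fintype.equivFinOfCardEq hD)
  exact ⟨L, inferInstance, inferInstance, 2 * n + 3, _, n, σ, C₁, hC₁⟩

end Pool.Agent.SNIP
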