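import Mathlib
import Pool.Agent.SNIP.Def

set_option autoImplicit false

/-!
Piece P8c: the sup norm in coordinates is a norm, and places give `EXq` and `FINq`.
-/

namespace Pool.Agent.SNIP

namespace P8c

section Av

variable {R Ω : Type} [Field R] [LinearOrder R] [IsStrictOrderedRing R] [Field Ω] {av : Ω → R}

theorem av_one (h : IsAv av) : av 1 = 1 := by
  have h1 := h.mul 1 1
  rw [mul_one] at h1
  have h2 : av 1 ≠ 0 := fun h3 => one_ne_zero (h.eq_zero 1 h3)
  exact mul_left_cancel₀ h2 (by rw [← h1, mul_one])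

theorem av_zero (h : IsAv av) (x : Ω) (hx : av x < 1) : av 0 = 0 := by
  have h1 := h.mul 0 x
  rw [zero_mul] at h1
  have h2 : av 0 * (1 - av x) = 0 := by rw [mul_sub, mul_one, ← h1, sub_self]
  rcases mul_eq_zero.1 h2 with h3 | h3
  · exact h3
  · exfalso; linarith

theorem av_neg_one (h : IsAv av) : av (-1) = 1 := by
  have h1 := h.mul (-1) (-1)
  rw [neg_mul_neg, mul_one, av_one h] at h1
  have h2 := h.nonneg (-1)
  nlinarith

theorem av_neg (h : IsAv av) (x : Ω) : av (-x) = av x := by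
  rw [← neg_one_mul, h.mul, av_neg_one h, one_mul]

theorem av_sub_le (h : IsAv av) (x y : Ω) : av (x - y) ≤ av x + av y := by
  have := h.add_le x (-y)
  rwa [av_neg h, ← sub_eq_add_neg] at this

theorem av_sub_comm (h : IsAv av) (x y : Ω) : av (x - y) = av (y - x) := by
  rw [← av_neg h, neg_sub]

theorem av_ge_sub (h : IsAv av) (x y : Ω) : av y - av (x - y) ≤ av x := by
  have h1 := av_sub_le h x (x - y)
  rw [sub_sub_cancel] at h1
  linarith

theorem av_pos (h : IsAv av) {x : Ω} (hx : x ≠ 0) : 0 < av x :=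
  lt_of_le_of_ne (h.nonneg x) (fun h1 => hx (h.eq_zero x h1.symm))

theorem av_pow (h : IsAv av) (x : Ω) (n : ℕ) : av (x ^ n) = av x ^ n := by
  induction n with
  | zero => rw [pow_zero, pow_zero, av_one h]
  | succ n ih => rw [pow_succ, pow_succ, h.mul, ih]

theorem av_inv (h : IsAv av) {x : Ω} (hx : x ≠ 0) : av x⁻¹ = (av x)⁻¹ := by
  have h1 := h.mul x x⁻¹
  rw [mul_inv_cancel₀ hx, av_one h] at h1
  exact eq_inv_of_mul_eq_one_right h1.symm

theorem av_prod (h : IsAv av) {ι : Type*} (s : Finset ι) (g : ι → Ω) :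
    av (∏ i ∈ s, g i) = ∏ i ∈ s, av (g i) := by
  classical
  induction s using Finset.induction_on with
  | empty => rw [Finset.prod_empty, Finset.prod_empty, av_one h]
  | insert a s ha ih => rw [Finset.prod_insert ha, Finset.prod_insert ha, h.mul, ih]

theorem av_root (h : IsAv av) {x : Ω} {q : ℕ} (hq : 1 ≤ q) (hx : x ^ q = 1) : av x = 1 := by
  have h1 : av x ^ q = 1 := by rw [← av_pow h, hx, av_one h]
  exact (pow_eq_one_iff_of_nonneg (h.nonneg x) (by omega)).1 h1

theorem av_pow_sub_le (h : IsAv av) (h0 : av 0 = 0) (a b : Ω) (ha : av a ≤ 2) (hb : av b ≤ 2)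
    (q : ℕ) : av (a ^ q - b ^ q) ≤ (q : R) * 2 ^ q * av (a - b) := by
  induction q with
  | zero => simp [h0]
  | succ q ih =>
    have e : a ^ (q + 1) - b ^ (q + 1) = a * (a ^ q - b ^ q) + (a - b) * b ^ q := by ring
    rw [e]
    have h1 := h.add_le (a * (a ^ q - b ^ q)) ((a - b) * b ^ q)
    rw [h.mul, h.mul, av_pow h] at h1
    have h2 : av b ^ q ≤ 2 ^ q := pow_le_pow_left₀ (h.nonneg b) hb q
    have h3 : av a * av (a ^ q - b ^ q) ≤ 2 * ((q : R) * 2 ^ q * av (a - b)) :=
      mul_le_mul ha ih (h.nonneg _) (by norm_num)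
    have h4 : av (a - b) * av b ^ q ≤ av (a - b) * 2 ^ q :=
      mul_le_mul_of_nonneg_left h2 (h.nonneg _)
    have h5 : 0 ≤ av (a - b) * 2 ^ q := mul_nonneg (h.nonneg _) (by positivity)
    push_cast
    rw [pow_succ (2 : R) q]
    nlinarith

theorem exists_sep (h : IsAv av) (S : Finset Ω) :
    ∃ δ : R, 0 < δ ∧ ∀ x ∈ S, ∀ y ∈ S, av (x - y) < δ → x = y := by
  classical
  by_cases hne : S.offDiag.Nonempty
  · obtain ⟨p, hp, hmin⟩ := Finset.exists_min_image S.offDiag (fun p => av (p.1 - p.2)) hne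
    rw [Finset.mem_offDiag] at hp
    refine ⟨av (p.1 - p.2), av_pos h (sub_ne_zero.2 hp.2.2), ?_⟩
    intro x hx y hy hxy
    by_contra hne'
    have := hmin (x, y) (Finset.mem_offDiag.2 ⟨hx, hy, hne'⟩)
    exact absurd hxy (not_lt.2 this)
  · refine ⟨1, one_pos, ?_⟩
    intro x hx y hy _
    by_contra hne'
    exact hne ⟨(x, y), Finset.mem_offDiag.2 ⟨hx, hy, hne'⟩⟩

/-- If `a ^ q` and `b ^ q` are close then `a` is close to `ρ * b` for a root of unity `ρ`. -/
theorem exists_near_root (h : IsAv av) [IsAlgClosed Ω] [CharZero Ω] {q : ℕ} (hq : 1 ≤ q)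
    (a b : Ω) (hb : b ≠ 0) (ε : R) (hε : 0 < ε)
    (hab : av (a ^ q - b ^ q) ≤ (ε * av b) ^ q) :
    ∃ ρ ∈ Polynomial.nthRootsFinset q (1 : Ω), av (a - ρ * b) ≤ ε * av b := by
  have hq0 : NeZero (q : Ω) := ⟨by exact_mod_cast (by omega : q ≠ 0)⟩
  obtain ⟨ζ, hζ⟩ := HasEnoughRootsOfUnity.exists_primitiveRoot Ω q
  by_contra hcon
  push Not at hcon
  have hfac := hζ.pow_sub_pow_eq_prod_sub_mul a b (by omega)
  rw [hfac, av_prod h] at hab
  have hcard : (Polynomial.nthRootsFinset q (1 : Ω)).card = q := hζ.card_nthRootsFinset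
  have hpos : 0 < ε * av b := mul_pos hε (av_pos h hb)
  have hne : (Polynomial.nthRootsFinset q (1 : Ω)).Nonempty := by
    rw [← Finset.card_pos, hcard]; omega
  have : ∏ ρ ∈ Polynomial.nthRootsFinset q (1 : Ω), (ε * av b) <
      ∏ ρ ∈ Polynomial.nthRootsFinset q (1 : Ω), av (a - ρ * b) :=
    Finset.prod_lt_prod_of_nonempty (fun i _ => hpos) (fun i hi => hcon i hi) hne
  rw [Finset.prod_const, hcard] at this
  exact absurd hab (not_le.2 this)

end Av

end P8c

open P8c

/-- the sup norm satisfies the axioms -/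
theorem bnorm_isN {K L : Type} [Field K] [LinearOrder K] [IsStrictOrderedRing K]
    [Field L] [Algebra K L] {D : ℕ} (b : Module.Basis (Fin (D + 1)) K L) :
    ∃ C : K, IsN (bnorm b) C := by
  classical
  have hle : ∀ (x : L) (i : Fin (D + 1)), |b.repr x i| ≤ bnorm b x := by
    intro x i
    exact Finset.le_sup' (fun i => |b.repr x i|) (Finset.mem_univ i)
  have hsup : ∀ (x : L) (t : K), (∀ i, |b.repr x i| ≤ t) → bnorm b x ≤ t := by
    intro x t h
    exact Finset.sup'_le _ _ (fun i _ => h i)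
  have hnn : ∀ x, 0 ≤ bnorm b x := fun x => le_trans (abs_nonneg _) (hle x 0)
  have hadd : ∀ x y, bnorm b (x + y) ≤ bnorm b x + bnorm b y := by
    intro x y
    apply hsup
    intro i
    rw [map_add, Finsupp.add_apply]
    exact le_trans (abs_add_le _ _) (add_le_add (hle x i) (hle y i))
  have h0 : bnorm b 0 = 0 := by
    apply le_antisymm _ (hnn 0)
    apply hsup
    intro i
    simp
  have hsmul : ∀ (k : K) (x : L), bnorm b (k • x) = |k| * bnorm b x := by
    intro k x
    apply le_antisymm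
    · apply hsup
      intro i
      rw [map_smul, Finsupp.smul_apply, smul_eq_mul, abs_mul]
      exact mul_le_mul_of_nonneg_left (hle x i) (abs_nonneg k)
    · rcases eq_or_ne k 0 with hk | hk
      · rw [hk, abs_zero, zero_mul]; exact hnn _
      · have hk' : 0 < |k| := abs_pos.2 hk
        rw [← le_div_iff₀' hk']
        apply hsup
        intro i
        rw [le_div_iff₀' hk', ← abs_mul]
        have := hle (k • x) i
        rwa [map_smul, Finsupp.smul_apply, smul_eq_mul] at this
  have hsum : ∀ (s : Finset (Fin (D + 1))) (g : Fin (D + 1) → L),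
      bnorm b (∑ i ∈ s, g i) ≤ ∑ i ∈ s, bnorm b (g i) := by
    intro s g
    induction s using Finset.induction_on with
    | empty => rw [Finset.sum_empty, Finset.sum_empty, h0]
    | insert a s ha ih =>
      rw [Finset.sum_insert ha, Finset.sum_insert ha]
      exact le_trans (hadd _ _) (add_le_add le_rfl ih)
  set S : K := ∑ i, ∑ j, bnorm b (b i * b j) with hS
  have hSnn : 0 ≤ S := Finset.sum_nonneg fun i _ => Finset.sum_nonneg fun j _ => hnn _
  have hmul : ∀ x y, bnorm b (x * y) ≤ S * bnorm b x * bnorm b y := by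
    intro x y
    have e : x * y = ∑ i, ∑ j, (b.repr x i * b.repr y j) • (b i * b j) := by
      conv_lhs => rw [← b.sum_repr x, ← b.sum_repr y]
      rw [Finset.sum_mul_sum]
      refine Finset.sum_congr rfl fun i _ => Finset.sum_congr rfl fun j _ => ?_
      rw [smul_mul_smul_comm]
    rw [e]
    calc bnorm b (∑ i, ∑ j, (b.repr x i * b.repr y j) • (b i * b j))
        ≤ ∑ i, bnorm b (∑ j, (b.repr x i * b.repr y j) • (b i * b j)) := hsum _ _
      _ ≤ ∑ i, ∑ j, bnorm b ((b.repr x i * b.repr y j) • (b i * b j)) :=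
          Finset.sum_le_sum fun i _ => hsum _ _
      _ ≤ ∑ i, ∑ j, (bnorm b x * bnorm b y) * bnorm b (b i * b j) := by
          refine Finset.sum_le_sum fun i _ => Finset.sum_le_sum fun j _ => ?_
          rw [hsmul, abs_mul]
          have := hle x i
          have := hle y j
          have := hnn x
          have := hnn y
          have := hnn (b i * b j)
          gcongr
      _ = S * bnorm b x * bnorm b y := by
          simp only [← Finset.mul_sum]
          rw [hS]; ring
  refine ⟨1 + S + bnorm b 1, ?_⟩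
  have h1 := hnn 1
  refine ⟨by linarith, hnn, ?_, hadd, hsmul, ?_, by linarith⟩
  · intro x hx
    have : b.repr x = 0 := by
      ext i
      have := hle x i
      rw [hx] at this
      have h2 := abs_nonneg (b.repr x i)
      have h3 : |b.repr x i| = 0 := le_antisymm this h2
      simpa using abs_eq_zero.1 h3
    exact b.repr.map_eq_zero_iff.1 this
  · intro x y
    refine le_trans (hmul x y) ?_
    have := hnn x
    have := hnn y
    gcongr
    linarith

/-- P8c -/
theorem places_ex {K L R Ω : Type} [Field K] [LinearOrder K] [IsStrictOrderedRing K]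
    [Field L] [Algebra K L] [Field R] [LinearOrder R] [IsStrictOrderedRing R] [Field Ω]
    [IsAlgClosed Ω] [CharZero Ω] (f : K →+* R) (hf : StrictMono (f : K → R))
    (hcof : ∀ r : R, 0 < r → ∃ k : K, 0 < k ∧ f k < r)
    (av : Ω → R) (hav : IsAv av) (N : L → K) (C : K) (hN : IsN N C) (n : ℕ)
    (σ : Fin (n + 2) → L →+* Ω) (C₁ : K) (hP : Places f av N n σ C₁) (q : ℕ) (hq : 2 ≤ q) :
    EXq N q := by
  classical
  have hq0 : NeZero (q : Ω) := ⟨by exact_mod_cast (by omega : q ≠ 0)⟩
  obtain ⟨ζ, hζ⟩ := HasEnoughRootsOfUnity.exists_primitiveRoot Ω q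
  have hζ1 : ζ ≠ 1 := hζ.ne_one (by omega)
  have hζav : av ζ = 1 := av_root hav (by omega) hζ.pow_eq_one
  have hC₁ := hP.pos
  obtain ⟨δR, hδR, hsep⟩ := exists_sep hav (Polynomial.nthRootsFinset q (1 : Ω))
  obtain ⟨κ, hκ, hκ'⟩ := hcof δR hδR
  have hmono : ∀ {a b : K}, a ≤ b → f a ≤ f b := fun h => hf.monotone h
  have h2 : f 2 = 2 := map_ofNat f 2
  have hhalf : f (1 / 2) = 1 / 2 := by rw [map_div₀, map_one, h2]
  -- the value at zero
  have h0 : av 0 = 0 := by
    obtain ⟨x, hx⟩ := hP.approx (fun _ => 0) (1 / 2) (by norm_num)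
    refine av_zero hav (σ 0 x - 0) (lt_of_le_of_lt (hx 0) ?_)
    rw [hhalf]; norm_num
  -- the constants
  set E : K := 2 * C₁ + 1 with hE
  have hEpos : 0 < E := by positivity
  set δ₀ : K := min (1 / (2 * E)) (κ / (2 * E)) with hδ₀
  have hδ₀pos : 0 < δ₀ := lt_min (by positivity) (by positivity)
  have hδE1 : E * δ₀ ≤ 1 / 2 := by
    have : δ₀ ≤ 1 / (2 * E) := min_le_left _ _
    calc E * δ₀ ≤ E * (1 / (2 * E)) := by gcongr
      _ = 1 / 2 := by field_simp
  have hδE2 : 2 * (E * δ₀) ≤ κ := by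
    have : δ₀ ≤ κ / (2 * E) := min_le_right _ _
    calc 2 * (E * δ₀) ≤ 2 * (E * (κ / (2 * E))) := by gcongr
      _ = κ := by field_simp
  set B : K := 2 * C₁ + C₁ * ((C₁ + 1) * ((q : K) * 2 ^ q)) with hB
  have hBpos : 0 < B := by positivity
  refine ⟨δ₀, hδ₀pos, B, hBpos, ?_⟩
  intro η hη hηδ
  set z : Fin (n + 2) → Ω := fun j => if j = 0 then ζ else 1 with hz
  have hzq : ∀ j, z j ^ q = 1 := by
    intro j
    simp only [hz]
    split_ifs
    · exact hζ.pow_eq_one
    · exact one_pow q
  have hzav : ∀ j, av (z j) = 1 := fun j => av_root hav (by omega) (hzq j)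
  obtain ⟨g₀, hg₀⟩ := hP.approx z η hη
  refine ⟨g₀, ?_⟩
  intro g hg
  -- `g` is near `z` at all places
  have hclose : ∀ j, av (σ j g - z j) ≤ f ((C₁ + 1) * η) := by
    intro j
    have e : σ j g - z j = σ j (g - g₀) + (σ j g₀ - z j) := by rw [map_sub]; ring
    rw [e]
    have h1 := hav.add_le (σ j (g - g₀)) (σ j g₀ - z j)
    have h3 := hP.le (g - g₀) j
    have h4 : f (C₁ * N (g - g₀)) ≤ f (C₁ * η) := hmono (by gcongr)
    have h5 := hg₀ j
    have h6 : f ((C₁ + 1) * η) = f (C₁ * η) + f η := by rw [← map_add]; congr 1; ring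
    rw [h6]
    linarith
  have hsmall : (C₁ + 1) * η ≤ 1 / 2 := by
    have : (C₁ + 1) * η ≤ E * δ₀ := by
      have : C₁ + 1 ≤ E := by rw [hE]; linarith
      gcongr
    linarith
  have hclose' : ∀ j, av (σ j g - z j) ≤ 1 / 2 := by
    intro j
    have := hclose j
    have h3 := hmono hsmall
    rw [hhalf] at h3
    linarith
  have hup : ∀ j, av (σ j g) ≤ 2 := by
    intro j
    have h1 := hav.add_le (σ j g - z j) (z j)
    rw [sub_add_cancel] at h1
    have := hclose' j
    have := hzav j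
    linarith
  have hlow : ∀ j, 1 / 2 ≤ av (σ j g) := by
    intro j
    have h1 := av_ge_sub hav (σ j g) (z j)
    have := hclose' j
    have := hzav j
    linarith
  have hg0 : g ≠ 0 := by
    rintro rfl
    have := hlow 0
    rw [map_zero, h0] at this
    norm_num at this
  refine ⟨?_, ?_, ?_, ?_⟩
  · have h1 := hP.ge g 2 (fun j => by rw [h2]; exact hup j)
    have h3 : 0 ≤ C₁ * ((C₁ + 1) * ((q : K) * 2 ^ q)) := by positivity
    rw [hB]; linarith
  · have h1 := hP.ge g⁻¹ 2 (fun j => by
      rw [h2, map_inv₀, av_inv hav (by simpa using hg0)]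
      have := hlow j
      rw [inv_le_comm₀ (by linarith) (by norm_num)]
      norm_num at this ⊢
      exact this)
    have h3 : 0 ≤ C₁ * ((C₁ + 1) * ((q : K) * 2 ^ q)) := by positivity
    rw [hB]; linarith
  · have h1 := hP.ge (g ^ q - 1) ((q : K) * 2 ^ q * ((C₁ + 1) * η)) (fun j => by
      rw [map_sub, map_pow, map_one, ← hzq j]
      refine le_trans (av_pow_sub_le hav h0 (σ j g) (z j) (hup j) (by rw [hzav j]; norm_num) q) ?_
      rw [map_mul f, map_mul f, map_natCast, map_pow, h2]
      exact mul_le_mul_of_nonneg_left (hclose j) (by positivity))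
    refine le_trans h1 ?_
    have h3 : 0 ≤ 2 * C₁ * η := by positivity
    calc C₁ * ((q : K) * 2 ^ q * ((C₁ + 1) * η))
        = C₁ * ((C₁ + 1) * ((q : K) * 2 ^ q)) * η := by ring
      _ ≤ B * η := by rw [hB, add_mul]; linarith
  · intro y hy hyg
    have hyclose : ∀ j, av (σ j y - 1) ≤ f (C₁ * δ₀) := by
      intro j
      have h1 := hP.le (y - 1) j
      rw [map_sub, map_one] at h1
      exact le_trans h1 (hmono (by have := hy.le; gcongr))
    have hCδ : C₁ * δ₀ ≤ 1 / 2 := by
      have : C₁ * δ₀ ≤ E * δ₀ := by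
        have : C₁ ≤ E := by rw [hE]; linarith
        gcongr
      linarith
    have hylow : ∀ j, 1 / 2 ≤ av (σ j y) := by
      intro j
      have h1 := av_ge_sub hav (σ j y) 1
      have h3 := hyclose j
      have h4 := hmono hCδ
      rw [hhalf] at h4
      rw [av_one hav] at h1
      linarith
    have hy0 : y ≠ 0 := by
      rintro rfl
      have := hylow 0
      rw [map_zero, h0] at this
      norm_num at this
    set ξ : L := g / y with hξ
    have hξq : ξ ^ q = 1 := by
      rw [hξ, div_pow, hyg, div_self (pow_ne_zero q hg0)]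
    have hξroot : ∀ j, σ j ξ ∈ Polynomial.nthRootsFinset q (1 : Ω) := by
      intro j
      rw [Polynomial.mem_nthRootsFinset (by omega), ← map_pow, hξq, map_one]
    have hzroot : ∀ j, z j ∈ Polynomial.nthRootsFinset q (1 : Ω) := by
      intro j
      rw [Polynomial.mem_nthRootsFinset (by omega), hzq j]
    have hkey : ∀ j, σ j ξ = z j := by
      intro j
      apply hsep _ (hξroot j) _ (hzroot j)
      have hσy : σ j y ≠ 0 := by simpa using hy0
      have e : σ j ξ - z j = ((σ j g - z j) - z j * (σ j y - 1)) * (σ j y)⁻¹ := by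
        rw [hξ, map_div₀]; field_simp; ring
      rw [e, hav.mul, av_inv hav hσy]
      have h1 : av ((σ j g - z j) - z j * (σ j y - 1)) ≤ f (E * δ₀) := by
        have h3 := av_sub_le hav (σ j g - z j) (z j * (σ j y - 1))
        rw [hav.mul, hzav j, one_mul] at h3
        have h4 : f (E * δ₀) = f ((C₁ + 1) * δ₀) + f (C₁ * δ₀) := by
          rw [← map_add, hE]; congr 1; ring
        have h5 : f ((C₁ + 1) * η) ≤ f ((C₁ + 1) * δ₀) := hmono (by gcongr)
        have := hclose j
        have := hyclose j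
        rw [h4]; linarith
      have h3 : (av (σ j y))⁻¹ ≤ 2 := by
        have := hylow j
        rw [inv_le_comm₀ (by linarith) (by norm_num)]
        norm_num at this ⊢
        exact this
      have h4 : f (2 * (E * δ₀)) ≤ f κ := hmono hδE2
      rw [map_mul, h2] at h4
      have hfE : 0 ≤ f (E * δ₀) := le_trans (hav.nonneg _) h1
      calc av ((σ j g - z j) - z j * (σ j y - 1)) * (av (σ j y))⁻¹
          ≤ f (E * δ₀) * 2 := mul_le_mul h1 h3 (inv_nonneg.2 (hav.nonneg _)) hfE
        _ = 2 * f (E * δ₀) := by ring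
        _ ≤ f κ := h4
        _ < δR := hκ'
    have h1 : σ 1 ξ = 1 := by
      rw [hkey 1, hz]
      simp
    have h3 : ξ = 1 := (σ 1).injective (by rw [h1, map_one])
    have h4 : σ 0 ξ = ζ := by
      rw [hkey 0, hz]
      simp
    rw [h3, map_one] at h4
    exact hζ1 h4.symm

theorem places_fin {K L R Ω : Type} [Field K] [LinearOrder K] [IsStrictOrderedRing K]
    [Field L] [Algebra K L] [Field R] [LinearOrder R] [IsStrictOrderedRing R] [Field Ω]
    [IsAlgClosed Ω] [CharZero Ω] (f : K →+* R) (hf : StrictMono (f : K → R))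
    (hcof : ∀ r : R, 0 < r → ∃ k : K, 0 < k ∧ f k < r)
    (av : Ω → R) (hav : IsAv av) (N : L → K) (C : K) (hN : IsN N C) (n : ℕ)
    (σ : Fin (n + 2) → L →+* Ω) (C₁ : K) (hP : Places f av N n σ C₁) (q : ℕ) (hq : 2 ≤ q)
    (hidx : FinIndex L q) : FINq N q := by
  classical
  intro δ hδ δ₂ hδ₂
  obtain ⟨T, hT⟩ := hidx
  have hC₁ := hP.pos
  have hmono : ∀ {a b : K}, a ≤ b → f a ≤ f b := fun h => hf.monotone h
  have h2 : f 2 = 2 := map_ofNat f 2
  have hhalf : f (1 / 2) = 1 / 2 := by rw [map_div₀, map_one, h2]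
  have h0 : av 0 = 0 := by
    obtain ⟨x, hx⟩ := hP.approx (fun _ => 0) (1 / 2) (by norm_num)
    refine av_zero hav (σ 0 x - 0) (lt_of_le_of_lt (hx 0) ?_)
    rw [hhalf]; norm_num
  set ε : K := min (1 / 2) (δ / (8 * C₁)) with hε
  have hεpos : 0 < ε := lt_min (by norm_num) (by positivity)
  have hε1 : ε ≤ 1 / 2 := min_le_left _ _
  have hε2 : C₁ * (4 * ε) < δ := by
    have : ε ≤ δ / (8 * C₁) := min_le_right _ _
    calc C₁ * (4 * ε) ≤ C₁ * (4 * (δ / (8 * C₁))) := by gcongr
      _ = δ / 2 := by field_simp; ring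
      _ < δ := by linarith
  set δ₁ : K := min δ₂ (min (1 / (2 * C₁)) (ε ^ q / (4 * C₁))) with hδ₁
  have hδ₁pos : 0 < δ₁ := lt_min hδ₂ (lt_min (by positivity) (by positivity))
  have hδa : C₁ * δ₁ ≤ 1 / 2 := by
    have : δ₁ ≤ 1 / (2 * C₁) := le_trans (min_le_right _ _) (min_le_left _ _)
    calc C₁ * δ₁ ≤ C₁ * (1 / (2 * C₁)) := by gcongr
      _ = 1 / 2 := by field_simp
  have hδb : 4 * (C₁ * δ₁) ≤ ε ^ q := by
    have : δ₁ ≤ ε ^ q / (4 * C₁) := le_trans (min_le_right _ _) (min_le_right _ _)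
    calc 4 * (C₁ * δ₁) ≤ 4 * (C₁ * (ε ^ q / (4 * C₁))) := by gcongr
      _ = ε ^ q := by field_simp
  -- elements near one
  have hnear : ∀ u : L, N (u - 1) < δ₁ → ∀ j, av (σ j u - 1) ≤ f (C₁ * δ₁) := by
    intro u hu j
    have h1 := hP.le (u - 1) j
    rw [map_sub, map_one] at h1
    exact le_trans h1 (hmono (by have := hu.le; gcongr))
  have hnear0 : ∀ u : L, N (u - 1) < δ₁ → ∀ j, 1 / 2 ≤ av (σ j u) := by
    intro u hu j
    have h1 := av_ge_sub hav (σ j u) 1
    have h3 := hnear u hu j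
    have h4 := hmono hδa
    rw [hhalf] at h4
    rw [av_one hav] at h1
    linarith
  have hne : ∀ u : L, N (u - 1) < δ₁ → u ≠ 0 := by
    rintro u hu rfl
    have := hnear0 0 hu 0
    rw [map_zero, h0] at this
    norm_num at this
  have hN1 : N ((1 : L) - 1) < δ₁ := by
    have h1 := hN.smul_eq 0 0
    rw [abs_zero, zero_mul, zero_smul] at h1
    rw [sub_self, h1]; exact hδ₁pos
  -- reference elements of the cosets
  set zt : L → L := fun t => if h : ∃ z : L, N (t * z ^ q - 1) < δ₁ then h.choose else 1 with hzt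
  have hzt' : ∀ t z : L, N (t * z ^ q - 1) < δ₁ → N (t * zt t ^ q - 1) < δ₁ := by
    intro t z hz
    have h : ∃ z : L, N (t * z ^ q - 1) < δ₁ := ⟨z, hz⟩
    simp only [hzt, dif_pos h]
    exact h.choose_spec
  set μ := Polynomial.nthRootsFinset q (1 : Ω) with hμ
  set P : L → (Fin (n + 2) → Ω) → L → Prop := fun t ρ z =>
    N (t * z ^ q - 1) < δ₁ ∧ ∀ j, av (σ j z - ρ j * σ j (zt t)) ≤ f ε * av (σ j (zt t)) with hPdef
  set w : L × (Fin (n + 2) → Ω) → L := fun p =>
    if h : ∃ z : L, P p.1 p.2 z then p.1 * h.choose ^ q else 1 with hw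
  refine ⟨δ₁, hδ₁pos, min_le_left _ _, (T ×ˢ Fintype.piFinset (fun _ => μ)).image w, ?_, ?_⟩
  · intro x hx
    obtain ⟨p, _, rfl⟩ := Finset.mem_image.1 hx
    simp only [hw]
    split_ifs with h
    · exact h.choose_spec.1
    · exact hN1
  · intro u hu
    have hu0 := hne u hu
    obtain ⟨t, ht, z, rfl⟩ := hT u hu0
    have ht0 : t ≠ 0 := left_ne_zero_of_mul hu0
    have hz0 : z ≠ 0 := by
      rintro rfl
      rw [zero_pow (by omega), mul_zero] at hu0
      exact hu0 rfl
    have hr := hzt' t z hu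
    have hr0 : zt t ≠ 0 := by
      intro h
      have := hne _ hr
      rw [h, zero_pow (by omega), mul_zero] at this
      exact this rfl
    have hfε : 0 < f ε := by
      have := hf hεpos
      rwa [map_zero] at this
    have hex : ∀ j, ∃ ρ ∈ μ, av (σ j z - ρ * σ j (zt t)) ≤ f ε * av (σ j (zt t)) := by
      intro j
      have hb : σ j (zt t) ≠ 0 := by simpa using hr0
      refine exists_near_root hav (by omega) _ _ hb (f ε) hfε ?_
      have htj : σ j t ≠ 0 := by simpa using ht0
      have htpos := av_pos hav htj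
      have h1 : av (σ j t) * av (σ j z ^ q - σ j (zt t) ^ q) ≤ 2 * f (C₁ * δ₁) := by
        rw [← hav.mul]
        have e : σ j t * (σ j z ^ q - σ j (zt t) ^ q) =
            (σ j (t * z ^ q) - 1) - (σ j (t * zt t ^ q) - 1) := by
          rw [map_mul, map_mul, map_pow, map_pow]; ring
        rw [e]
        have h3 := av_sub_le hav (σ j (t * z ^ q) - 1) (σ j (t * zt t ^ q) - 1)
        have h4 := hnear _ hu j
        have h5 := hnear _ hr j
        linarith
      have h3 : 1 / 2 ≤ av (σ j t) * av (σ j (zt t)) ^ q := by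
        have := hnear0 _ hr j
        rwa [map_mul, hav.mul, map_pow, av_pow hav] at this
      have h4 : 4 * f (C₁ * δ₁) ≤ f ε ^ q := by
        have := hmono hδb
        rw [map_mul, map_pow] at this
        have h44 : f 4 = 4 := map_ofNat f 4
        rwa [h44] at this
      have h5 : 0 ≤ f (C₁ * δ₁) := le_trans (hav.nonneg _) (hnear _ hu 0)
      rw [mul_pow]
      have h6 : av (σ j t) * av (σ j z ^ q - σ j (zt t) ^ q) ≤
          av (σ j t) * (f ε ^ q * av (σ j (zt t)) ^ q) := by
        calc av (σ j t) * av (σ j z ^ q - σ j (zt t) ^ q) ≤ 2 * f (C₁ * δ₁) := h1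
          _ = 4 * f (C₁ * δ₁) * (1 / 2) := by ring
          _ ≤ f ε ^ q * (av (σ j t) * av (σ j (zt t)) ^ q) :=
            mul_le_mul h4 h3 (by norm_num) (by positivity)
          _ = _ := by ring
      exact le_of_mul_le_mul_left h6 htpos
    choose ρ hρ hρ' using hex
    have hPz : ∃ z' : L, P t ρ z' := ⟨z, hu, hρ'⟩
    refine ⟨w (t, ρ), Finset.mem_image.2 ⟨(t, ρ), ?_, rfl⟩, z / hPz.choose, ?_, ?_⟩
    · rw [Finset.mem_product, Fintype.mem_piFinset]
      exact ⟨ht, hρ⟩
    · set z' := hPz.choose with hz'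
      obtain ⟨hz1, hz2⟩ := hPz.choose_spec
      rw [← hz'] at hz1 hz2
      have hz'0 : z' ≠ 0 := by
        intro h
        have := hne _ hz1
        rw [h, zero_pow (by omega), mul_zero] at this
        exact this rfl
      refine lt_of_le_of_lt (hP.ge (z / z' - 1) (4 * ε) ?_) hε2
      intro j
      have hσz' : σ j z' ≠ 0 := by simpa using hz'0
      have hσr : σ j (zt t) ≠ 0 := by simpa using hr0
      have hrpos := av_pos hav hσr
      have hρ1 : av (ρ j) = 1 := by
        refine av_root hav (by omega : 1 ≤ q) ?_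
        exact (Polynomial.mem_nthRootsFinset (by omega) 1).1 (hρ j)
      have h1 : av (σ j z - σ j z') ≤ 2 * (f ε * av (σ j (zt t))) := by
        have e : σ j z - σ j z' = (σ j z - ρ j * σ j (zt t)) - (σ j z' - ρ j * σ j (zt t)) := by
          ring
        rw [e]
        have h3 := av_sub_le hav (σ j z - ρ j * σ j (zt t)) (σ j z' - ρ j * σ j (zt t))
        have h4 := hρ' j
        have h5 := hz2 j
        linarith
      have h3 : av (σ j (zt t)) / 2 ≤ av (σ j z') := by
        have h4 := av_ge_sub hav (σ j z') (ρ j * σ j (zt t))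
        rw [hav.mul, hρ1, one_mul] at h4
        have h5 := hz2 j
        have h6 : f ε ≤ 1 / 2 := by rw [← hhalf]; exact hmono hε1
        have h7 : f ε * av (σ j (zt t)) ≤ 1 / 2 * av (σ j (zt t)) := by gcongr
        linarith
      have e : σ j (z / z' - 1) = (σ j z - σ j z') * (σ j z')⁻¹ := by
        rw [map_sub, map_div₀, map_one]; field_simp
      rw [e, hav.mul, av_inv hav hσz']
      have hpos' := av_pos hav hσz'
      rw [← div_eq_mul_inv, div_le_iff₀ hpos']
      have h44 : f 4 = 4 := map_ofNat f 4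
      rw [map_mul, h44]
      calc av (σ j z - σ j z') ≤ 2 * (f ε * av (σ j (zt t))) := h1
        _ = 4 * f ε * (av (σ j (zt t)) / 2) := by ring
        _ ≤ 4 * f ε * av (σ j z') := by gcongr
    · have hw' : w (t, ρ) = t * hPz.choose ^ q := by
        simp only [hw]
        rw [dif_pos hPz]
      have hz'0 : hPz.choose ≠ 0 := by
        intro h
        have := hne _ hPz.choose_spec.1
        rw [h, zero_pow (by omega), mul_zero] at this
        exact this rfl
      rw [hw', div_pow]
      field_simp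

end Pool.Agent.SNIP
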