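import Mathlib
import Pool.Agent.SNIP.Def

set_option autoImplicit false

namespace Pool.Agent.SNIP

/-! ### P1: definability API -/
section P1
variable {K : Type} [Field K] [LinearOrder K] [IsStrictOrderedRing K]

/-- The system of all parameter free definable sets is closed. -/
theorem dfn_closed : Closed K (fun n => {s : Set (Fin n → K) | Dfn K n s}) := by
  refine ⟨?_, ?_, ?_, ?_, ?_⟩
  · intro n p F hF
    exact hF.1 n p
  · intro n p F hF
    exact hF.2.1 n p
  · intro n s hs F hF
    exact hF.2.2.1 n s (hs F hF)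
  · intro n s t hs ht F hF
    exact hF.2.2.2.1 n s t (hs F hF) (ht F hF)
  · intro n s hs F hF
    exact hF.2.2.2.2 n s (hs F hF)

theorem Dfn.preimage {n : ℕ} {s : Set (Fin n → K)} (hs : Dfn K n s) (m : ℕ)
    (φ : Fin n → MvPolynomial (Fin m) ℤ) :
    Dfn K m {x : Fin m → K | (fun i => MvPolynomial.eval₂ (Int.castRingHom K) x (φ i)) ∈ s} := by
  have key : Closed K (fun n => {s : Set (Fin n → K) | ∀ (m : ℕ)
      (φ : Fin n → MvPolynomial (Fin m) ℤ),
      Dfn K m {x : Fin m → K |
        (fun i => MvPolynomial.eval₂ (Int.castRingHom K) x (φ i)) ∈ s}}) := by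
    refine ⟨?_, ?_, ?_, ?_, ?_⟩
    · intro n p m φ
      have h := (dfn_closed (K := K)).1 m (MvPolynomial.bind₁ φ p)
      have e : {x : Fin m → K | (fun i => MvPolynomial.eval₂ (Int.castRingHom K) x (φ i)) ∈
            {x : Fin n → K | MvPolynomial.eval₂ (Int.castRingHom K) x p = 0}} =
          {x : Fin m → K |
            MvPolynomial.eval₂ (Int.castRingHom K) x (MvPolynomial.bind₁ φ p) = 0} := by
        ext x
        simp only [Set.mem_setOf_eq]
        have := MvPolynomial.eval₂Hom_bind₁ (Int.castRingHom K) x φ p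
        simp only [MvPolynomial.coe_eval₂Hom] at this
        rw [this]
      rw [e]
      exact h
    · intro n p m φ
      have h := (dfn_closed (K := K)).2.1 m (MvPolynomial.bind₁ φ p)
      have e : {x : Fin m → K | (fun i => MvPolynomial.eval₂ (Int.castRingHom K) x (φ i)) ∈
            {x : Fin n → K | 0 < MvPolynomial.eval₂ (Int.castRingHom K) x p}} =
          {x : Fin m → K |
            0 < MvPolynomial.eval₂ (Int.castRingHom K) x (MvPolynomial.bind₁ φ p)} := by
        ext x
        simp only [Set.mem_setOf_eq]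
        have := MvPolynomial.eval₂Hom_bind₁ (Int.castRingHom K) x φ p
        simp only [MvPolynomial.coe_eval₂Hom] at this
        rw [this]
      rw [e]
      exact h
    · intro n s hs m φ
      exact (dfn_closed (K := K)).2.2.1 m _ (hs m φ)
    · intro n s t hs ht m φ
      exact (dfn_closed (K := K)).2.2.2.1 m _ _ (hs m φ) (ht m φ)
    · intro n s hs m φ
      have h := (dfn_closed (K := K)).2.2.2.2 m _
        (hs (m + 1) (Fin.snoc (α := fun _ => MvPolynomial (Fin (m + 1)) ℤ)
          (fun i => MvPolynomial.rename Fin.castSucc (φ i)) (MvPolynomial.X (Fin.last m))))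
      have e : {x : Fin m → K | (fun i => MvPolynomial.eval₂ (Int.castRingHom K) x (φ i)) ∈
            {x : Fin n → K | ∃ a : K, Fin.snoc (α := fun _ => K) x a ∈ s}} =
          {x : Fin m → K | ∃ a : K, Fin.snoc (α := fun _ => K) x a ∈
            {x : Fin (m + 1) → K | (fun i => MvPolynomial.eval₂ (Int.castRingHom K) x
              (Fin.snoc (α := fun _ => MvPolynomial (Fin (m + 1)) ℤ)
                (fun i => MvPolynomial.rename Fin.castSucc (φ i))
                (MvPolynomial.X (Fin.last m)) i)) ∈ s}} := by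
        ext x
        simp only [Set.mem_setOf_eq]
        refine exists_congr fun a => ?_
        have e2 : (Fin.snoc (α := fun _ => K)
              (fun i => MvPolynomial.eval₂ (Int.castRingHom K) x (φ i)) a : Fin (n + 1) → K) =
            (fun i => MvPolynomial.eval₂ (Int.castRingHom K) (Fin.snoc (α := fun _ => K) x a)
              (Fin.snoc (α := fun _ => MvPolynomial (Fin (m + 1)) ℤ)
                (fun i => MvPolynomial.rename Fin.castSucc (φ i))
                (MvPolynomial.X (Fin.last m)) i)) := by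
          funext i
          refine Fin.lastCases ?_ (fun j => ?_) i
          · simp
          · simp only [Fin.snoc_castSucc, MvPolynomial.eval₂_rename]
            congr 1
            funext l
            simp
        rw [e2]
      rw [e]
      exact h
  exact hs _ key m φ

theorem dfnI_iff {ι : Type} {s : Set (ι → K)} {n : ℕ} (e : ι ≃ Fin n) :
    DfnI K s ↔ Dfn K n {x : Fin n → K | (fun i => x (e i)) ∈ s} := by
  constructor
  · rintro ⟨m, e', h⟩
    have h2 := h.preimage n (fun j => MvPolynomial.X (e (e'.symm j)))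
    have e3 : {x : Fin n → K | (fun i => MvPolynomial.eval₂ (Int.castRingHom K) x
        (MvPolynomial.X (e (e'.symm i)))) ∈ {x : Fin m → K | (fun i => x (e' i)) ∈ s}} =
        {x : Fin n → K | (fun i => x (e i)) ∈ s} := by
      ext x
      simp only [Set.mem_setOf_eq, MvPolynomial.eval₂_X, Equiv.symm_apply_apply]
    rw [e3] at h2
    exact h2
  · intro h
    exact ⟨n, e, h⟩

theorem DfnI.finite {ι : Type} {s : Set (ι → K)} (hs : DfnI K s) : Finite ι := by
  obtain ⟨n, e, -⟩ := hs
  exact Finite.of_equiv _ e.symm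

theorem dfnI_compl {ι : Type} {s : Set (ι → K)} (hs : DfnI K s) : DfnI K sᶜ := by
  obtain ⟨n, e, h⟩ := hs
  exact ⟨n, e, (dfn_closed (K := K)).2.2.1 n _ h⟩

theorem dfnI_inter {ι : Type} {s t : Set (ι → K)} (hs : DfnI K s) (ht : DfnI K t) :
    DfnI K (s ∩ t) := by
  obtain ⟨n, e, h⟩ := hs
  rw [dfnI_iff e] at ht
  exact ⟨n, e, (dfn_closed (K := K)).2.2.2.1 n _ _ h ht⟩

theorem dfnI_union {ι : Type} {s t : Set (ι → K)} (hs : DfnI K s) (ht : DfnI K t) :
    DfnI K (s ∪ t) := by
  have h := dfnI_compl (dfnI_inter (dfnI_compl hs) (dfnI_compl ht))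
  rw [Set.compl_inter, compl_compl, compl_compl] at h
  exact h

/-- substitution of integer polynomials -/
theorem dfnI_preimage {ι κ : Type} [Finite κ] {s : Set (ι → K)} (hs : DfnI K s)
    (φ : ι → MvPolynomial κ ℤ) :
    DfnI K {x : κ → K | (fun i => MvPolynomial.eval₂ (Int.castRingHom K) x (φ i)) ∈ s} := by
  obtain ⟨n, e, h⟩ := hs
  have e2 : κ ≃ Fin (Nat.card κ) := Finite.equivFin κ
  refine ⟨Nat.card κ, e2, ?_⟩
  have h2 := h.preimage (Nat.card κ) (fun j => MvPolynomial.rename e2 (φ (e.symm j)))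
  have e3 : {x : Fin (Nat.card κ) → K | (fun i => MvPolynomial.eval₂ (Int.castRingHom K) x
        (MvPolynomial.rename e2 (φ (e.symm i)))) ∈ {x : Fin n → K | (fun i => x (e i)) ∈ s}} =
      {x : Fin (Nat.card κ) → K | (fun i => x (e2 i)) ∈
        {x : κ → K | (fun i => MvPolynomial.eval₂ (Int.castRingHom K) x (φ i)) ∈ s}} := by
    ext x
    simp only [Set.mem_setOf_eq, MvPolynomial.eval₂_rename, Equiv.symm_apply_apply]
    rfl
  rw [e3] at h2
  exact h2

/-- renaming of variables -/
theorem dfnI_comap {ι κ : Type} [Finite κ] {s : Set (ι → K)} (hs : DfnI K s) (e : ι → κ) :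
    DfnI K {x : κ → K | (fun i => x (e i)) ∈ s} := by
  have h := dfnI_preimage hs (fun i => MvPolynomial.X (e i))
  simpa only [MvPolynomial.eval₂_X] using h

theorem dfnI_eq_zero {ι : Type} [Finite ι] (p : MvPolynomial ι ℤ) :
    DfnI K {x : ι → K | MvPolynomial.eval₂ (Int.castRingHom K) x p = 0} := by
  have e2 : ι ≃ Fin (Nat.card ι) := Finite.equivFin ι
  refine ⟨Nat.card ι, e2, ?_⟩
  have h := (dfn_closed (K := K)).1 (Nat.card ι) (MvPolynomial.rename e2 p)
  simp only [MvPolynomial.eval₂_rename] at h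
  exact h

theorem dfnI_pos {ι : Type} [Finite ι] (p : MvPolynomial ι ℤ) :
    DfnI K {x : ι → K | 0 < MvPolynomial.eval₂ (Int.castRingHom K) x p} := by
  have e2 : ι ≃ Fin (Nat.card ι) := Finite.equivFin ι
  refine ⟨Nat.card ι, e2, ?_⟩
  have h := (dfn_closed (K := K)).2.1 (Nat.card ι) (MvPolynomial.rename e2 p)
  simp only [MvPolynomial.eval₂_rename] at h
  exact h

theorem dfnI_univ {ι : Type} [Finite ι] : DfnI K (Set.univ : Set (ι → K)) := by
  have h := dfnI_eq_zero (K := K) (ι := ι) 0
  simpa using h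

theorem dfnI_iInter {ι : Type} [Finite ι] {J : Type} [Finite J] {s : J → Set (ι → K)}
    (hs : ∀ j, DfnI K (s j)) : DfnI K (⋂ j, s j) := by
  classical
  haveI := Fintype.ofFinite J
  have key : ∀ t : Finset J, DfnI K (⋂ j ∈ t, s j) := by
    intro t
    induction t using Finset.induction with
    | empty => simpa using dfnI_univ (K := K) (ι := ι)
    | insert a t ha ih =>
      rw [Finset.set_biInter_insert]
      exact dfnI_inter (hs a) ih
  simpa using key Finset.univ

theorem dfnI_iUnion {ι : Type} [Finite ι] {J : Type} [Finite J] {s : J → Set (ι → K)}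
    (hs : ∀ j, DfnI K (s j)) : DfnI K (⋃ j, s j) := by
  have h := dfnI_compl (dfnI_iInter fun j => dfnI_compl (hs j))
  rw [Set.compl_iInter] at h
  simpa only [compl_compl] using h

theorem Dfn.exists_append {n : ℕ} (k : ℕ) : ∀ {s : Set (Fin (n + k) → K)}, Dfn K (n + k) s →
    Dfn K n {x : Fin n → K | ∃ y : Fin k → K, Fin.append x y ∈ s} := by
  induction k with
  | zero =>
    intro s hs
    have e : {x : Fin n → K | ∃ y : Fin 0 → K, Fin.append x y ∈ s} = s := by
      ext x
      simp only [Set.mem_setOf_eq]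
      constructor
      · rintro ⟨y, hy⟩
        have : Fin.append x y = x := by
          rw [Subsingleton.elim y Fin.elim0, Fin.append_elim0]
          rfl
        rw [this] at hy
        exact hy
      · intro hx
        refine ⟨Fin.elim0, ?_⟩
        have : Fin.append x Fin.elim0 = x := by
          rw [Fin.append_elim0]
          rfl
        rw [this]
        exact hx
    rw [e]
    exact hs
  | succ k ih =>
    intro s hs
    have h1 : Dfn K (n + k) {x : Fin (n + k) → K | ∃ a : K, Fin.snoc (α := fun _ => K) x a ∈ s} :=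
      (dfn_closed (K := K)).2.2.2.2 (n + k) s hs
    have h2 := ih h1
    have e : {x : Fin n → K | ∃ y : Fin (k + 1) → K, Fin.append x y ∈ s} =
        {x : Fin n → K | ∃ y : Fin k → K, Fin.append x y ∈
          {x : Fin (n + k) → K | ∃ a : K, Fin.snoc (α := fun _ => K) x a ∈ s}} := by
      ext x
      simp only [Set.mem_setOf_eq]
      constructor
      · rintro ⟨y, hy⟩
        refine ⟨Fin.init y, y (Fin.last k), ?_⟩
        rw [← Fin.append_snoc, Fin.snoc_init_self]
        exact hy
      · rintro ⟨y, a, hy⟩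
        refine ⟨Fin.snoc (α := fun _ => K) y a, ?_⟩
        rw [Fin.append_snoc]
        exact hy
    rw [e]
    exact h2

theorem dfnI_exists {ι κ : Type} [Finite κ] {s : Set ((ι ⊕ κ) → K)} (hs : DfnI K s) :
    DfnI K {x : ι → K | ∃ y : κ → K, Sum.elim x y ∈ s} := by
  haveI : Finite (ι ⊕ κ) := hs.finite
  haveI : Finite ι := Finite.of_injective (Sum.inl : ι → ι ⊕ κ) Sum.inl_injective
  have e1 : ι ≃ Fin (Nat.card ι) := Finite.equivFin ι
  have e2 : κ ≃ Fin (Nat.card κ) := Finite.equivFin κ
  rw [dfnI_iff ((Equiv.sumCongr e1 e2).trans finSumFinEquiv)] at hs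
  refine ⟨Nat.card ι, e1, ?_⟩
  have h := hs.exists_append (Nat.card κ)
  have e : {x : Fin (Nat.card ι) → K | ∃ y : Fin (Nat.card κ) → K, Fin.append x y ∈
        {x : Fin (Nat.card ι + Nat.card κ) → K |
          (fun i => x (((Equiv.sumCongr e1 e2).trans finSumFinEquiv) i)) ∈ s}} =
      {x : Fin (Nat.card ι) → K | (fun i => x (e1 i)) ∈
        {x : ι → K | ∃ y : κ → K, Sum.elim x y ∈ s}} := by
    ext x
    simp only [Set.mem_setOf_eq]
    have e4 : ∀ y : Fin (Nat.card κ) → K,
        (fun i => Fin.append x y (((Equiv.sumCongr e1 e2).trans finSumFinEquiv) i)) =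
        Sum.elim (fun i => x (e1 i)) (fun j => y (e2 j)) := by
      intro y
      funext i
      rcases i with i | j
      · simp
      · simp
    constructor
    · rintro ⟨y, hy⟩
      rw [e4] at hy
      exact ⟨_, hy⟩
    · rintro ⟨y, hy⟩
      refine ⟨fun j => y (e2.symm j), ?_⟩
      rw [e4]
      simpa using hy
  rw [e] at h
  exact h

theorem dfnI_forall {ι κ : Type} [Finite κ] {s : Set ((ι ⊕ κ) → K)} (hs : DfnI K s) :
    DfnI K {x : ι → K | ∀ y : κ → K, Sum.elim x y ∈ s} := by
  have h := dfnI_compl (dfnI_exists (dfnI_compl hs))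
  have e : {x : ι → K | ∃ y : κ → K, Sum.elim x y ∈ sᶜ}ᶜ =
      {x : ι → K | ∀ y : κ → K, Sum.elim x y ∈ s} := by
    ext x
    simp
  rw [e] at h
  exact h

/-- the hypothesis of the frozen statement in the language of `DfnI` -/
theorem strongNIP_general (h : StrongNIP K) (κ : ℕ → Type) (S : ∀ i : ℕ, Set ((Fin 1 ⊕ κ i) → K))
    (hS : ∀ i, DfnI K (S i)) :
    ¬ ∀ n m : ℕ, ∃ a : ∀ i : Fin n, Fin m → (κ i.val → K),
      ∀ η : Fin n → Fin m, ∃ c : Fin 1 → K, ∀ (i : Fin n) (j : Fin m),
        (Sum.elim c (a i j) ∈ S i.val ↔ j = η i) := by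
  intro hpat
  apply h
  have hfin : ∀ i, Finite (κ i) := by
    intro i
    haveI : Finite (Fin 1 ⊕ κ i) := (hS i).finite
    exact Finite.of_injective (Sum.inr : κ i → Fin 1 ⊕ κ i) Sum.inr_injective
  have e : ∀ i, κ i ≃ Fin (Nat.card (κ i)) := fun i => by
    haveI := hfin i
    exact Finite.equivFin (κ i)
  refine ⟨fun i => Nat.card (κ i), fun i => {z : Fin (Nat.card (κ i) + 1) → K |
    (fun t => z (Sum.elim (fun _ : Fin 1 => (0 : Fin (Nat.card (κ i) + 1)))
      (fun t => Fin.succ (e i t)) t)) ∈ S i}, ?_, ?_⟩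
  · intro i
    have h2 := dfnI_comap (hS i) (Sum.elim (fun _ : Fin 1 => (0 : Fin (Nat.card (κ i) + 1)))
      (fun t => Fin.succ (e i t)))
    rw [dfnI_iff (Equiv.refl _)] at h2
    exact h2
  · intro n m
    obtain ⟨a, ha⟩ := hpat n m
    refine ⟨fun i j t => a i j ((e i.val).symm t), fun η => ?_⟩
    obtain ⟨c, hc⟩ := ha η
    refine ⟨c 0, fun i j => ?_⟩
    rw [← hc i j]
    have e5 : (fun t => (Fin.cons (α := fun _ => K) (c 0)
          (fun t => a i j ((e i.val).symm t)) : Fin (Nat.card (κ i.val) + 1) → K)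
            (Sum.elim (fun _ : Fin 1 => (0 : Fin (Nat.card (κ i.val) + 1)))
            (fun t => Fin.succ (e i.val t)) t)) = Sum.elim c (a i j) := by
      funext t
      rcases t with t | t
      · have : t = 0 := Subsingleton.elim _ _
        subst this
        simp
      · simp
    rw [← e5]
    rfl

end P1

end Pool.Agent.SNIP
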