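import Mathlib
import Pool.Agent.SNIP.Def
import Pool.Agent.SNIP.P1

/-!
Dependence in one variable implies dependence in several variables.
-/

set_option autoImplicit false

namespace Pool.Agent.SNIP

/-! ### Combinatorics of shattering -/

theorem p2_mono {Y X : Type*} {F : Y → Set X} {d e : ℕ} (h : NoShatter F d) (hde : d ≤ e) :
    NoShatter F e := by
  intro x hx
  apply h (fun i => x (Fin.castLE hde i))
  intro I
  obtain ⟨y, hy⟩ := hx {j | ∃ i ∈ I, Fin.castLE hde i = j}
  refine ⟨y, fun i => ?_⟩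
  rw [hy]
  constructor
  · rintro ⟨i', hi', hii⟩
    have : i' = i := Fin.castLE_injective hde hii
    rwa [← this]
  · intro hi
    exact ⟨i, hi, rfl⟩

theorem p2_map {Y X Y' X' : Type*} {F : Y → Set X} {G : Y' → Set X'} {d : ℕ}
    (f : X' → X) (g : Y' → Y) (hfg : ∀ x y, x ∈ G y ↔ f x ∈ F (g y)) (h : NoShatter F d) :
    NoShatter G d := by
  intro x hx
  apply h (fun i => f (x i))
  intro I
  obtain ⟨y, hy⟩ := hx I
  exact ⟨g y, fun i => by rw [← hfg, hy]⟩

theorem p2_choose_sum (N d v : ℕ) (hv : v ≤ d) :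
    ∑ k ∈ Finset.Iic v, N.choose k ≤ (d + 1) * (N + 1) ^ d := by
  calc ∑ k ∈ Finset.Iic v, N.choose k ≤ ∑ k ∈ Finset.Iic v, (N + 1) ^ d := by
        apply Finset.sum_le_sum
        intro k hk
        have hk' : k ≤ v := Finset.mem_Iic.1 hk
        calc N.choose k ≤ N ^ k := Nat.choose_le_pow N k
          _ ≤ (N + 1) ^ k := Nat.pow_le_pow_left (Nat.le_succ N) k
          _ ≤ (N + 1) ^ d := Nat.pow_le_pow_right (Nat.succ_pos N) (hk'.trans hv)
    _ = (v + 1) * (N + 1) ^ d := by
        rw [Finset.sum_const, smul_eq_mul, Nat.card_Iic]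
    _ ≤ (d + 1) * (N + 1) ^ d := Nat.mul_le_mul_right _ (Nat.succ_le_succ hv)

/-- if no set of size `d` is shattered by `𝒜` then `𝒜` is small. -/
theorem p2_card_le {α : Type*} [Fintype α] [DecidableEq α] (𝒜 : Finset (Finset α)) (d : ℕ)
    (h : ∀ s : Finset α, s.card = d → ¬ 𝒜.Shatters s) :
    𝒜.card ≤ (d + 1) * (Fintype.card α + 1) ^ d := by
  have hv : 𝒜.vcDim ≤ d := by
    apply Finset.sup_le
    intro s hs
    rw [Finset.mem_shatterer] at hs
    by_contra hlt
    push Not at hlt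
    obtain ⟨t, hts, htc⟩ := Finset.exists_subset_card_eq hlt.le
    exact h t htc (hs.mono_right hts)
  calc 𝒜.card ≤ 𝒜.shatterer.card := Finset.card_le_card_shatterer 𝒜
    _ ≤ ∑ k ∈ Finset.Iic 𝒜.vcDim, (Fintype.card α).choose k := Finset.card_shatterer_le_sum_vcDim
    _ ≤ _ := p2_choose_sum _ _ _ hv

/-- enumeration of a shattered set -/
theorem p2_enum {α : Type*} [Fintype α] [DecidableEq α] (𝒜 : Finset (Finset α)) (d : ℕ)
    (s : Finset α) (hs : s.card = d) (h : 𝒜.Shatters s) :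
    ∃ y : Fin d → α, ∀ I : Set (Fin d), ∃ T ∈ 𝒜, ∀ i, (y i ∈ T ↔ i ∈ I) := by
  classical
  subst hs
  let e := s.equivFin.symm
  refine ⟨fun i => (e i : α), fun I => ?_⟩
  obtain ⟨T, hT, hTs⟩ := @h (Finset.univ.filter (fun i => i ∈ I) |>.image (fun i => (e i : α)))
    (by
      intro a ha
      rw [Finset.mem_image] at ha
      obtain ⟨i, _, rfl⟩ := ha
      exact (e i).2)
  refine ⟨T, hT, fun i => ?_⟩
  have h1 : ((e i : α) ∈ s ∩ T) ↔ (e i : α) ∈ T := by
    rw [Finset.mem_inter]
    exact ⟨fun h => h.2, fun h => ⟨(e i).2, h⟩⟩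
  rw [← h1, hTs, Finset.mem_image]
  constructor
  · rintro ⟨j, hj, hji⟩
    have : j = i := e.injective (Subtype.ext hji)
    rw [← this]
    simpa using hj
  · intro hi
    exact ⟨i, by simpa using hi, rfl⟩

/-- Sauer Shelah bound for traces -/
theorem p2_traces {Y X : Type*} {F : Y → Set X} {d : ℕ} (h : NoShatter F d) {α : Type*}
    [Fintype α] [DecidableEq α] (x : α → X) (𝒜 : Finset (Finset α))
    (h𝒜 : ∀ T ∈ 𝒜, ∃ y, ∀ a, (x a ∈ F y ↔ a ∈ T)) :
    𝒜.card ≤ (d + 1) * (Fintype.card α + 1) ^ d := by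
  apply p2_card_le
  intro s hs hsh
  obtain ⟨z, hz⟩ := p2_enum 𝒜 d s hs hsh
  apply h (fun i => x (z i))
  intro I
  obtain ⟨T, hT, hTI⟩ := hz I
  obtain ⟨y, hy⟩ := h𝒜 T hT
  exact ⟨y, fun i => by rw [hy, hTI]⟩

/-- exponentials beat polynomials -/
theorem p2_exp (C m : ℕ) : ∃ N : ℕ, C * (N + 1) ^ m < 2 ^ N := by
  have h := tendsto_pow_const_div_const_pow_of_one_lt m (r := (2 : ℝ)) (by norm_num)
  have h2 : ∀ᶠ n : ℕ in Filter.atTop, ((n : ℝ) ^ m / 2 ^ n) < 1 / (2 * (C + 1)) := by
    apply (tendsto_order.1 h).2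
    positivity
  obtain ⟨n, hn⟩ := (h2.and (Filter.eventually_ge_atTop 1)).exists
  obtain ⟨hn1, hn2⟩ := hn
  refine ⟨n - 1, ?_⟩
  obtain ⟨k, rfl⟩ : ∃ k, n = k + 1 := ⟨n - 1, by omega⟩
  simp only [Nat.add_sub_cancel]
  rw [div_lt_div_iff₀ (by positivity) (by positivity)] at hn1
  have h3 : ((C * (k + 1) ^ m : ℕ) : ℝ) < ((2 ^ k : ℕ) : ℝ) := by
    push_cast
    push_cast at hn1
    have h4 : (2 : ℝ) ^ (k + 1) = 2 * 2 ^ k := by ring
    rw [h4] at hn1
    have h5 : (0 : ℝ) < ((k : ℝ) + 1) ^ m := by positivity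
    nlinarith
  exact_mod_cast h3

/-- the counting argument -/
theorem p2_count {Ξ X1 X : Type*} (S : Ξ → X1 → Set X) (d : ℕ)
    (h1 : ∀ ξ, NoShatter (fun x' => S ξ x') d) (E : ℕ)
    (h2 : ∀ s : Finset (Fin d),
      NoShatter (fun ξ => {y : Fin d → X | ∃ x', ∀ i, (y i ∈ S ξ x' ↔ i ∈ s)}) E) :
    ∃ N, NoShatter (fun p : Ξ × X1 => S p.1 p.2) N := by
  classical
  obtain ⟨N, hN⟩ := p2_exp (((E + 1) * 2 ^ E) ^ (2 ^ d) * (d + 1)) (d * E * 2 ^ d + d)
  refine ⟨N, fun b hb => ?_⟩
  -- choose parameters for every trace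
  have hb' : ∀ T : Finset (Fin N), ∃ p : Ξ × X1, ∀ i, (b i ∈ S p.1 p.2 ↔ i ∈ T) := by
    intro T
    obtain ⟨p, hp⟩ := hb (T : Set (Fin N))
    exact ⟨p, fun i => by rw [hp]; simp⟩
  choose p hp using hb'
  let κ : Finset (Fin N) → Finset (Fin d) → Finset (Fin d → Fin N) := fun T s =>
    Finset.univ.filter (fun y => ∃ x', ∀ i, (b (y i) ∈ S (p T).1 x' ↔ i ∈ s))
  -- the number of values of `κ`
  have hcol : ∀ s, ((Finset.univ : Finset (Finset (Fin N))).image (fun T => κ T s)).card ≤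
      (E + 1) * (N ^ d + 1) ^ E := by
    intro s
    have := p2_traces (h2 s) (α := Fin d → Fin N) (fun y => fun i => b (y i))
      ((Finset.univ : Finset (Finset (Fin N))).image (fun T => κ T s)) (by
        intro U hU
        rw [Finset.mem_image] at hU
        obtain ⟨T, _, rfl⟩ := hU
        refine ⟨(p T).1, fun y => ?_⟩
        simp [κ])
    simpa using this
  have himg : ((Finset.univ : Finset (Finset (Fin N))).image κ).card ≤
      ((E + 1) * (N ^ d + 1) ^ E) ^ (2 ^ d) := by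
    calc ((Finset.univ : Finset (Finset (Fin N))).image κ).card
        ≤ (Fintype.piFinset (fun s => (Finset.univ : Finset (Finset (Fin N))).image
            (fun T => κ T s))).card := by
          apply Finset.card_le_card
          intro k hk
          rw [Finset.mem_image] at hk
          obtain ⟨T, _, rfl⟩ := hk
          rw [Fintype.mem_piFinset]
          intro s
          exact Finset.mem_image_of_mem _ (Finset.mem_univ T)
      _ = ∏ s : Finset (Fin d), ((Finset.univ : Finset (Finset (Fin N))).image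
            (fun T => κ T s)).card := Fintype.card_piFinset _
      _ ≤ ∏ s : Finset (Fin d), ((E + 1) * (N ^ d + 1) ^ E) :=
          Finset.prod_le_prod' (fun s _ => hcol s)
      _ = ((E + 1) * (N ^ d + 1) ^ E) ^ (2 ^ d) := by
          rw [Finset.prod_const, Finset.card_univ, Fintype.card_finset, Fintype.card_fin]
  -- the fibres of `κ`
  have hfib : ∀ k ∈ (Finset.univ : Finset (Finset (Fin N))).image κ,
      ((Finset.univ : Finset (Finset (Fin N))).filter (fun T => κ T = k)).card ≤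
        (d + 1) * (N + 1) ^ d := by
    intro k hk
    have := p2_card_le ((Finset.univ : Finset (Finset (Fin N))).filter (fun T => κ T = k)) d (by
      intro s hs hsh
      obtain ⟨y, hy⟩ := p2_enum _ d s hs hsh
      rw [Finset.mem_image] at hk
      obtain ⟨T0, _, hT0⟩ := hk
      apply h1 (p T0).1 (fun i => b (y i))
      intro I
      obtain ⟨T, hT, hTI⟩ := hy I
      rw [Finset.mem_filter] at hT
      have hmem : y ∈ κ T (Finset.univ.filter (fun i => i ∈ I)) := by
        simp only [κ, Finset.mem_filter, Finset.mem_univ, true_and]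
        exact ⟨(p T).2, fun i => by rw [hp, hTI]⟩
      rw [hT.2, ← hT0] at hmem
      simp only [κ, Finset.mem_filter, Finset.mem_univ, true_and] at hmem
      exact hmem)
    simpa using this
  have htot : (Finset.univ : Finset (Finset (Fin N))).card ≤
      (d + 1) * (N + 1) ^ d * ((Finset.univ : Finset (Finset (Fin N))).image κ).card :=
    Finset.card_le_mul_card_image _ _ hfib
  rw [Finset.card_univ, Fintype.card_finset, Fintype.card_fin] at htot
  have hbig : (d + 1) * (N + 1) ^ d * ((Finset.univ : Finset (Finset (Fin N))).image κ).card ≤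
      ((E + 1) * 2 ^ E) ^ (2 ^ d) * (d + 1) * (N + 1) ^ (d * E * 2 ^ d + d) := by
    have hNd : N ^ d + 1 ≤ 2 * (N + 1) ^ d := by
      have h3 : N ^ d ≤ (N + 1) ^ d := Nat.pow_le_pow_left (Nat.le_succ N) d
      have h4 : 1 ≤ (N + 1) ^ d := Nat.one_le_pow _ _ (Nat.succ_pos N)
      omega
    calc (d + 1) * (N + 1) ^ d * ((Finset.univ : Finset (Finset (Fin N))).image κ).card
        ≤ (d + 1) * (N + 1) ^ d * ((E + 1) * (N ^ d + 1) ^ E) ^ (2 ^ d) :=
          Nat.mul_le_mul_left _ himg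
      _ ≤ (d + 1) * (N + 1) ^ d * ((E + 1) * (2 * (N + 1) ^ d) ^ E) ^ (2 ^ d) := by
          apply Nat.mul_le_mul_left
          apply Nat.pow_le_pow_left
          apply Nat.mul_le_mul_left
          exact Nat.pow_le_pow_left hNd E
      _ = ((E + 1) * 2 ^ E) ^ (2 ^ d) * (d + 1) * (N + 1) ^ (d * E * 2 ^ d + d) := by
          rw [mul_pow 2, ← pow_mul, ← mul_assoc (E + 1), mul_pow ((E + 1) * 2 ^ E), ← pow_mul,
            pow_add (N + 1)]
          ring
  exact absurd (htot.trans hbig) (not_le.2 hN)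

/-! ### The case of one variable -/

theorem p2_one {K : Type} [Field K] [LinearOrder K] [IsStrictOrderedRing K] (h : StrongNIP K)
    (κ : Type) (S : Set ((Fin 1 ⊕ κ) → K)) (hS : DfnI K S) :
    ∃ N : ℕ, NoShatter (fun x : Fin 1 → K => {y : κ → K | Sum.elim x y ∈ S}) N := by
  by_contra hcon
  push Not at hcon
  apply strongNIP_general h (fun _ => κ) (fun _ => S) (fun _ => hS)
  intro n m
  have h1 := hcon (n * m)
  unfold NoShatter at h1
  push Not at h1
  obtain ⟨y, hy⟩ := h1
  refine ⟨fun i j => y (finProdFinEquiv (i, j)), fun η => ?_⟩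
  obtain ⟨c, hc⟩ := hy {k | (finProdFinEquiv.symm k).2 = η (finProdFinEquiv.symm k).1}
  refine ⟨c, fun i j => ?_⟩
  have h2 := hc (finProdFinEquiv (i, j))
  simp only [Set.mem_ofPred_eq, Equiv.symm_apply_apply] at h2
  exact h2

/-! ### The induction -/

theorem nip_many {K : Type} [Field K] [LinearOrder K] [IsStrictOrderedRing K] (h : StrongNIP K)
    (D : ℕ) (κ : Type) [Finite κ] (S : Set ((Fin D ⊕ κ) → K)) (hS : DfnI K S) :
    ∃ N : ℕ, NoShatter (fun x : Fin D → K => {y : κ → K | Sum.elim x y ∈ S}) N := by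
  induction D generalizing κ with
  | zero =>
    refine ⟨1, fun x hx => ?_⟩
    obtain ⟨y1, hy1⟩ := hx Set.univ
    obtain ⟨y2, hy2⟩ := hx ∅
    have h3 : y1 = y2 := Subsingleton.elim _ _
    have h4 := (hy1 0).2 (Set.mem_univ _)
    rw [h3] at h4
    exact (hy2 0).1 h4
  | succ D ih =>
    -- the dimension in the remaining variables
    let e : (Fin (D + 1) ⊕ κ) → (Fin D ⊕ (Fin 1 ⊕ κ)) :=
      Sum.elim (fun i => Fin.cases (Sum.inr (Sum.inl 0)) (fun j => Sum.inl j) i)
        (fun k => Sum.inr (Sum.inr k))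
    have he : ∀ (x' : Fin D → K) (ξ : Fin 1 → K) (y : κ → K),
        (fun i => Sum.elim x' (Sum.elim ξ y) (e i)) =
          Sum.elim (Fin.cons (α := fun _ => K) (ξ 0) x') y := by
      intro x' ξ y
      funext i
      rcases i with i | k
      · refine Fin.cases ?_ (fun j => ?_) i
        · simp [e]
        · simp [e]
      · simp [e]
    obtain ⟨d, hd⟩ := ih (Fin 1 ⊕ κ) {z | (fun i => z (e i)) ∈ S} (dfnI_comap hS e)
    let F : (Fin 1 → K) → (Fin D → K) → Set (κ → K) := fun ξ x' =>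
      {y | Sum.elim (Fin.cons (α := fun _ => K) (ξ 0) x') y ∈ S}
    have h1 : ∀ ξ, NoShatter (fun x' => F ξ x') d := by
      intro ξ
      refine p2_map (fun y : κ → K => Sum.elim ξ y) id (fun y x' => ?_) hd
      simp only [F, Set.mem_ofPred_eq, id]
      rw [he]
    -- the auxiliary sets
    let ei : Fin d → (Fin (D + 1) ⊕ κ) → ((Fin 1 ⊕ (Fin d × κ)) ⊕ Fin D) := fun i =>
      Sum.elim (fun j => Fin.cases (Sum.inl (Sum.inl 0)) (fun j => Sum.inr j) j)
        (fun k => Sum.inl (Sum.inr (i, k)))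
    have hei : ∀ (i : Fin d) (x' : Fin D → K) (ξ : Fin 1 → K) (y : Fin d × κ → K),
        (fun j => Sum.elim (Sum.elim ξ y) x' (ei i j)) =
          Sum.elim (Fin.cons (α := fun _ => K) (ξ 0) x') (fun k => y (i, k)) := by
      intro i x' ξ y
      funext j
      rcases j with j | k
      · refine Fin.cases ?_ (fun j => ?_) j
        · simp [ei]
        · simp [ei]
      · simp [ei]
    classical
    have hU : ∀ s : Finset (Fin d), DfnI K
        {w : ((Fin 1 ⊕ (Fin d × κ)) ⊕ Fin D) → K | ∀ i, ((fun j => w (ei i j)) ∈ S ↔ i ∈ s)} := by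
      intro s
      have hV : ∀ i, DfnI K
          {w : ((Fin 1 ⊕ (Fin d × κ)) ⊕ Fin D) → K | ((fun j => w (ei i j)) ∈ S ↔ i ∈ s)} := by
        intro i
        by_cases hi : i ∈ s
        · have h2 := dfnI_comap hS (ei i)
          convert h2 using 1
          ext w
          simp [hi]
        · have h2 := dfnI_compl (dfnI_comap hS (ei i))
          convert h2 using 1
          ext w
          simp [hi]
      have h2 := dfnI_iInter hV
      convert h2 using 1
      ext w
      simp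
    have h2 : ∀ s : Finset (Fin d), ∃ E,
        NoShatter (fun ξ => {y : Fin d → (κ → K) | ∃ x', ∀ i, (y i ∈ F ξ x' ↔ i ∈ s)}) E := by
      intro s
      obtain ⟨E, hE⟩ := p2_one h (Fin d × κ) _ (dfnI_exists (hU s))
      refine ⟨E, p2_map (fun y : Fin d → (κ → K) => fun q : Fin d × κ => y q.1 q.2) id
        (fun y ξ => ?_) hE⟩
      simp only [F, Set.mem_ofPred_eq, id]
      constructor
      · rintro ⟨x', hx'⟩
        refine ⟨x', fun i => ?_⟩
        rw [hei]
        exact hx' i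
      · rintro ⟨x', hx'⟩
        refine ⟨x', fun i => ?_⟩
        have h5 := hx' i
        rw [hei] at h5
        exact h5
    choose E hE using h2
    obtain ⟨N, hN⟩ := p2_count F d h1 (Finset.univ.sup E)
      (fun s => p2_mono (hE s) (Finset.le_sup (Finset.mem_univ s)))
    refine ⟨N, p2_map id (fun x : Fin (D + 1) → K => ((fun _ => x 0 : Fin 1 → K), fun j => x j.succ))
      (fun y x => ?_) hN⟩
    simp only [F, Set.mem_ofPred_eq, id]
    have h6 : (Fin.cons (α := fun _ => K) (x 0) (fun j => x j.succ) : Fin (D + 1) → K) = x := by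
      funext i
      refine Fin.cases ?_ (fun j => ?_) i <;> simp
    rw [h6]

end Pool.Agent.SNIP
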