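import Mathlib
import Pool.Agent.SNIP.Def
import Pool.Agent.SNIP.P1
import Pool.Agent.SNIP.P2

/-!
The affine images of the set of `q`-th powers of elements near one form a family of bounded
shattering dimension.
-/

set_option autoImplicit false

namespace Pool.Agent.SNIP

namespace P9a

open MvPolynomial

section Coord

variable {K L : Type} [Field K] [Field L] [Algebra K L] {n : ℕ} (b : Module.Basis (Fin n) K L)
  {V : Type}

/-- multiplication of vectors of polynomials, with given structure constants -/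
noncomputable def mulP (sc : Fin n → Fin n → Fin n → MvPolynomial V ℤ)
    (u v : Fin n → MvPolynomial V ℤ) (k : Fin n) : MvPolynomial V ℤ :=
  ∑ i, ∑ j, u i * v j * sc i j k

/-- powers of vectors of polynomials, with given structure constants -/
noncomputable def powP (sc : Fin n → Fin n → Fin n → MvPolynomial V ℤ)
    (one : Fin n → MvPolynomial V ℤ) (u : Fin n → MvPolynomial V ℤ) :
    ℕ → Fin n → MvPolynomial V ℤ
  | 0 => one
  | q + 1 => mulP sc (powP sc one u q) u

theorem repr_mul (a c : L) (k : Fin n) :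
    b.repr (a * c) k = ∑ i, ∑ j, b.repr a i * b.repr c j * b.repr (b i * b j) k := by
  conv_lhs => rw [← b.sum_repr a, ← b.sum_repr c]
  simp only [Finset.sum_mul_sum, map_sum, smul_mul_smul_comm, map_smul, Finsupp.coe_finsetSum,
    Finset.sum_apply, Finsupp.coe_smul, Pi.smul_apply, smul_eq_mul]

theorem eval_mulP {sc : Fin n → Fin n → Fin n → MvPolynomial V ℤ}
    {u v : Fin n → MvPolynomial V ℤ} {x : V → K} {a c : L}
    (hsc : ∀ i j k, eval₂ (Int.castRingHom K) x (sc i j k) = b.repr (b i * b j) k)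
    (hu : ∀ i, eval₂ (Int.castRingHom K) x (u i) = b.repr a i)
    (hv : ∀ i, eval₂ (Int.castRingHom K) x (v i) = b.repr c i) (k : Fin n) :
    eval₂ (Int.castRingHom K) x (mulP sc u v k) = b.repr (a * c) k := by
  rw [repr_mul b a c k, mulP, ← coe_eval₂Hom, map_sum]
  refine Finset.sum_congr rfl fun i _ => ?_
  rw [map_sum]
  refine Finset.sum_congr rfl fun j _ => ?_
  rw [map_mul, map_mul, coe_eval₂Hom, hu, hv, hsc]

theorem eval_powP {sc : Fin n → Fin n → Fin n → MvPolynomial V ℤ}
    {one u : Fin n → MvPolynomial V ℤ} {x : V → K} {a : L}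
    (hsc : ∀ i j k, eval₂ (Int.castRingHom K) x (sc i j k) = b.repr (b i * b j) k)
    (hone : ∀ i, eval₂ (Int.castRingHom K) x (one i) = b.repr 1 i)
    (hu : ∀ i, eval₂ (Int.castRingHom K) x (u i) = b.repr a i) (q : ℕ) (k : Fin n) :
    eval₂ (Int.castRingHom K) x (powP sc one u q k) = b.repr (a ^ q) k := by
  induction q generalizing k with
  | zero => rw [pow_zero]; exact hone k
  | succ q ih => rw [pow_succ]; exact eval_mulP b hsc ih hu k

end Coord

section Main

variable {K : Type} [Field K] [LinearOrder K] [IsStrictOrderedRing K]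

/-- the parameters: the coordinates of the two elements, the structure constants,
the coordinates of one and the radius -/
abbrev PV (n : ℕ) : Type := ((Fin n ⊕ Fin n) ⊕ (Fin n × Fin n × Fin n)) ⊕ (Fin n ⊕ Unit)

theorem bnorm_lt_iff {L : Type} [Field L] [Algebra K L] {D : ℕ}
    (b : Module.Basis (Fin (D + 1)) K L) (x : L) (δ : K) :
    bnorm b x < δ ↔ ∀ k, |b.repr x k| < δ := by
  unfold bnorm
  rw [Finset.sup'_lt_iff]
  simp

/-- all variables -/
abbrev AV (n M : ℕ) : Type := (Fin M ⊕ Fin n) ⊕ Fin n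

/-- the quantifier free part -/
def SQ (K : Type) [Field K] [LinearOrder K] [IsStrictOrderedRing K] (n M : ℕ)
    (e : PV n ≃ Fin M) (q : ℕ) : Set (AV n M → K) :=
  ⋂ k : Fin n,
    ({x | 0 < eval₂ (Int.castRingHom K) x
        (X (Sum.inl (Sum.inl (e (Sum.inr (Sum.inr ())))))
          - (X (Sum.inr k) - X (Sum.inl (Sum.inl (e (Sum.inr (Sum.inl k))))))
          : MvPolynomial (AV n M) ℤ)} ∩
     {x | 0 < eval₂ (Int.castRingHom K) x
        (X (Sum.inl (Sum.inl (e (Sum.inr (Sum.inr ())))))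
          + (X (Sum.inr k) - X (Sum.inl (Sum.inl (e (Sum.inr (Sum.inl k))))))
          : MvPolynomial (AV n M) ℤ)}) ∩
     {x | eval₂ (Int.castRingHom K) x
        (X (Sum.inl (Sum.inl (e (Sum.inl (Sum.inl (Sum.inl k))))))
          + mulP (fun i j k => X (Sum.inl (Sum.inl (e (Sum.inl (Sum.inr (i, j, k)))))))
              (fun i => X (Sum.inl (Sum.inl (e (Sum.inl (Sum.inl (Sum.inr i)))))))
              (fun i => X (Sum.inl (Sum.inr i))) k
          - powP (fun i j k => X (Sum.inl (Sum.inl (e (Sum.inl (Sum.inr (i, j, k)))))))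
              (fun i => X (Sum.inl (Sum.inl (e (Sum.inr (Sum.inl i))))))
              (fun i => X (Sum.inr i)) q k
          : MvPolynomial (AV n M) ℤ) = 0}

theorem dfnI_SQ (n M : ℕ) (e : PV n ≃ Fin M) (q : ℕ) : DfnI K (SQ K n M e q) := by
  unfold SQ
  refine dfnI_iInter fun k => ?_
  exact dfnI_inter (dfnI_inter (dfnI_pos _) (dfnI_pos _)) (dfnI_eq_zero _)

/-- the assignment of the parameters -/
noncomputable def asg {L : Type} [Field L] [Algebra K L] {n : ℕ}
    (b : Module.Basis (Fin n) K L) (δ : K) (p : L × L) : PV n → K :=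
  Sum.elim
    (Sum.elim (Sum.elim (fun k => b.repr p.1 k) (fun k => b.repr p.2 k))
      (fun t => b.repr (b t.1 * b t.2.1) t.2.2))
    (Sum.elim (fun k => b.repr 1 k) (fun _ => δ))

theorem mem_SQ {L : Type} [Field L] [Algebra K L] {D M : ℕ}
    (b : Module.Basis (Fin (D + 1)) K L) (e : PV (D + 1) ≃ Fin M) (q : ℕ) (δ : K) (p : L × L)
    (x y : L) :
    (Sum.elim (Sum.elim (fun i => asg b δ p (e.symm i)) (fun k => b.repr x k))
      (fun k => b.repr y k) ∈ SQ K (D + 1) M e q) ↔
    (bnorm b (y - 1) < δ ∧ p.1 + p.2 * x = y ^ q) := by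
  set z : AV (D + 1) M → K :=
    Sum.elim (Sum.elim (fun i => asg b δ p (e.symm i)) (fun k => b.repr x k))
      (fun k => b.repr y k) with hz
  have hm : ∀ k, eval₂ (Int.castRingHom K) z
      (mulP (fun i j k => X (Sum.inl (Sum.inl (e (Sum.inl (Sum.inr (i, j, k)))))))
              (fun i => X (Sum.inl (Sum.inl (e (Sum.inl (Sum.inl (Sum.inr i)))))))
              (fun i => X (Sum.inl (Sum.inr i))) k) = b.repr (p.2 * x) k := by
    intro k
    refine eval_mulP b ?_ ?_ ?_ k
    · intro i j k; simp [hz, asg]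
    · intro i; simp [hz, asg]
    · intro i; simp [hz]
  have hp : ∀ k, eval₂ (Int.castRingHom K) z
      (powP (fun i j k => X (Sum.inl (Sum.inl (e (Sum.inl (Sum.inr (i, j, k)))))))
              (fun i => X (Sum.inl (Sum.inl (e (Sum.inr (Sum.inl i))))))
              (fun i => X (Sum.inr i)) q k) = b.repr (y ^ q) k := by
    intro k
    refine eval_powP b ?_ ?_ ?_ q k
    · intro i j k; simp [hz, asg]
    · intro i; simp [hz, asg]
    · intro i; simp [hz]
  have hext : p.1 + p.2 * x = y ^ q ↔ ∀ k, b.repr p.1 k + b.repr (p.2 * x) k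
      - b.repr (y ^ q) k = 0 := by
    rw [← b.repr.injective.eq_iff, Finsupp.ext_iff]
    simp [sub_eq_zero]
  rw [bnorm_lt_iff, hext]
  simp only [SQ, Set.mem_iInter, Set.mem_inter_iff, Set.mem_ofPred_eq, eval₂_add, eval₂_sub,
    hm, hp, eval₂_X]
  simp only [hz, Sum.elim_inl, Sum.elim_inr, Equiv.symm_apply_apply, asg, map_sub,
    Finsupp.coe_sub, Pi.sub_apply, abs_lt]
  constructor
  · intro h
    refine ⟨fun k => ⟨?_, ?_⟩, fun k => (h k).2⟩
    · have := (h k).1.2; linarith
    · have := (h k).1.1; linarith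
  · rintro ⟨h1, h2⟩ k
    refine ⟨⟨?_, ?_⟩, h2 k⟩
    · have := (h1 k).2; linarith
    · have := (h1 k).1; linarith

end Main

end P9a

open P9a in
/-- The conclusion, from dependence for many variables. -/
theorem vc_of_nip {K L : Type} [Field K] [LinearOrder K] [IsStrictOrderedRing K]
    [Field L] [Algebra K L] {D : ℕ} (b : Module.Basis (Fin (D + 1)) K L)
    (hnip : ∀ (M : ℕ) (S : Set ((Fin M ⊕ Fin (D + 1)) → K)), DfnI K S →
      ∃ N : ℕ, NoShatter (fun x : Fin M → K => {y : Fin (D + 1) → K | Sum.elim x y ∈ S}) N)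
    (q : ℕ) (δ : K) : ∃ d, NoShatter (PFam (bnorm b) q δ) d := by
  let e : PV (D + 1) ≃ Fin (Fintype.card (PV (D + 1))) := Fintype.equivFin _
  obtain ⟨N, hN⟩ := hnip (Fintype.card (PV (D + 1))) _
    (dfnI_exists (dfnI_SQ (K := K) (D + 1) _ e q))
  refine ⟨N, fun x hx => hN (fun i => fun k => b.repr (x i) k) fun I => ?_⟩
  obtain ⟨p, hp⟩ := hx I
  refine ⟨fun i => asg b δ p (e.symm i), fun i => ?_⟩
  rw [← hp i]
  simp only [PFam, Set.mem_ofPred_eq]
  constructor
  · rintro ⟨y, hy⟩
    refine ⟨b.equivFun.symm y, ?_⟩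
    rw [← mem_SQ b e q δ p (x i)]
    have : (fun k => b.repr (b.equivFun.symm y) k) = y := by
      have := b.equivFun.apply_symm_apply y
      rw [b.equivFun_apply] at this
      exact this
    rw [this]
    exact hy
  · rintro ⟨y, hy⟩
    refine ⟨fun k => b.repr y k, ?_⟩
    exact (mem_SQ b e q δ p (x i) y).2 hy

theorem vc_of_strongNIP {K L : Type} [Field K] [LinearOrder K] [IsStrictOrderedRing K]
    [Field L] [Algebra K L] {D : ℕ} (b : Module.Basis (Fin (D + 1)) K L) (h : StrongNIP K)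
    (q : ℕ) (δ : K) : ∃ d, NoShatter (PFam (bnorm b) q δ) d :=
  vc_of_nip b (fun M S hS => nip_many h M (Fin (D + 1)) S hS) q δ

end Pool.Agent.SNIP
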