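import Mathlib
import Pool.Agent.SNIP.Def

set_option autoImplicit false

/-!
# Density lemma: dense subsets of `[m]^n` contain boxes

Part of the proof of the frozen statement S14443.
-/

namespace Pool.Agent.SNIP

/-- the number of embeddings with values in a finite set -/
theorem card_embeddings_ge {m m₁ : ℕ} (S : Finset (Fin m)) [DecidableEq (Fin m)] :
    S.card.descFactorial m₁ ≤
      (Finset.univ.filter (fun e : Fin m₁ ↪ Fin m => ∀ k, e k ∈ S)).card := by
  classical
  have h1 : Fintype.card (Fin m₁ ↪ S) = S.card.descFactorial m₁ := by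
    rw [Fintype.card_embedding_eq]
    simp
  rw [← h1, ← Finset.card_univ]
  refine Finset.card_le_card_of_injOn
    (fun e : Fin m₁ ↪ S => e.trans (Function.Embedding.subtype _)) ?_ ?_
  · intro e _
    simp
  · intro e _ e' _ h
    ext k
    have := congrArg (fun f : Fin m₁ ↪ Fin m => f k) h
    simpa using congrArg Fin.val this

/-- density lemma -/
theorem box_density (n m₁ : ℕ) (ρ : ℝ) (hρ : 0 < ρ) : ∃ m₀ : ℕ, ∀ m ≥ m₀,
    ∀ R : Finset (Fin n → Fin m), ρ * (m : ℝ) ^ n ≤ R.card →
      ∃ C : Fin n → Fin m₁ → Fin m, (∀ i, Function.Injective (C i)) ∧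
        ∀ g : Fin n → Fin m₁, (fun i => C i (g i)) ∈ R := by
  classical
  induction n generalizing ρ with
  | zero =>
    refine ⟨0, fun m _ R hR => ⟨fun i => i.elim0, fun i => i.elim0, fun g => ?_⟩⟩
    have hpos : 0 < R.card := by
      have h : (0:ℝ) < R.card := by
        rw [pow_zero, mul_one] at hR
        linarith
      exact_mod_cast h
    obtain ⟨r, hr⟩ := Finset.card_pos.1 hpos
    have hr2 : (fun i : Fin 0 => (i.elim0 : Fin m₁ → Fin m) (g i)) = r := Subsingleton.elim _ _
    have hr3 : (fun i : Fin 0 => ((fun i => i.elim0 : Fin 0 → Fin m₁ → Fin m) i) (g i)) = r :=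
      Subsingleton.elim _ _
    rw [hr3]
    exact hr
  | succ n ih =>
    obtain ⟨m₀, hm₀⟩ := ih (ρ / 2 * (ρ / 4) ^ m₁) (by positivity)
    obtain ⟨m₂, hm₂⟩ := exists_nat_gt (4 * m₁ / ρ)
    refine ⟨max m₀ (max m₂ (m₁ + 1)), fun m hm R hR => ?_⟩
    have hmm₀ : m₀ ≤ m := le_trans (le_max_left _ _) hm
    have hmm₂ : m₂ ≤ m := le_trans (le_trans (le_max_left _ _) (le_max_right _ _)) hm
    have hmm₁ : m₁ + 1 ≤ m := le_trans (le_trans (le_max_right _ _) (le_max_right _ _)) hm
    have hmpos : (0:ℝ) < m := by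
      have : 0 < m := by omega
      exact_mod_cast this
    have hbig : (m₁ : ℝ) ≤ ρ / 4 * m := by
      have h1 : 4 * (m₁:ℝ) / ρ < m := lt_of_lt_of_le hm₂ (by exact_mod_cast hmm₂)
      rw [div_lt_iff₀ hρ] at h1
      linarith
    -- the fibres
    set S : (Fin n → Fin m) → Finset (Fin m) :=
      fun x => Finset.univ.filter (fun j => (Fin.cons j x : Fin (n+1) → Fin m) ∈ R) with hS
    have hsum : ∑ x, ((S x).card : ℝ) = R.card := by
      have h1 : ∑ x, (S x).card = R.card := by
        have h2 : R.card = ∑ x : Fin n → Fin m, (R.filter (fun y => Fin.tail y = x)).card := by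
          rw [Finset.card_eq_sum_card_fiberwise (f := fun y : Fin (n+1) → Fin m => Fin.tail y)
            (t := Finset.univ)]
          intro y _
          simp
        rw [h2]
        refine Finset.sum_congr rfl fun x _ => ?_
        refine Finset.card_bij (fun j _ => (Fin.cons j x : Fin (n+1) → Fin m)) ?_ ?_ ?_
        · intro j hj
          simp only [hS, Finset.mem_filter, Finset.mem_univ, true_and] at hj
          simp only [Finset.mem_filter]
          exact ⟨hj, by simp⟩
        · intro j _ j' _ h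
          have := congrFun h 0
          simpa using this
        · intro y hy
          simp only [Finset.mem_filter] at hy
          refine ⟨y 0, ?_, ?_⟩
          · simp only [hS, Finset.mem_filter, Finset.mem_univ, true_and]
            rw [← hy.2, Fin.cons_self_tail]
            exact hy.1
          · rw [← hy.2, Fin.cons_self_tail]
      exact_mod_cast h1
    set X := Finset.univ.filter (fun x => ρ / 2 * m ≤ ((S x).card : ℝ)) with hX
    have hXcard : ρ / 2 * (m:ℝ)^n ≤ X.card := by
      have h1 : ∑ x, ((S x).card : ℝ) ≤ ∑ x, ((if x ∈ X then (m:ℝ) else 0) + ρ / 2 * m) := by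
        refine Finset.sum_le_sum fun x _ => ?_
        split_ifs with hx
        · have h2 : ((S x).card : ℝ) ≤ m := by
            have : (S x).card ≤ m := by
              calc (S x).card ≤ Fintype.card (Fin m) := Finset.card_le_univ _
                _ = m := by simp
            exact_mod_cast this
          have : 0 ≤ ρ / 2 * m := by positivity
          linarith
        · simp only [hX, Finset.mem_filter, Finset.mem_univ, true_and, not_le] at hx
          linarith
      rw [hsum, Finset.sum_add_distrib, Finset.sum_ite_mem, Finset.univ_inter, Finset.sum_const,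
        Finset.sum_const, nsmul_eq_mul, nsmul_eq_mul, Finset.card_univ] at h1
      have h3 : (Fintype.card (Fin n → Fin m) : ℝ) = (m:ℝ)^n := by
        simp
      rw [h3] at h1
      have h4 : ρ * (m:ℝ)^(n+1) = ρ * (m:ℝ)^n * m := by ring
      rw [h4] at hR
      have h5 : ρ / 2 * (m:ℝ)^n * m ≤ X.card * m := by
        have : ρ * (m:ℝ)^n * m ≤ X.card * m + (m:ℝ)^n * (ρ / 2 * m) := le_trans hR h1
        linarith
      exact le_of_mul_le_mul_right h5 hmpos
    -- choose the set of values of the first coordinate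
    have key : ∃ e : Fin m₁ ↪ Fin m, ρ / 2 * (ρ / 4) ^ m₁ * (m:ℝ)^n ≤
        ((Finset.univ.filter (fun x => ∀ k, e k ∈ S x)).card : ℝ) := by
      have hne : (Finset.univ : Finset (Fin m₁ ↪ Fin m)).Nonempty := by
        refine ⟨⟨fun k => ⟨k.1, by omega⟩, ?_⟩, Finset.mem_univ _⟩
        intro a b h
        simpa [Fin.ext_iff] using h
      have hdc : ∑ e : Fin m₁ ↪ Fin m, ((Finset.univ.filter (fun x => ∀ k, e k ∈ S x)).card : ℝ)
          = ∑ x, ((Finset.univ.filter (fun e : Fin m₁ ↪ Fin m => ∀ k, e k ∈ S x)).card : ℝ) := by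
        simp_rw [Finset.card_filter, Nat.cast_sum]
        exact Finset.sum_comm
      have hlow : ∀ x ∈ X, (ρ / 4 * m) ^ m₁ ≤
          ((Finset.univ.filter (fun e : Fin m₁ ↪ Fin m => ∀ k, e k ∈ S x)).card : ℝ) := by
        intro x hx
        simp only [hX, Finset.mem_filter, Finset.mem_univ, true_and] at hx
        have h1 : ((S x).card + 1 - m₁)^m₁ ≤
            (Finset.univ.filter (fun e : Fin m₁ ↪ Fin m => ∀ k, e k ∈ S x)).card :=
          le_trans (Nat.pow_sub_le_descFactorial _ _) (card_embeddings_ge (S x))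
        have h2 : ρ / 4 * m ≤ (((S x).card + 1 - m₁ : ℕ) : ℝ) := by
          have h3 : (m₁:ℝ) ≤ ((S x).card : ℝ) := by linarith
          have h3' : m₁ ≤ (S x).card := by exact_mod_cast h3
          rw [Nat.cast_sub (by omega)]
          push_cast
          linarith
        calc (ρ / 4 * m) ^ m₁ ≤ (((S x).card + 1 - m₁ : ℕ) : ℝ) ^ m₁ :=
              pow_le_pow_left₀ (by positivity) h2 _
          _ ≤ _ := by exact_mod_cast h1
      have htot : ∑ _e : Fin m₁ ↪ Fin m, (ρ / 2 * (ρ / 4) ^ m₁ * (m:ℝ)^n) ≤
          ∑ e : Fin m₁ ↪ Fin m, ((Finset.univ.filter (fun x => ∀ k, e k ∈ S x)).card : ℝ) := by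
        rw [hdc, Finset.sum_const, nsmul_eq_mul]
        have hcard : (((Finset.univ : Finset (Fin m₁ ↪ Fin m)).card : ℕ) : ℝ) ≤ (m:ℝ)^m₁ := by
          have : (Finset.univ : Finset (Fin m₁ ↪ Fin m)).card ≤ m ^ m₁ := by
            rw [Finset.card_univ, Fintype.card_embedding_eq]
            simp only [Fintype.card_fin]
            exact Nat.descFactorial_le_pow _ _
          exact_mod_cast this
        calc (((Finset.univ : Finset (Fin m₁ ↪ Fin m)).card : ℕ) : ℝ)
              * (ρ / 2 * (ρ / 4) ^ m₁ * (m:ℝ)^n)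
            ≤ (m:ℝ)^m₁ * (ρ / 2 * (ρ / 4) ^ m₁ * (m:ℝ)^n) :=
              mul_le_mul_of_nonneg_right hcard (by positivity)
          _ = (ρ / 2 * (m:ℝ)^n) * (ρ / 4 * m)^m₁ := by rw [mul_pow]; ring
          _ ≤ X.card * (ρ / 4 * m)^m₁ := mul_le_mul_of_nonneg_right hXcard (by positivity)
          _ = ∑ _x ∈ X, (ρ / 4 * m)^m₁ := by rw [Finset.sum_const, nsmul_eq_mul]
          _ ≤ ∑ x ∈ X, ((Finset.univ.filter
                (fun e : Fin m₁ ↪ Fin m => ∀ k, e k ∈ S x)).card : ℝ) := Finset.sum_le_sum hlow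
          _ ≤ ∑ x, ((Finset.univ.filter
                (fun e : Fin m₁ ↪ Fin m => ∀ k, e k ∈ S x)).card : ℝ) :=
              Finset.sum_le_sum_of_subset_of_nonneg (Finset.subset_univ _)
                (fun _ _ _ => Nat.cast_nonneg _)
      obtain ⟨e, _, he⟩ := Finset.exists_le_of_sum_le hne htot
      exact ⟨e, he⟩
    obtain ⟨e, he⟩ := key
    obtain ⟨C, hC, hCR⟩ := hm₀ m hmm₀ _ he
    refine ⟨Fin.cons (⇑e) C, ?_, ?_⟩
    · intro i
      refine Fin.cases ?_ (fun i => ?_) i
      · simpa using e.injective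
      · simpa using hC i
    · intro g
      have h1 := hCR (fun i => g i.succ)
      simp only [hS, Finset.mem_filter, Finset.mem_univ, true_and] at h1
      have h2 := h1 (g 0)
      have h3 : (fun i => (Fin.cons (⇑e) C : Fin (n+1) → Fin m₁ → Fin m) i (g i)) =
          (Fin.cons (e (g 0)) (fun i => C i (g i.succ)) : Fin (n+1) → Fin m) := by
        funext i
        refine Fin.cases ?_ (fun i => ?_) i
        · simp
        · simp
      rw [h3]
      exact h2

end Pool.Agent.SNIP
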