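import Mathlib
import Pool.Agent.SNIP.Def

set_option autoImplicit false

/-!
# Selection lemma

Part of the proof of the frozen statement S14443.
-/

namespace Pool.Agent.SNIP

section
variable {T M : ℕ} {V : Fin T → Type}

/-- change the value of `τ` at `(b, j)` to `v` -/
def upd (b : Fin T) (j : Fin M) (τ : ∀ b, Fin M → V b) (v : V b) : ∀ b, Fin M → V b :=
  Function.update τ b (Function.update (τ b) j v)

theorem upd_same (b : Fin T) (j : Fin M) (τ : ∀ b, Fin M → V b) (v : V b) :
    upd b j τ v b j = v := by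
  simp [upd]

theorem upd_upd (b : Fin T) (j : Fin M) (τ : ∀ b, Fin M → V b) (v w : V b) :
    upd b j (upd b j τ v) w = upd b j τ w := by
  simp [upd]

theorem upd_self (b : Fin T) (j : Fin M) (τ : ∀ b, Fin M → V b) :
    upd b j τ (τ b j) = τ := by
  simp [upd]

theorem upd_sel (b : Fin T) (j : Fin M) (τ : ∀ b, Fin M → V b) (v : V b) (η : Fin T → Fin M)
    (h : j ≠ η b) : (fun b' => upd b j τ v b' (η b')) = fun b' => τ b' (η b') := by
  funext b'
  by_cases hb : b' = b
  · subst hb
    simp [upd, Function.update_of_ne (Ne.symm h)]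
  · simp [upd, Function.update_of_ne hb]

theorem bad_le [∀ b, Fintype (V b)] [∀ b, Nonempty (V b)]
    (R : (∀ b, V b) → ∀ b, Set (V b)) (ρ : ℝ)
    (hR : ∀ π b, ((R π b).ncard : ℝ) ≤ ρ * Fintype.card (V b))
    (η : Fin T → Fin M) (b : Fin T) (j : Fin M) (hj : j ≠ η b) 
    [Fintype (∀ b, Fin M → V b)]
    [DecidablePred fun τ : (∀ b, Fin M → V b) => τ b j ∈ R (fun b' => τ b' (η b')) b] :
    ((Finset.univ.filter (fun τ : (∀ b, Fin M → V b) =>
      τ b j ∈ R (fun b' => τ b' (η b')) b)).card : ℝ) ≤ ρ * Fintype.card (∀ b, Fin M → V b) := by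
  classical
  set B := Finset.univ.filter (fun τ : (∀ b, Fin M → V b) =>
      τ b j ∈ R (fun b' => τ b' (η b')) b) with hB
  have h1 : (B ×ˢ (Finset.univ : Finset (V b))).card =
      ((Finset.univ : Finset ((∀ b, Fin M → V b) × V b)).filter
        (fun p => p.2 ∈ R (fun b' => p.1 b' (η b')) b)).card := by
    refine Finset.card_bij' (fun p _ => (upd b j p.1 p.2, p.1 b j))
      (fun p _ => (upd b j p.1 p.2, p.1 b j)) ?_ ?_ ?_ ?_
    · rintro ⟨τ, v⟩ hp
      simp only [hB, Finset.mem_product, Finset.mem_filter, Finset.mem_univ, true_and,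
        and_true] at hp
      simp only [Finset.mem_filter, Finset.mem_univ, true_and]
      rw [upd_sel b j τ v η hj]
      exact hp
    · rintro ⟨τ, v⟩ hp
      simp only [Finset.mem_filter, Finset.mem_univ, true_and] at hp
      simp only [hB, Finset.mem_product, Finset.mem_filter, Finset.mem_univ, true_and,
        and_true]
      rw [upd_sel b j τ v η hj, upd_same]
      exact hp
    · rintro ⟨τ, v⟩ hp
      simp [upd_upd, upd_self, upd_same]
    · rintro ⟨τ, v⟩ hp
      simp [upd_upd, upd_self, upd_same]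
  have h2 : (((Finset.univ : Finset ((∀ b, Fin M → V b) × V b)).filter
        (fun p => p.2 ∈ R (fun b' => p.1 b' (η b')) b)).card : ℝ) ≤
      Fintype.card (∀ b, Fin M → V b) * (ρ * Fintype.card (V b)) := by
    rw [Finset.card_filter, Nat.cast_sum, ← Finset.univ_product_univ, Finset.sum_product]
    have h3 : ∀ τ : (∀ b, Fin M → V b), (∑ v : V b,
        (((if v ∈ R (fun b' => τ b' (η b')) b then 1 else 0 : ℕ)) : ℝ)) ≤
          ρ * Fintype.card (V b) := by
      intro τ
      refine le_trans (le_of_eq ?_) (hR (fun b' => τ b' (η b')) b)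
      rw [← Nat.cast_sum, ← Finset.card_filter, Set.ncard_eq_toFinset_card',
        Set.toFinset_card]
      congr 1
      rw [← Fintype.card_subtype]
    refine le_trans (Finset.sum_le_sum fun τ _ => h3 τ) ?_
    rw [Finset.sum_const, nsmul_eq_mul, Finset.card_univ]
  rw [Finset.card_product, Finset.card_univ] at h1
  have h4 : (B.card : ℝ) * Fintype.card (V b) ≤
      (ρ * Fintype.card (∀ b, Fin M → V b)) * Fintype.card (V b) := by
    have h5 : (B.card : ℝ) * Fintype.card (V b) = (((Finset.univ : Finset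
        ((∀ b, Fin M → V b) × V b)).filter
        (fun p => p.2 ∈ R (fun b' => p.1 b' (η b')) b)).card : ℝ) := by
      exact_mod_cast h1
    rw [h5]
    refine le_trans h2 (le_of_eq ?_)
    ring
  have hpos : (0:ℝ) < Fintype.card (V b) := by
    exact_mod_cast Fintype.card_pos
  exact le_of_mul_le_mul_right h4 hpos

end

/-- selection lemma -/
theorem selection (T M : ℕ) (V : Fin T → Type) [∀ b, Fintype (V b)] [∀ b, Nonempty (V b)]
    (R : (∀ b, V b) → ∀ b, Set (V b)) (ρ : ℝ)
    (hR : ∀ π b, ((R π b).ncard : ℝ) ≤ ρ * Fintype.card (V b))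
    (hρ : (M : ℝ) ^ T * T * M * ρ < 1) :
    ∃ τ : ∀ b, Fin M → V b, ∀ (η : Fin T → Fin M) (b : Fin T) (j : Fin M), j ≠ η b →
      τ b j ∉ R (fun b' => τ b' (η b')) b := by
  classical
  by_contra hcon
  push Not at hcon
  -- every `τ` is bad for some triple
  have hcover : (Finset.univ : Finset (∀ b, Fin M → V b)) ⊆
      (Finset.univ : Finset ((Fin T → Fin M) × Fin T × Fin M)).biUnion (fun t =>
        if t.2.2 ≠ t.1 t.2.1 then Finset.univ.filter (fun τ : (∀ b, Fin M → V b) =>
          τ t.2.1 t.2.2 ∈ R (fun b' => τ b' (t.1 b')) t.2.1) else ∅) := by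
    intro τ _
    obtain ⟨η, b, j, hj, hbad⟩ := hcon τ
    rw [Finset.mem_biUnion]
    refine ⟨(η, b, j), Finset.mem_univ _, ?_⟩
    simp only
    rw [if_pos hj]
    simp [hbad]
  have hcard := Finset.card_le_card hcover
  have hcard2 : (Fintype.card (∀ b, Fin M → V b) : ℝ) ≤
      ∑ t : (Fin T → Fin M) × Fin T × Fin M, (((if t.2.2 ≠ t.1 t.2.1 then
        Finset.univ.filter (fun τ : (∀ b, Fin M → V b) =>
          τ t.2.1 t.2.2 ∈ R (fun b' => τ b' (t.1 b')) t.2.1) else ∅).card : ℕ) : ℝ) := by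
    have h := le_trans hcard Finset.card_biUnion_le
    rw [Finset.card_univ] at h
    exact_mod_cast h
  have hpos : (0:ℝ) < Fintype.card (∀ b, Fin M → V b) := by
    exact_mod_cast Fintype.card_pos
  have hbound : ∀ t : (Fin T → Fin M) × Fin T × Fin M, (((if t.2.2 ≠ t.1 t.2.1 then
        Finset.univ.filter (fun τ : (∀ b, Fin M → V b) =>
          τ t.2.1 t.2.2 ∈ R (fun b' => τ b' (t.1 b')) t.2.1) else ∅).card : ℕ) : ℝ) ≤
      ρ * Fintype.card (∀ b, Fin M → V b) := by
    rintro ⟨η, b, j⟩
    have hρ0 : 0 ≤ ρ := by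
      have h1 := hR (fun b' => Classical.arbitrary _) b
      have h2 : (0:ℝ) ≤ ρ * Fintype.card (V b) := le_trans (Nat.cast_nonneg _) h1
      have h3 : (0:ℝ) < Fintype.card (V b) := by exact_mod_cast Fintype.card_pos
      by_contra h
      push Not at h
      nlinarith [mul_pos_of_neg_of_neg h (neg_lt_zero.2 h3)]
    split_ifs with h
    · exact bad_le R ρ hR η b j h
    · simp only [Finset.card_empty, Nat.cast_zero]
      positivity
  have h5 := le_trans hcard2 (Finset.sum_le_sum fun t _ => hbound t)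
  rw [Finset.sum_const, nsmul_eq_mul, Finset.card_univ] at h5
  have h6 : (Fintype.card ((Fin T → Fin M) × Fin T × Fin M) : ℝ) = (M:ℝ)^T * T * M := by
    simp only [Fintype.card_prod, Fintype.card_fun, Fintype.card_fin]
    push_cast
    ring
  rw [h6] at h5
  have h7 : (M:ℝ)^T * T * M * (ρ * Fintype.card (∀ b, Fin M → V b)) =
      ((M : ℝ) ^ T * T * M * ρ) * Fintype.card (∀ b, Fin M → V b) := by ring
  rw [h7] at h5
  nlinarith [mul_lt_mul_of_pos_right hρ hpos]

end Pool.Agent.SNIP
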