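import Mathlib
import Pool.Agent.SNIP.Def
import Pool.Agent.SNIP.P1
import Pool.Agent.SNIP.P3a
import Pool.Agent.SNIP.P3b

/-!
# No disjoint arrays in many variables
-/

set_option autoImplicit false

namespace Pool.Agent.SNIP

/-- the index map used to view the first variable as a parameter -/
def p3e (D : ℕ) (κ : Type) : Fin (D + 1) ⊕ κ → Fin D ⊕ (Fin 1 ⊕ κ) :=
  Sum.elim (Fin.cases (Sum.inr (Sum.inl 0)) Sum.inl) (fun k => Sum.inr (Sum.inr k))

/-- the index map used for a block of formulas -/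
def p3f (D : ℕ) {n : ℕ} (κ : Fin n → Type) (i : Fin n) :
    Fin (D + 1) ⊕ κ i → (Fin 1 ⊕ (Σ i, κ i)) ⊕ Fin D :=
  Sum.elim (Fin.cases (Sum.inl (Sum.inl 0)) Sum.inr) (fun k => Sum.inl (Sum.inr ⟨i, k⟩))

theorem p3e_elim {K : Type} (D : ℕ) (κ : Type) (x' : Fin D → K) (c : Fin 1 → K) (y : κ → K) :
    (fun v => Sum.elim x' (Sum.elim c y) (p3e D κ v)) =
      Sum.elim (Fin.cons (α := fun _ => K) (c 0) x') y := by
  funext v
  rcases v with v | k
  · refine Fin.cases ?_ (fun l => ?_) v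
    · rfl
    · rfl
  · rfl

theorem p3f_elim {K : Type} (D : ℕ) {n : ℕ} (κ : Fin n → Type) (i : Fin n) (x' : Fin D → K)
    (c : Fin 1 → K) (z : (Σ i, κ i) → K) :
    (fun v => Sum.elim (Sum.elim c z) x' (p3f D κ i v)) =
      Sum.elim (Fin.cons (α := fun _ => K) (c 0) x') (fun k => z ⟨i, k⟩) := by
  funext v
  rcases v with v | k
  · refine Fin.cases ?_ (fun l => ?_) v
    · rfl
    · rfl
  · rfl

theorem no_disjoint_array {K : Type} [Field K] [LinearOrder K] [IsStrictOrderedRing K]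
    (h : StrongNIP K) (D : ℕ) (κ : ℕ → Type) (Φ : ∀ i : ℕ, Set ((Fin D ⊕ κ i) → K))
    (hΦ : ∀ i, DfnI K (Φ i)) :
    ¬ ∀ n m : ℕ, ∃ y : ∀ i : Fin n, Fin m → (κ i.val → K),
      (∀ (i : Fin n) (j j' : Fin m), j ≠ j' → ∀ x : Fin D → K,
        ¬ (Sum.elim x (y i j) ∈ Φ i.val ∧ Sum.elim x (y i j') ∈ Φ i.val)) ∧
      ∀ η : Fin n → Fin m, ∃ x : Fin D → K, ∀ i : Fin n, Sum.elim x (y i (η i)) ∈ Φ i.val := by
  classical
  induction D generalizing κ with
  | zero =>
    intro hA
    obtain ⟨y, hd, hp⟩ := hA 1 2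
    obtain ⟨x, hx⟩ := hp fun _ => 0
    obtain ⟨x', hx'⟩ := hp fun _ => 1
    have e : x' = x := Subsingleton.elim _ _
    subst e
    exact hd 0 0 1 (by decide) x' ⟨hx 0, hx' 0⟩
  | succ D ih =>
    intro hA
    have hfin : ∀ i, Finite (κ i) := fun i => by
      have := (hΦ i).finite
      exact Finite.of_injective (Sum.inr : κ i → Fin (D + 1) ⊕ κ i) Sum.inr_injective
    have key : ∀ s : ℕ, ∃ n m : ℕ, ∀ (ξ : K) (y : ∀ i : Fin n, Fin m → (κ (s + i.val) → K)),
        (∀ (i : Fin n) (j j' : Fin m), j ≠ j' → ∀ x' : Fin D → K,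
          ¬ (Sum.elim (Fin.cons (α := fun _ => K) ξ x') (y i j) ∈ Φ (s + i.val) ∧
            Sum.elim (Fin.cons (α := fun _ => K) ξ x') (y i j') ∈ Φ (s + i.val))) →
        ¬ ∀ η : Fin n → Fin m, ∃ x' : Fin D → K, ∀ i : Fin n,
          Sum.elim (Fin.cons (α := fun _ => K) ξ x') (y i (η i)) ∈ Φ (s + i.val) := by
      intro s
      by_contra hcon
      push Not at hcon
      refine ih (fun i => Fin 1 ⊕ κ (s + i))
        (fun i => {z | (fun v => z (p3e D (κ (s + i)) v)) ∈ Φ (s + i)}) ?_ ?_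
      · intro i
        have := hfin (s + i)
        exact dfnI_comap (hΦ (s + i)) (p3e D (κ (s + i)))
      · intro n m
        obtain ⟨ξ, y, h1, h2⟩ := hcon n m
        refine ⟨fun i j => Sum.elim (fun _ => ξ) (y i j), ?_, ?_⟩
        · intro i j j' hj x hx
          simp only [Set.mem_ofPred_eq, p3e_elim] at hx
          exact h1 i j j' hj x hx.1 hx.2
        · intro η
          obtain ⟨x', hx'⟩ := h2 η
          refine ⟨x', fun i => ?_⟩
          simp only [Set.mem_ofPred_eq, p3e_elim]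
          exact hx' i
    choose n m hnm using key
    obtain ⟨s, hs0, hs1⟩ : ∃ s : ℕ → ℕ, s 0 = 0 ∧ ∀ b, s (b + 1) = s b + n (s b) :=
      ⟨fun b => Nat.rec 0 (fun _ t => t + n t) b, rfl, fun _ => rfl⟩
    have hsm : Monotone s := monotone_nat_of_le_succ fun b => by rw [hs1]; omega
    have hstep : ∀ b c : ℕ, b < c → s b + n (s b) ≤ s c := by
      intro b c hbc
      rw [← hs1]
      exact hsm hbc
    set κ' : ℕ → Type := fun b => Σ i : Fin (n (s b)), κ (s b + i.val) with hκ'
    set Psi : ∀ b : ℕ, Set (Fin 1 ⊕ κ' b → K) := fun b =>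
      {z | ∃ x' : Fin D → K, Sum.elim z x' ∈ ⋂ i : Fin (n (s b)),
        {w | (fun v => w (p3f D (fun i : Fin (n (s b)) => κ (s b + i.val)) i v)) ∈
          Φ (s b + i.val)}} with hPsi
    have hPsiD : ∀ b, DfnI K (Psi b) := by
      intro b
      have : ∀ i : Fin (n (s b)), Finite (κ (s b + i.val)) := fun i => hfin _
      have : Finite (κ' b) := by
        rw [hκ']
        infer_instance
      exact dfnI_exists (dfnI_iInter fun i => dfnI_comap (hΦ _) _)
    have hmem : ∀ (b : ℕ) (c : Fin 1 → K) (z : κ' b → K), Sum.elim c z ∈ Psi b ↔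
        ∃ x' : Fin D → K, ∀ i : Fin (n (s b)),
          Sum.elim (Fin.cons (α := fun _ => K) (c 0) x') (fun k => z ⟨i, k⟩) ∈ Φ (s b + i.val) := by
      intro b c z
      rw [hPsi]
      simp only [Set.mem_ofPred_eq, Set.mem_iInter]
      refine exists_congr fun x' => forall_congr' fun i => ?_
      exact Iff.of_eq (congrArg (fun w => w ∈ Φ (s b + i.val))
        (p3f_elim D (fun i : Fin (n (s b)) => κ (s b + i.val)) i x' c z))
    refine strongNIP_general h κ' Psi hPsiD ?_
    intro T M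
    have hB : (0 : ℝ) ≤ (M : ℝ) ^ T * T * M := by positivity
    set ρ : ℝ := 1 / ((M : ℝ) ^ T * T * M + 1) with hρ
    have hρ0 : 0 < ρ := by positivity
    have hρ1 : (M : ℝ) ^ T * T * M * ρ < 1 := by
      rw [hρ, mul_one_div, div_lt_one (by positivity)]
      linarith
    have hbox := fun b : Fin T => box_density (n (s b)) (m (s b)) ρ hρ0
    choose m₀ hm₀ using hbox
    set m1 : ℕ := 1 + ∑ b : Fin T, m₀ b with hm1
    have hm1le : ∀ b : Fin T, m₀ b ≤ m1 := by
      intro b
      have := Finset.single_le_sum (f := m₀) (fun _ _ => Nat.zero_le _) (Finset.mem_univ b)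
      omega
    have hm1pos : 0 < m1 := by omega
    obtain ⟨y, hdisj, hpath⟩ := hA (s T) m1
    have hlt : ∀ (b : Fin T) (i : Fin (n (s b))), s b + i.val < s T := by
      intro b i
      have := hstep b T b.2
      have := i.2
      omega
    set ab : ∀ b : Fin T, (Fin (n (s b)) → Fin m1) → (κ' b → K) := fun b v p =>
      y ⟨s b + p.1.val, hlt b p.1⟩ (v p.1) p.2 with hab
    have hinj : Function.Injective (fun p : Σ b : Fin T, Fin (n (s b)) =>
        (⟨s p.1 + p.2.val, hlt p.1 p.2⟩ : Fin (s T))) := by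
      rintro ⟨b, i⟩ ⟨c, j⟩ hbc
      simp only [Fin.mk.injEq] at hbc
      have hi := i.2
      have hj := j.2
      have e : b = c := by
        rcases lt_trichotomy b c with h1 | h1 | h1
        · have := hstep b c h1
          omega
        · exact h1
        · have := hstep c b h1
          omega
      subst e
      have : i = j := Fin.ext (by omega)
      rw [this]
    have hX : ∀ π : ∀ b : Fin T, Fin (n (s b)) → Fin m1, ∃ x : Fin (D + 1) → K,
        ∀ (b : Fin T) (i : Fin (n (s b))),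
          Sum.elim x (y ⟨s b + i.val, hlt b i⟩ (π b i)) ∈ Φ (s b + i.val) := by
      intro π
      obtain ⟨x, hx⟩ := hpath (Function.extend (fun p : Σ b : Fin T, Fin (n (s b)) =>
        (⟨s p.1 + p.2.val, hlt p.1 p.2⟩ : Fin (s T))) (fun p => π p.1 p.2) fun _ => ⟨0, hm1pos⟩)
      refine ⟨x, fun b i => ?_⟩
      have h1 := hx ⟨s b + i.val, hlt b i⟩
      have h2 := hinj.extend_apply (fun p => π p.1 p.2) (fun _ => ⟨0, hm1pos⟩) ⟨b, i⟩
      simp only at h2
      rw [h2] at h1
      exact h1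
    choose X hX using hX
    set Rs : ∀ b : Fin T, K → Set (Fin (n (s b)) → Fin m1) := fun b ξ =>
      {v | Sum.elim (fun _ => ξ) (ab b v) ∈ Psi b} with hRs
    have hcard : ∀ (b : Fin T) (ξ : K), ((Rs b ξ).ncard : ℝ) ≤
        ρ * Fintype.card (Fin (n (s b)) → Fin m1) := by
      intro b ξ
      by_contra hcon
      push Not at hcon
      have h1 : ρ * (m1 : ℝ) ^ (n (s b)) ≤ ((Rs b ξ).toFinset.card : ℝ) := by
        rw [← Set.ncard_eq_toFinset_card']
        rw [Fintype.card_fun, Fintype.card_fin, Fintype.card_fin] at hcon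
        push_cast at hcon
        exact hcon.le
      obtain ⟨C, hC1, hC2⟩ := hm₀ b m1 (hm1le b) _ h1
      refine hnm (s b) ξ (fun i j => y ⟨s b + i.val, hlt b i⟩ (C i j)) ?_ ?_
      · intro i j j' hj x'
        exact hdisj ⟨s b + i.val, hlt b i⟩ (C i j) (C i j') (fun e => hj (hC1 i e)) _
      · intro η
        have h2 := hC2 η
        rw [Set.mem_toFinset, hRs] at h2
        have h3 := (hmem b (fun _ => ξ) (ab b fun i => C i (η i))).1 h2
        obtain ⟨x', hx'⟩ := h3
        exact ⟨x', fun i => hx' i⟩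
    have : ∀ b : Fin T, Nonempty (Fin (n (s b)) → Fin m1) := fun b => ⟨fun _ => ⟨0, hm1pos⟩⟩
    obtain ⟨τ, hτ⟩ := selection T M (fun b => Fin (n (s b)) → Fin m1)
      (fun π b => Rs b (X π 0)) ρ (fun π b => hcard b _) hρ1
    refine ⟨fun b j => ab b (τ b j), fun η => ⟨fun _ => X (fun b' => τ b' (η b')) 0, ?_⟩⟩
    intro b j
    constructor
    · intro h1
      by_contra hj
      exact hτ η b j hj h1
    · rintro rfl
      rw [hmem]
      refine ⟨Fin.tail (X fun b' => τ b' (η b')), fun i => ?_⟩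
      rw [Fin.cons_self_tail]
      exact hX (fun b' => τ b' (η b')) b i

end Pool.Agent.SNIP
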