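import Mathlib
import Pool.Agent.SNIP.Def
import Pool.Agent.SNIP.P1
import Pool.Agent.SNIP.P3c

set_option autoImplicit false

namespace Pool.Agent.SNIP

namespace P9b

/-- multiplication with structure constants `c` -/
def mulc {A : Type} [CommSemiring A] {D : ℕ} (c : Fin (D + 1) × Fin (D + 1) × Fin (D + 1) → A)
    (x y : Fin (D + 1) → A) : Fin (D + 1) → A :=
  fun k => ∑ i, ∑ j, c (i, j, k) * x i * y j

/-- `y * z ^ q` with respect to `mulc c` -/
def iter {A : Type} [CommSemiring A] {D : ℕ} (c : Fin (D + 1) × Fin (D + 1) × Fin (D + 1) → A)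
    (y z : Fin (D + 1) → A) : ℕ → Fin (D + 1) → A
  | 0 => y
  | (q + 1) => mulc c (iter c y z q) z

theorem map_iter {A B : Type} [CommSemiring A] [CommSemiring B] (φ : A →+* B) {D : ℕ}
    (c : Fin (D + 1) × Fin (D + 1) × Fin (D + 1) → A) (y z : Fin (D + 1) → A) (q : ℕ)
    (k : Fin (D + 1)) :
    φ (iter c y z q k) = iter (fun t => φ (c t)) (fun t => φ (y t)) (fun t => φ (z t)) q k := by
  induction q generalizing k with
  | zero => rfl
  | succ q ih => simp only [iter, mulc, map_sum, map_mul, ih]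

section field

variable {K L : Type} [Field K] [LinearOrder K] [IsStrictOrderedRing K]
    [Field L] [Algebra K L] {D : ℕ} (b : Module.Basis (Fin (D + 1)) K L)

/-- structure constants -/
noncomputable def sc : Fin (D + 1) × Fin (D + 1) × Fin (D + 1) → K :=
  fun t => b.repr (b t.1 * b t.2.1) t.2.2

omit [LinearOrder K] [IsStrictOrderedRing K] in
theorem repr_mul (x y : L) :
    (fun k => b.repr (x * y) k) = mulc (sc b) (fun k => b.repr x k) (fun k => b.repr y k) := by
  funext k
  conv_lhs => rw [← b.sum_repr x, ← b.sum_repr y]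
  simp only [mulc, sc]
  rw [Finset.sum_mul, map_sum, Finsupp.finsetSum_apply]
  refine Finset.sum_congr rfl fun i _ => ?_
  rw [Finset.mul_sum, map_sum, Finsupp.finsetSum_apply]
  refine Finset.sum_congr rfl fun j _ => ?_
  rw [smul_mul_smul_comm, map_smul, Finsupp.smul_apply, smul_eq_mul]
  ring

omit [LinearOrder K] [IsStrictOrderedRing K] in
theorem repr_iter (y z : L) (q : ℕ) :
    (fun k => b.repr (y * z ^ q) k) =
      iter (sc b) (fun k => b.repr y k) (fun k => b.repr z k) q := by
  induction q with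
  | zero => simp [iter]
  | succ q ih =>
    simp only [iter]
    rw [← ih, ← repr_mul, pow_succ, mul_assoc]

end field

/-- index type of the parameters -/
abbrev Ix (D : ℕ) : Type := Fin (D + 1) ⊕ (Fin (D + 1) × Fin (D + 1) × Fin (D + 1))

/-- the definable family -/
def Phi (K : Type) [Field K] (D q : ℕ) : Set ((Fin (D + 1) ⊕ Ix D) → K) :=
  {v | (∃ k : Fin (D + 1), v (Sum.inl k) ≠ 0) ∧ ∃ z : Fin (D + 1) → K, ∀ k : Fin (D + 1),
    v (Sum.inl k) = iter (fun t => v (Sum.inr (Sum.inr t))) (fun t => v (Sum.inr (Sum.inl t))) z q k}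

variable {K : Type} [Field K] [LinearOrder K] [IsStrictOrderedRing K]

theorem dfn_Phi (D q : ℕ) : DfnI K (Phi K D q) := by
  have h1 : DfnI K {v : (Fin (D + 1) ⊕ Ix D) → K | ∃ k : Fin (D + 1), v (Sum.inl k) ≠ 0} := by
    have : {v : (Fin (D + 1) ⊕ Ix D) → K | ∃ k : Fin (D + 1), v (Sum.inl k) ≠ 0} =
        ⋃ k : Fin (D + 1), {v : (Fin (D + 1) ⊕ Ix D) → K |
          MvPolynomial.eval₂ (Int.castRingHom K) v (MvPolynomial.X (Sum.inl k)) = 0}ᶜ := by
      ext v
      simp
    rw [this]
    exact dfnI_iUnion fun k => dfnI_compl (dfnI_eq_zero _)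
  have h2 : DfnI K {v : ((Fin (D + 1) ⊕ Ix D) ⊕ Fin (D + 1)) → K | ∀ k : Fin (D + 1),
      v (Sum.inl (Sum.inl k)) = iter (fun t => v (Sum.inl (Sum.inr (Sum.inr t))))
        (fun t => v (Sum.inl (Sum.inr (Sum.inl t)))) (fun t => v (Sum.inr t)) q k} := by
    have : {v : ((Fin (D + 1) ⊕ Ix D) ⊕ Fin (D + 1)) → K | ∀ k : Fin (D + 1),
      v (Sum.inl (Sum.inl k)) = iter (fun t => v (Sum.inl (Sum.inr (Sum.inr t))))
        (fun t => v (Sum.inl (Sum.inr (Sum.inl t)))) (fun t => v (Sum.inr t)) q k} =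
        ⋂ k : Fin (D + 1), {v : ((Fin (D + 1) ⊕ Ix D) ⊕ Fin (D + 1)) → K |
          MvPolynomial.eval₂ (Int.castRingHom K) v
            (MvPolynomial.X (Sum.inl (Sum.inl k)) -
              iter (fun t => MvPolynomial.X (Sum.inl (Sum.inr (Sum.inr t))))
                (fun t => MvPolynomial.X (Sum.inl (Sum.inr (Sum.inl t))))
                (fun t => MvPolynomial.X (Sum.inr t)) q k) = 0} := by
      ext v
      simp only [Set.mem_ofPred_eq, Set.mem_iInter]
      refine forall_congr' fun k => ?_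
      rw [← MvPolynomial.coe_eval₂Hom, map_sub, map_iter]
      simp only [MvPolynomial.coe_eval₂Hom, MvPolynomial.eval₂_X]
      rw [sub_eq_zero]
    rw [this]
    exact dfnI_iInter fun k => dfnI_eq_zero _
  have h3 := dfnI_exists h2
  have h4 := dfnI_inter h1 h3
  have h5 : ∀ s : Set ((Fin (D + 1) ⊕ Ix D) → K), DfnI K s → (∀ v, v ∈ s ↔ v ∈ Phi K D q) →
      DfnI K (Phi K D q) := by
    intro s hs hv
    have : s = Phi K D q := Set.ext hv
    rwa [this] at hs
  refine h5 _ h4 fun v => ?_
  constructor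
  · rintro ⟨a, z, hz⟩
    exact ⟨a, z, hz⟩
  · rintro ⟨a, z, hz⟩
    exact ⟨a, z, hz⟩

/-- pairwise inequivalent elements -/
theorem exists_inequiv {L : Type} [Field L] {q : ℕ} (hq : ¬ FinIndex L q) (m : ℕ) :
    ∃ t : Fin m → L, (∀ j, t j ≠ 0) ∧ ∀ j j', j ≠ j' → ∀ z : L, t j ≠ t j' * z ^ q := by
  unfold FinIndex at hq
  push Not at hq
  have key : ∀ m : ℕ, ∃ T : Finset L, T.card = m ∧ (∀ t ∈ T, t ≠ 0) ∧
      ∀ t ∈ T, ∀ t' ∈ T, t ≠ t' → ∀ z : L, t ≠ t' * z ^ q := by
    intro m
    induction m with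
    | zero => exact ⟨∅, by simp, by simp, by simp⟩
    | succ m ih =>
      classical
      obtain ⟨T, hT, h0, hne⟩ := ih
      obtain ⟨x, hx0, hx⟩ := hq T
      have hxT : x ∉ T := fun h => hx x h 1 (by simp)
      refine ⟨insert x T, by rw [Finset.card_insert_of_notMem hxT, hT], ?_, ?_⟩
      · intro t ht
        rcases Finset.mem_insert.1 ht with rfl | ht
        · exact hx0
        · exact h0 t ht
      · intro t ht t' ht' htt z hz
        rcases Finset.mem_insert.1 ht with rfl | ht1
        · rcases Finset.mem_insert.1 ht' with rfl | ht'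
          · exact htt rfl
          · exact hx t' ht' z hz
        · rcases Finset.mem_insert.1 ht' with rfl | ht'
          · have hz0 : z ^ q ≠ 0 := by
              intro h
              rw [h, mul_zero] at hz
              exact h0 t ht1 hz
            refine hx t ht1 z⁻¹ ?_
            rw [hz, inv_pow, mul_assoc, mul_inv_cancel₀ hz0, mul_one]
          · exact hne t ht1 t' ht' htt z hz
  obtain ⟨T, hT, h0, hne⟩ := key m
  let e := (Finset.equivFinOfCardEq hT).symm
  refine ⟨fun j => (e j : L), fun j => h0 _ (e j).2, fun j j' hjj z => ?_⟩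
  exact hne _ (e j).2 _ (e j').2 (fun h => hjj (e.injective (Subtype.ext h))) z

/-- Chinese remainder exponents -/
theorem exists_exponents (n : ℕ) (q : Fin n → ℕ) (h2 : ∀ i, 2 ≤ q i)
    (hco : ∀ i j, i ≠ j → Nat.Coprime (q i) (q j)) :
    ∃ e : Fin n → ℕ, (∀ i, e i % q i = 1) ∧ ∀ i j, i ≠ j → q j ∣ e i := by
  classical
  have : ∀ i, ∃ u, (∏ l ∈ Finset.univ.erase i, q l) * u % q i = 1 := by
    intro i
    have hcop : Nat.Coprime (∏ l ∈ Finset.univ.erase i, q l) (q i) :=
      Nat.Coprime.prod_left fun l hl => hco l i (Finset.ne_of_mem_erase hl)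
    obtain ⟨u, -, hu⟩ := Nat.exists_mul_mod_eq_one_of_coprime hcop (h2 i)
    exact ⟨u, hu⟩
  choose u hu using this
  refine ⟨fun i => (∏ l ∈ Finset.univ.erase i, q l) * u i, hu, ?_⟩
  intro i j hij
  apply Dvd.dvd.mul_right
  exact Finset.dvd_prod_of_mem q (Finset.mem_erase.2 ⟨fun h => hij h.symm, Finset.mem_univ _⟩)

/-- the product realises the path -/
theorem prod_path {L : Type} [Field L] (n : ℕ) (q e : Fin n → ℕ) (h1 : ∀ i, e i % q i = 1)
    (h0 : ∀ i j, i ≠ j → q j ∣ e i) (t : Fin n → L) (i : Fin n) :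
    ∃ z : L, ∏ l, t l ^ e l = t i * z ^ q i := by
  classical
  have hd : ∀ l, ∃ c, l ≠ i → e l = q i * c := by
    intro l
    by_cases hl : l = i
    · exact ⟨0, fun h => absurd hl h⟩
    · obtain ⟨c, hc⟩ := h0 l i hl
      exact ⟨c, fun _ => hc⟩
  choose c hc using hd
  refine ⟨t i ^ (e i / q i) * ∏ l ∈ Finset.univ.erase i, t l ^ c l, ?_⟩
  rw [← Finset.mul_prod_erase Finset.univ _ (Finset.mem_univ i), mul_pow, ← Finset.prod_pow]
  have e1 : t i ^ e i = t i * (t i ^ (e i / q i)) ^ q i := by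
    rw [← pow_mul, ← pow_succ']
    congr 1
    have := Nat.div_add_mod (e i) (q i)
    rw [h1 i] at this
    rw [mul_comm (e i / q i)]
    exact this.symm
  rw [e1, ← mul_assoc]
  congr 1
  refine Finset.prod_congr rfl fun l hl => ?_
  rw [hc l (Finset.ne_of_mem_erase hl), ← pow_mul, mul_comm]

end P9b

open P9b in
theorem finIndex_of_strongNIP {K L : Type} [Field K] [LinearOrder K] [IsStrictOrderedRing K]
    [Field L] [Algebra K L] {D : ℕ} (b : Module.Basis (Fin (D + 1)) K L) (h : StrongNIP K) :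
    ∃ q : ℕ, 2 ≤ q ∧ FinIndex L q := by
  by_contra hcon
  push Not at hcon
  set q : ℕ → ℕ := fun i => Nat.nth Nat.Prime i with hqdef
  have hprime : ∀ i, (q i).Prime := fun i => Nat.prime_nth_prime i
  have hinj : Function.Injective q := Nat.nth_injective Nat.infinite_setOfPred_prime
  refine no_disjoint_array h (D + 1) (fun _ => Ix D) (fun i => Phi K D (q i))
    (fun i => dfn_Phi D (q i)) ?_
  intro n m
  have ht : ∀ i : Fin n, ∃ t : Fin m → L, (∀ j, t j ≠ 0) ∧
      ∀ j j', j ≠ j' → ∀ z : L, t j ≠ t j' * z ^ (q i) :=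
    fun i => exists_inequiv (hcon (q i) (hprime i).two_le) m
  choose t ht0 htne using ht
  refine ⟨fun i j => Sum.elim (fun k => b.repr (t i j) k) (sc b), ?_, ?_⟩
  · rintro i j j' hjj x ⟨⟨⟨k0, hk0⟩, z, hz⟩, ⟨_, z', hz'⟩⟩
    -- the element of `L` with coordinates `x`
    obtain ⟨X, hX⟩ : ∃ X : L, (fun k => b.repr X k) = x :=
      ⟨b.equivFun.symm x, by funext k; exact congrFun (b.equivFun.apply_symm_apply x) k⟩
    obtain ⟨Z, hZ⟩ : ∃ X : L, (fun k => b.repr X k) = z :=
      ⟨b.equivFun.symm z, by funext k; exact congrFun (b.equivFun.apply_symm_apply z) k⟩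
    obtain ⟨Z', hZ'⟩ : ∃ X : L, (fun k => b.repr X k) = z' :=
      ⟨b.equivFun.symm z', by funext k; exact congrFun (b.equivFun.apply_symm_apply z') k⟩
    subst hX hZ hZ'
    have e1 : X = t i j * Z ^ q i := by
      apply b.repr.injective
      apply Finsupp.ext
      intro k
      have := hz k
      simp only [Sum.elim_inl, Sum.elim_inr] at this
      rw [this]
      exact (congrFun (repr_iter b (t i j) Z (q i)) k).symm
    have e2 : X = t i j' * Z' ^ q i := by
      apply b.repr.injective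
      apply Finsupp.ext
      intro k
      have := hz' k
      simp only [Sum.elim_inl, Sum.elim_inr] at this
      rw [this]
      exact (congrFun (repr_iter b (t i j') Z' (q i)) k).symm
    have hX0 : X ≠ 0 := by
      rintro rfl
      exact hk0 (by simp)
    have hZ0 : Z ^ q i ≠ 0 := by
      intro h0
      rw [h0, mul_zero] at e1
      exact hX0 e1
    refine htne i j j' hjj (Z' / Z) ?_
    rw [div_pow, ← mul_div_assoc, ← e2, eq_div_iff hZ0]
    exact e1.symm
  · intro η
    obtain ⟨e, he1, he0⟩ := exists_exponents n (fun i => q i) (fun i => (hprime i).two_le)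
      (fun i j hij => (Nat.coprime_primes (hprime i) (hprime j)).2
        (fun hh => hij (Fin.ext (hinj hh))))
    refine ⟨fun k => b.repr (∏ l, t l (η l) ^ e l) k, fun i => ?_⟩
    obtain ⟨z, hz⟩ := prod_path n (fun i => q i) e he1 he0 (fun l => t l (η l)) i
    refine ⟨?_, fun k => b.repr z k, fun k => ?_⟩
    · by_contra hc
      push Not at hc
      have : ∏ l, t l (η l) ^ e l = 0 := by
        apply b.repr.injective
        apply Finsupp.ext
        intro k
        simpa using hc k
      exact (Finset.prod_ne_zero_iff.2 fun l _ => pow_ne_zero _ (ht0 l (η l))) this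
    · simp only [Sum.elim_inl, Sum.elim_inr]
      rw [hz]
      exact congrFun (repr_iter b (t i (η i)) z (q i)) k

end Pool.Agent.SNIP
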