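import Mathlib
import Pool.Agent.SNIP.Def
import Pool.Agent.SNIP.Rel
import Pool.Agent.SNIP.Norm
import Pool.Agent.SNIP.Key
import Pool.Agent.SNIP.Core
import Pool.Agent.SNIP.Endgame
import Pool.Agent.SNIP.P4b
import Pool.Agent.SNIP.P6
import Pool.Agent.SNIP.P8a
import Pool.Agent.SNIP.P8b
import Pool.Agent.SNIP.P8c
import Pool.Agent.SNIP.P9a
import Pool.Agent.SNIP.P9b

set_option autoImplicit false

namespace Pool.Agent.SNIP

theorem endProp {K L : Type} [Field K] [LinearOrder K] [IsStrictOrderedRing K] [Field L]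
    [Algebra K L] (N : L → K) (C : K) (hN : IsN N C) (q : ℕ) : EndProp N q :=
  fun δ ρ hδ hρ hs ht W hW hfin hP hvc => endgame N C hN q δ ρ hδ hρ hs ht W hW hfin hP hvc

theorem exists_field (K R : Type) [Field K] [LinearOrder K] [IsStrictOrderedRing K]
    [Field R] [LinearOrder R] [IsStrictOrderedRing R] (f : K →+* R) (hf : StrictMono (f : K → R))
    (halg : ∀ r : R, ∃ p : Polynomial K, p ≠ 0 ∧ p.eval₂ f r = 0)
    (hsq : ∀ r : R, 0 < r → ∃ s : R, s * s = r)
    (hodd : ∀ p : Polynomial R, Odd p.natDegree → ∃ r : R, p.IsRoot r)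
    (hdense : ∀ a b : R, a < b → ∃ c : K, a < f c ∧ f c < b)
    (r₀ : R) (hr₀ : ∀ c : K, f c ≠ r₀) :
    ∃ (L : Type) (_ : Field L) (_ : Algebra K L) (D : ℕ) (b : Module.Basis (Fin (D + 1)) K L),
      ∀ q : ℕ, 2 ≤ q → EXq (bnorm b) q ∧ (FinIndex L q → FINq (bnorm b) q) := by
  obtain ⟨i, av, hi, hav, hrep, hcmp⟩ := exists_omega R hsq hodd
  have hcof : ∀ r : R, 0 < r → ∃ k : K, 0 < k ∧ f k < r := by
    intro r hr
    obtain ⟨k, hk1, hk2⟩ := hdense 0 r hr
    refine ⟨k, ?_, hk2⟩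
    have : f 0 < f k := by simpa using hk1
    exact hf.lt_iff_lt.1 this
  obtain ⟨L, j1, j2, D, b, n, σ, C₁, hP⟩ := exists_places K R (AlgebraicClosure R) f hf halg hdense
    i av hi hav hrep hcmp r₀ hr₀
  obtain ⟨C, hC⟩ := bnorm_isN b
  haveI : CharZero (AlgebraicClosure R) := charZero_of_injective_algebraMap
    (algebraMap R (AlgebraicClosure R)).injective
  exact ⟨L, j1, j2, D, b, fun q hq =>
    ⟨places_ex f hf hcof av hav (bnorm b) C hC n σ C₁ hP q hq,
     fun h => places_fin f hf hcof av hav (bnorm b) C hC n σ C₁ hP q hq h⟩⟩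

/-! ### P10: final assembly -/
theorem final :
    ∀ (K : Type) [Field K] [LinearOrder K] [IsStrictOrderedRing K],
      (¬ ∃ (k : ℕ → ℕ) (S : (i : ℕ) → Set (Fin (k i + 1) → K)),
          (∀ i : ℕ, ∀ F : (n : ℕ) → Set (Set (Fin n → K)),
              (∀ (n : ℕ) (p : MvPolynomial (Fin n) ℤ),
                  {x : Fin n → K | MvPolynomial.eval₂ (Int.castRingHom K) x p = 0} ∈ F n) →
              (∀ (n : ℕ) (p : MvPolynomial (Fin n) ℤ),
                  {x : Fin n → K | 0 < MvPolynomial.eval₂ (Int.castRingHom K) x p} ∈ F n) →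
              (∀ (n : ℕ) (s : Set (Fin n → K)), s ∈ F n → sᶜ ∈ F n) →
              (∀ (n : ℕ) (s t : Set (Fin n → K)), s ∈ F n → t ∈ F n → s ∩ t ∈ F n) →
              (∀ (n : ℕ) (s : Set (Fin (n + 1) → K)), s ∈ F (n + 1) →
                  {x : Fin n → K | ∃ a : K, Fin.snoc (α := fun _ => K) x a ∈ s} ∈ F n) →
              S i ∈ F (k i + 1)) ∧
          ∀ n m : ℕ, ∃ a : (i : Fin n) → Fin m → (Fin (k i.val) → K),
            ∀ η : Fin n → Fin m, ∃ c : K, ∀ (i : Fin n) (j : Fin m),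
              (Fin.cons (α := fun _ => K) c (a i j) ∈ S i.val ↔ j = η i)) →
      (∀ (R : Type) [Field R] [LinearOrder R] [IsStrictOrderedRing R] (f : K →+* R),
          StrictMono (f : K → R) →
          (∀ r : R, ∃ p : Polynomial K, p ≠ 0 ∧ p.eval₂ f r = 0) →
          (∀ r : R, 0 < r → ∃ s : R, s * s = r) →
          (∀ p : Polynomial R, Odd p.natDegree → ∃ r : R, p.IsRoot r) →
          ∀ a b : R, a < b → ∃ c : K, a < f c ∧ f c < b) →
      (∀ x : K, 0 < x → ∃ y : K, y * y = x) ∧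
        (∀ p : Polynomial K, Odd p.natDegree → ∃ x : K, p.IsRoot x) := by
  intro K _ _ _ h1 h2
  have hS : StrongNIP K := by
    rintro ⟨k, S, hS, hpat⟩
    exact h1 ⟨k, S, fun i F a b c d e => hS i F ⟨a, b, c, d, e⟩, hpat⟩
  obtain ⟨R, i1, i2, i3, f, hf, halg, hsq, hodd⟩ := exists_realClosure K
  have hdense := h2 R f hf halg hsq hodd
  by_cases hsurj : ∀ r : R, ∃ c : K, f c = r
  · constructor
    · intro x hx
      obtain ⟨s, hs⟩ := hsq (f x) (by simpa using hf hx)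
      obtain ⟨c, rfl⟩ := hsurj s
      exact ⟨c, f.injective (by simpa using hs)⟩
    · intro p hp
      obtain ⟨r, hr⟩ := hodd (p.map f) (by rwa [Polynomial.natDegree_map])
      obtain ⟨c, rfl⟩ := hsurj r
      refine ⟨c, ?_⟩
      rw [Polynomial.IsRoot.def, Polynomial.eval_map, Polynomial.eval₂_hom] at hr
      exact (map_eq_zero f).1 hr
  · exfalso
    push Not at hsurj
    obtain ⟨r₀, hr₀⟩ := hsurj
    obtain ⟨L, j1, j2, D, b, hL⟩ := exists_field K R f hf halg hsq hodd hdense r₀ hr₀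
    obtain ⟨q, hq, hfi⟩ := finIndex_of_strongNIP b hS
    obtain ⟨C, hC⟩ := bnorm_isN b
    obtain ⟨hex, hfin⟩ := hL q hq
    exact core_of ln_lemma (bnorm b) C hC q (by omega) (endProp (bnorm b) C hC q) hex (hfin hfi)
      (fun δ _ => vc_of_strongNIP b hS q δ)

end Pool.Agent.SNIP
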