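import Mathlib
import Pool.Agent.SNIP.Final

/-!
Strong dependence of a first-order theory, in the sense of the problem file, and its link with the
one-variable finite patterns used in `Pool.Agent.SNIP.final`.
-/

set_option autoImplicit false

namespace Pool.Agent.SNIP.Th

open FirstOrder FirstOrder.Language

/-- The language of ordered rings. -/
abbrev OR : FirstOrder.Language.{0, 0} := Language.ring.sum Language.order

/-- The ring structure on a field. -/
noncomputable abbrev ringStr (K : Type) [Field K] : FirstOrder.Ring.CompatibleRing K :=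
  FirstOrder.Ring.compatibleRingOfRing K

/-- An ordered field as a structure in the language of ordered rings. -/
@[reducible]
noncomputable def orStr (K : Type) [Field K] [LinearOrder K] : OR.Structure K :=
  letI : FirstOrder.Ring.CompatibleRing K := FirstOrder.Ring.compatibleRingOfRing K
  letI : Language.order.Structure K := Language.orderStructure K
  inferInstance

/-- The complete theory of an ordered field in the language of ordered rings. -/
noncomputable def thy (K : Type) [Field K] [LinearOrder K] : OR.Theory :=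
  @Language.completeTheory OR K (orStr K)

/-- The parameters `a` in the model `M` form, with the formulas `φ n (x, y_n)`, `x` a `d`-tuple of
variables, a pattern of infinite depth: for every path `η` some elementary extension `N` of `M`
has a tuple `x` such that `φ n (x, a n j)` holds exactly for `j = η n`. -/
def IsPattern {L : FirstOrder.Language.{0, 0}} {d : ℕ} {k : ℕ → ℕ}
    (φ : (n : ℕ) → L.Formula (Fin d ⊕ Fin (k n))) (M : Type) [L.Structure M]
    (a : (n : ℕ) → ℕ → Fin (k n) → M) : Prop :=
  ∀ η : ℕ → ℕ, ∃ (N : Type) (_ : L.Structure N) (g : M ↪ₑ[L] N) (x : Fin d → N),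
    ∀ n j : ℕ, (φ n).Realize (Sum.elim x (fun i => g (a n j i))) ↔ j = η n

/-- A theory is strongly NIP if none of its models carries a pattern of infinite depth. -/
def StronglyNIP {L : FirstOrder.Language.{0, 0}} (T : L.Theory) : Prop :=
  ∀ (M : Type) [L.Structure M] [Nonempty M], M ⊨ T →
    ∀ (d : ℕ) (k : ℕ → ℕ) (φ : (n : ℕ) → L.Formula (Fin d ⊕ Fin (k n)))
      (a : (n : ℕ) → ℕ → Fin (k n) → M), ¬ IsPattern φ M a

/-- Realisation of polynomials by terms. -/
theorem exists_term (K : Type) [Field K] [LinearOrder K] (n : ℕ)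
    (p : MvPolynomial (Fin n) ℤ) :
    letI := orStr K
    ∃ t : OR.Term (Fin n), ∀ x : Fin n → K,
      t.realize x = MvPolynomial.eval₂ (Int.castRingHom K) x p := by
  letI : FirstOrder.Ring.CompatibleRing K := FirstOrder.Ring.compatibleRingOfRing K
  letI : Language.order.Structure K := Language.orderStructure K
  obtain ⟨q, rfl⟩ := (freeCommRingEquivMvPolynomialInt (Fin n)).surjective p
  refine ⟨LHom.sumInl.onTerm (FirstOrder.Ring.termOfFreeCommRing q), fun x => ?_⟩
  rw [LHom.realize_onTerm, FirstOrder.Ring.realize_termOfFreeCommRing]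
  have : FreeCommRing.lift x = (MvPolynomial.eval₂Hom (Int.castRingHom K) x).comp
      (freeCommRingEquivMvPolynomialInt (Fin n) : FreeCommRing (Fin n) →+* MvPolynomial (Fin n) ℤ) := by
    apply FreeCommRing.hom_ext
    intro i
    simp [freeCommRingEquivMvPolynomialInt]
  rw [this]
  rfl

theorem closed_definable (K : Type) [Field K] [LinearOrder K] [IsStrictOrderedRing K] :
    letI := orStr K
    Closed K (fun n => {s : Set (Fin n → K) | (∅ : Set K).Definable OR s}) := by
  letI : FirstOrder.Ring.CompatibleRing K := FirstOrder.Ring.compatibleRingOfRing K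
  letI : Language.order.Structure K := Language.orderStructure K
  refine ⟨?_, ?_, ?_, ?_, ?_⟩
  · intro n p
    obtain ⟨t, ht⟩ := exists_term K n p
    obtain ⟨t0, ht0⟩ := exists_term K n 0
    show (∅ : Set K).Definable OR _
    rw [Set.empty_definable_iff]
    refine ⟨t.equal t0, ?_⟩
    ext x
    have h1 := ht x
    have h2 := ht0 x
    simp only [Set.mem_ofPred_eq, Formula.realize_equal]
    rw [h1, h2]
    simp
  · intro n p
    obtain ⟨t, ht⟩ := exists_term K n p
    obtain ⟨t0, ht0⟩ := exists_term K n 0
    show (∅ : Set K).Definable OR _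
    rw [Set.empty_definable_iff]
    refine ⟨(t0.relabel (Sum.inl : Fin n → Fin n ⊕ Fin 0)).lt (t.relabel Sum.inl), ?_⟩
    ext x
    have h1 := ht x
    have h2 := ht0 x
    simp only [Set.mem_ofPred_eq]
    haveI : OR.OrderedStructure K := ⟨fun x => Iff.rfl⟩
    rw [Formula.Realize, Term.realize_lt]
    simp only [Term.realize_relabel, Sum.elim_comp_inl]
    rw [h1, h2]
    simp
  · intro n s hs
    exact Set.Definable.compl hs
  · intro n s t hs ht
    exact Set.Definable.inter hs ht
  · intro n s hs
    have h := Set.Definable.image_comp hs (Fin.castSucc : Fin n → Fin (n + 1))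
    show (∅ : Set K).Definable OR _
    convert h using 1
    ext x
    simp only [Set.mem_ofPred_eq, Set.mem_image]
    constructor
    · rintro ⟨a, ha⟩
      exact ⟨_, ha, by ext i; simp⟩
    · rintro ⟨y, hy, rfl⟩
      refine ⟨y (Fin.last n), ?_⟩
      convert hy using 1
      ext i
      refine Fin.lastCases ?_ (fun i => ?_) i
      · simp
      · simp

theorem exists_formula (K : Type) [Field K] [LinearOrder K] [IsStrictOrderedRing K] (k : ℕ)
    (S : Set (Fin (k + 1) → K)) (hS : Dfn K (k + 1) S) :
    letI := orStr K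
    ∃ φ : OR.Formula (Fin 1 ⊕ Fin k), ∀ (c : Fin 1 → K) (y : Fin k → K),
      φ.Realize (Sum.elim c y) ↔ Fin.cons (α := fun _ => K) (c 0) y ∈ S := by
  letI := orStr K
  have h := hS _ (closed_definable K)
  have h' : (∅ : Set K).Definable OR S := h
  rw [Set.empty_definable_iff] at h'
  obtain ⟨ψ, hψ⟩ := h'
  refine ⟨ψ.relabel (Fin.cons (α := fun _ => Fin 1 ⊕ Fin k) (Sum.inl 0) Sum.inr), fun c y => ?_⟩
  rw [Formula.realize_relabel, hψ]
  have : (Sum.elim c y ∘ (Fin.cons (α := fun _ => Fin 1 ⊕ Fin k) (Sum.inl 0) Sum.inr))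
      = Fin.cons (α := fun _ => K) (c 0) y := by
    ext i
    refine Fin.cases ?_ (fun i => ?_) i
    · simp
    · simp
  rw [this]
  rfl

/-- Finite patterns of all sizes in one structure give an infinite pattern in an ultrapower. -/
theorem pattern_of_finite {L : FirstOrder.Language.{0, 0}} (K : Type) [L.Structure K] [Nonempty K]
    (k : ℕ → ℕ) (φ : (n : ℕ) → L.Formula (Fin 1 ⊕ Fin (k n)))
    (h : ∀ n m : ℕ, ∃ a : (i : Fin n) → Fin m → (Fin (k i.val) → K),
        ∀ η : Fin n → Fin m, ∃ c : Fin 1 → K, ∀ (i : Fin n) (j : Fin m),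
          ((φ i.val).Realize (Sum.elim c (a i j)) ↔ j = η i)) :
    ¬ StronglyNIP (L.completeTheory K) := by
  classical
  intro hT
  let u : Ultrafilter ℕ := Filter.hyperfilter ℕ
  let M : Type := (u : Filter ℕ).Product (fun _ : ℕ => K)
  have hM : M ⊨ L.completeTheory K := by
    rw [Theory.model_iff]
    intro ψ hψ
    have h1 : K ⊨ ψ := hψ
    show (u : Filter ℕ).Product (fun _ : ℕ => K) ⊨ ψ
    rw [Ultraproduct.sentence_realize]
    exact Filter.Eventually.of_forall fun _ => h1
  choose a ha using h
  let k0 : K := Classical.arbitrary K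
  -- the parameters
  let b : (n : ℕ) → (j : ℕ) → Fin (k n) → ℕ → K := fun n j i m =>
    if h : n < m ∧ j < m then a m m ⟨n, h.1⟩ ⟨j, h.2⟩ i else k0
  refine hT M hM 1 k φ (fun n j i => ((b n j i : ℕ → K) : (u : Filter ℕ).Product (fun _ : ℕ => K)))
    (fun η => ?_)
  refine ⟨M, inferInstance, ElementaryEmbedding.refl L M, ?_⟩
  -- the finite paths
  let ηf : (m : ℕ) → Fin m → Fin m := fun m i =>
    if h : η i.val < m then ⟨η i.val, h⟩ else i
  choose c hc using fun m => ha m m (ηf m)
  refine ⟨fun i => ((fun m => c m i : ℕ → K) : (u : Filter ℕ).Product (fun _ : ℕ => K)), ?_⟩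
  intro n j
  have key : (φ n).Realize (Sum.elim
      (fun i => ((fun m => c m i : ℕ → K) : (u : Filter ℕ).Product (fun _ : ℕ => K)))
      (fun i => ((b n j i : ℕ → K) : (u : Filter ℕ).Product (fun _ : ℕ => K)))) ↔
      ∀ᶠ m : ℕ in u, (φ n).Realize (fun s => Sum.elim (fun i m => c m i) (b n j) s m) := by
    rw [← Ultraproduct.realize_formula_cast]
    apply iff_of_eq
    congr 1
    ext s
    cases s <;> rfl
  have hev : ∀ᶠ m : ℕ in u, ((φ n).Realize (fun s => Sum.elim (fun i m => c m i) (b n j) s m) ↔
      j = η n) := by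
    have h1 : ∀ᶠ m : ℕ in Filter.cofinite, n < m ∧ j < m ∧ η n < m := by
      rw [Nat.cofinite_eq_atTop]
      exact ((Filter.eventually_gt_atTop n).and ((Filter.eventually_gt_atTop j).and
        (Filter.eventually_gt_atTop (η n))))
    have h2 : (u : Filter ℕ) ≤ Filter.cofinite := Filter.hyperfilter_le_cofinite
    refine (Filter.Eventually.filter_mono h2 h1).mono fun m hm => ?_
    obtain ⟨hn, hj, hη⟩ := hm
    have := hc m ⟨n, hn⟩ ⟨j, hj⟩
    have e1 : (fun s => Sum.elim (fun i m => c m i) (b n j) s m) =
        Sum.elim (c m) (a m m ⟨n, hn⟩ ⟨j, hj⟩) := by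
      ext s
      cases s with
      | inl i => rfl
      | inr i =>
        show b n j i m = _
        simp only [b]
        rw [dif_pos ⟨hn, hj⟩, Sum.elim_inr]
    rw [e1, this]
    have e2 : ηf m ⟨n, hn⟩ = ⟨η n, hη⟩ := by
      simp only [ηf]
      rw [dif_pos hη]
    rw [e2, Fin.mk.injEq]
  have : ((φ n).Realize (Sum.elim
      (fun i => ((fun m => c m i : ℕ → K) : (u : Filter ℕ).Product (fun _ : ℕ => K)))
      (fun i => ((b n j i : ℕ → K) : (u : Filter ℕ).Product (fun _ : ℕ => K)))) ↔ j = η n) := by
    rw [key]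
    constructor
    · intro hh
      obtain ⟨m, hm1, hm2⟩ := (hh.and hev).exists
      exact hm2.1 hm1
    · intro hh
      exact hev.mono fun m hm => hm.2 hh
  exact this

/-- A strongly NIP theory of ordered fields has no finite one-variable patterns of all sizes. -/
theorem strongNIP_of_thy (K : Type) [Field K] [LinearOrder K] [IsStrictOrderedRing K]
    (h : StronglyNIP (thy K)) : StrongNIP K := by
  letI := orStr K
  rintro ⟨k, S, hS, hpat⟩
  choose φ hφ using fun n => exists_formula K (k n) (S n) (hS n)
  refine pattern_of_finite (L := OR) K k φ ?_ h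
  intro n m
  obtain ⟨a, ha⟩ := hpat n m
  refine ⟨a, fun η => ?_⟩
  obtain ⟨c, hc⟩ := ha η
  refine ⟨fun _ => c, fun i j => ?_⟩
  rw [hφ]
  exact hc i j

end Pool.Agent.SNIP.Th
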