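import Mathlib
import Pool.Agent.SNIP.Final
import Pool.Agent.SNIP.Theory

set_option autoImplicit false

namespace Pool.Agent.SNIP.Th

/-- The main theorem for one given real closed algebraic ordered extension. -/
theorem isRealClosed_of (K R : Type) [Field K] [LinearOrder K] [IsStrictOrderedRing K]
    [Field R] [LinearOrder R] [IsStrictOrderedRing R] (f : K →+* R) (hf : StrictMono (f : K → R))
    (halg : ∀ r : R, ∃ p : Polynomial K, p ≠ 0 ∧ p.eval₂ f r = 0)
    (hsq : ∀ r : R, 0 < r → ∃ s : R, s * s = r)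
    (hodd : ∀ p : Polynomial R, Odd p.natDegree → ∃ r : R, p.IsRoot r)
    (hdense : ∀ a b : R, a < b → ∃ c : K, a < f c ∧ f c < b)
    (hS : StrongNIP K) : IsRealClosed K := by
  by_cases hsurj : ∀ r : R, ∃ c : K, f c = r
  · apply IsRealClosed.of_linearOrderedField
    · intro x hx
      rcases hx.eq_or_lt with rfl | hx
      · exact ⟨0, by simp⟩
      · obtain ⟨s, hs⟩ := hsq (f x) (by simpa using hf hx)
        obtain ⟨c, rfl⟩ := hsurj s
        exact ⟨c, f.injective (by simpa using hs.symm)⟩
    · intro p hp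
      obtain ⟨r, hr⟩ := hodd (p.map f) (by rwa [Polynomial.natDegree_map])
      obtain ⟨c, rfl⟩ := hsurj r
      refine ⟨c, ?_⟩
      rw [Polynomial.IsRoot.def, Polynomial.eval_map, Polynomial.eval₂_hom] at hr
      exact (map_eq_zero f).1 hr
  · exfalso
    push Not at hsurj
    obtain ⟨r₀, hr₀⟩ := hsurj
    obtain ⟨L, j1, j2, D, b, hL⟩ := exists_field K R f hf halg hsq hodd hdense r₀ hr₀
    obtain ⟨q, hq, hfi⟩ := finIndex_of_strongNIP b hS
    obtain ⟨C, hC⟩ := bnorm_isN b
    obtain ⟨hex, hfin⟩ := hL q hq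
    exact core_of ln_lemma (bnorm b) C hC q (by omega) (endProp (bnorm b) C hC q) hex (hfin hfi)
      (fun δ _ => vc_of_strongNIP b hS q δ)

/-- A root of a nonzero polynomial over a subfield is bounded by an element of the subfield. -/
theorem root_bound (K R : Type) [Field K] [LinearOrder K] [IsStrictOrderedRing K]
    [Field R] [LinearOrder R] [IsStrictOrderedRing R] (f : K →+* R) (hf : StrictMono (f : K → R))
    (r : R) (p : Polynomial K) (hp : p ≠ 0) (hr : p.eval₂ f r = 0) : ∃ c : K, r ≤ f c := by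
  classical
  have hfabs : ∀ x : K, |f x| = f |x| := by
    intro x
    rcases le_total 0 x with h | h
    · rw [abs_of_nonneg h, abs_of_nonneg]
      have := hf.monotone h
      simpa using this
    · rw [abs_of_nonpos h, abs_of_nonpos, map_neg]
      have := hf.monotone h
      simpa using this
  by_cases hr1 : r ≤ 1
  · exact ⟨1, by simpa using hr1⟩
  push Not at hr1
  have hr0 : 0 < r := lt_trans one_pos hr1
  set n := p.natDegree with hn
  have hlead : p.leadingCoeff ≠ 0 := by simpa using hp
  -- the degree is positive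
  have hn0 : n ≠ 0 := by
    intro h0
    have hpc : p = Polynomial.C (p.coeff 0) := Polynomial.eq_C_of_natDegree_eq_zero h0
    rw [hpc, Polynomial.eval₂_C] at hr
    have : p.coeff 0 = 0 := (map_eq_zero f).1 hr
    rw [this, map_zero] at hpc
    exact hp hpc
  obtain ⟨m, hm⟩ : ∃ m, n = m + 1 := ⟨n - 1, by omega⟩
  have hsum : p.eval₂ f r = ∑ i ∈ Finset.range (m + 1), f (p.coeff i) * r ^ i +
      f p.leadingCoeff * r ^ (m + 1) := by
    rw [Polynomial.eval₂_eq_sum_range, ← hn, hm, Finset.sum_range_succ]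
    congr 2
    rw [Polynomial.leadingCoeff, ← hn, hm]
  refine ⟨(∑ i ∈ Finset.range (m + 1), |p.coeff i|) / |p.leadingCoeff|, ?_⟩
  have h1 : |f p.leadingCoeff| * r ^ (m + 1) ≤
      (∑ i ∈ Finset.range (m + 1), |f (p.coeff i)|) * r ^ m := by
    have h2 : f p.leadingCoeff * r ^ (m + 1) =
        - ∑ i ∈ Finset.range (m + 1), f (p.coeff i) * r ^ i := by
      have := hsum.symm.trans hr
      linear_combination this
    calc |f p.leadingCoeff| * r ^ (m + 1) = |f p.leadingCoeff * r ^ (m + 1)| := by
          rw [abs_mul, abs_of_pos (pow_pos hr0 _)]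
      _ = |∑ i ∈ Finset.range (m + 1), f (p.coeff i) * r ^ i| := by rw [h2, abs_neg]
      _ ≤ ∑ i ∈ Finset.range (m + 1), |f (p.coeff i) * r ^ i| := Finset.abs_sum_le_sum_abs _ _
      _ ≤ ∑ i ∈ Finset.range (m + 1), |f (p.coeff i)| * r ^ m := by
          refine Finset.sum_le_sum fun i hi => ?_
          rw [abs_mul, abs_of_pos (pow_pos hr0 i)]
          refine mul_le_mul_of_nonneg_left ?_ (abs_nonneg _)
          exact pow_le_pow_right₀ hr1.le (by simp at hi; omega)
      _ = _ := by rw [Finset.sum_mul]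
  have hl : 0 < |f p.leadingCoeff| := by
    rw [abs_pos]
    exact fun h => hlead ((map_eq_zero f).1 h)
  have h3 : |f p.leadingCoeff| * r ≤ ∑ i ∈ Finset.range (m + 1), |f (p.coeff i)| := by
    have : (|f p.leadingCoeff| * r) * r ^ m ≤ (∑ i ∈ Finset.range (m + 1), |f (p.coeff i)|) * r ^ m := by
      calc _ = |f p.leadingCoeff| * r ^ (m + 1) := by ring
        _ ≤ _ := h1
    exact le_of_mul_le_mul_right this (pow_pos hr0 m)
  rw [map_div₀, map_sum, ← hfabs, le_div_iff₀ hl]
  calc r * |f p.leadingCoeff| = |f p.leadingCoeff| * r := mul_comm _ _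
    _ ≤ _ := h3
    _ = _ := Finset.sum_congr rfl fun i _ => hfabs _

/-- The archimedean case. -/
theorem isRealClosed_of_archimedean (K : Type) [Field K] [LinearOrder K] [IsStrictOrderedRing K]
    [Archimedean K] (hS : StrongNIP K) : IsRealClosed K := by
  obtain ⟨R, i1, i2, i3, f, hf, halg, hsq, hodd⟩ := exists_realClosure K
  haveI : Archimedean R := by
    rw [archimedean_iff_nat_le]
    intro r
    obtain ⟨p, hp, hr⟩ := halg r
    obtain ⟨c, hc⟩ := root_bound K R f hf r p hp hr
    obtain ⟨n, hn⟩ := exists_nat_ge c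
    refine ⟨n, hc.trans ?_⟩
    have := hf.monotone hn
    simpa using this
  refine isRealClosed_of K R f hf halg hsq hodd ?_ hS
  intro a b hab
  obtain ⟨q, hq1, hq2⟩ := exists_rat_btwn hab
  exact ⟨(q : K), by simpa using hq1, by simpa using hq2⟩

end Pool.Agent.SNIP.Th
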